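import Pool.Agent.Lib.MP_6b7ffe_lc.Order

/-! Two sided vertex order of a digraph with exits on both sides. -/

set_option autoImplicit false

namespace Pool.Agent.Lib.MP_6b7ffe_lc

open Function Pool.Agent.Lib.Complexity

/-- `v` reaches `X` in at most `j` steps of `r` -/
def Near {V : Type} (r : V → V → Prop) (X : V → Prop) : ℕ → V → Prop
  | 0, v => X v
  | j + 1, v => X v ∨ ∃ w, r v w ∧ Near r X j w

theorem Near.of_mem {V : Type} {r : V → V → Prop} {X : V → Prop} {v : V} (h : X v) (j : ℕ) :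
    Near r X j v := by
  cases j with
  | zero => exact h
  | succ j => exact .inl h

theorem Near.mono {V : Type} {r r' : V → V → Prop} {X X' : V → Prop} (hr : ∀ a b, r a b → r' a b)
    (hX : ∀ a, X a → X' a) {i j : ℕ} (hij : i ≤ j) {v : V} (h : Near r X i v) : Near r' X' j v := by
  induction i generalizing j v with
  | zero => exact .of_mem (hX v h) j
  | succ i ih =>
    obtain ⟨j, rfl⟩ : ∃ k, j = k + 1 := ⟨j - 1, by omega⟩
    exact h.imp (hX v) fun ⟨w, h1, h2⟩ => ⟨w, hr _ _ h1, ih (by omega) h2⟩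

namespace Fan

open Two (del del_fin count_lt)

/-- `u` reaches `X` along arcs inside `S` -/
inductive Rch (D : Arcs) (X : List ℕ) (S : Finset ℕ) : ℕ → Prop
  | free (u : ℕ) : u ∈ S → u ∈ X → Rch D X S u
  | step (u w : ℕ) : u ∈ S → (u, w) ∈ D → Rch D X S w → Rch D X S u

variable {D : Arcs} {X Xm Xp Q Q0 M : List ℕ} {S S' : Finset ℕ} {u : ℕ}

theorem Rch.mem (h : Rch D X S u) : u ∈ S := by cases h <;> assumption

theorem Rch.mono (hS : S ⊆ S') (h : Rch D X S u) : Rch D X S' u := by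
  induction h with
  | free u h1 h2 => exact .free u (hS h1) h2
  | step u w h1 h2 _ ih => exact .step u w (hS h1) h2 ih

theorem Rch.avoid {a : ℕ} (ha : ¬Rch D X S a) (h : Rch D X S u) : Rch D X (S.erase a) u := by
  have key : ∀ u, Rch D X S u → u ∈ S.erase a := fun u h =>
    Finset.mem_erase.2 ⟨fun e => ha (e ▸ h), h.mem⟩
  induction h with
  | free u h1 h2 => exact .free u (key u (.free u h1 h2)) h2
  | step u w h1 h2 h3 ih => exact .step u w (key u (.step u w h1 h2 h3)) h2 ih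

theorem Rch.last {a b : ℕ} (hab : a ≠ b) (h : Rch D X S u) :
    Rch D X ((S.erase a).erase b) u ∨ Rch D X (S.erase b) a ∨ Rch D X (S.erase a) b := by
  induction h with
  | free u h1 h2 =>
    by_cases e : u = a
    · exact .inr (.inl (.free a (by simp [hab, e ▸ h1]) (e ▸ h2)))
    by_cases e' : u = b
    · exact .inr (.inr (.free b (by simp [hab.symm, e' ▸ h1]) (e' ▸ h2)))
    exact .inl (.free u (by simp [e, e', h1]) h2)
  | step u w h1 h2 _ ih =>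
    rcases ih with ih | ih
    · by_cases e : u = a
      · exact .inr (.inl (.step a w (by simp [hab, e ▸ h1]) (e ▸ h2)
          (ih.mono (Finset.erase_subset_erase _ (Finset.erase_subset _ _)))))
      by_cases e' : u = b
      · exact .inr (.inr (.step b w (by simp [hab.symm, e' ▸ h1]) (e' ▸ h2)
          (ih.mono (Finset.erase_subset _ _))))
      exact .inl (.step u w (by simp [e, e', h1]) h2 ih)
    · exact .inr ih

theorem rch_of_near (hw : ∀ p ∈ D, p.1 ∈ S → p.2 ∈ S) {j : ℕ} (hu : u ∈ S)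
    (h : Near (fun a b => (a, b) ∈ D) (· ∈ X) j u) : Rch D X S u := by
  induction j generalizing u with
  | zero => exact .free u hu h
  | succ j ih =>
    rcases h with h | ⟨w, h1, h2⟩
    exacts [.free u hu h, .step u w hu h1 (ih (hw _ h1 hu) h2)]

theorem back {Δ : ℕ} (hin : ∀ c, (D.countP fun p => decide (p.2 = c)) ≤ Δ) (c j : ℕ) :
    ∃ B : Finset ℕ, B.card ≤ (Δ + 1) ^ j ∧
      ∀ v, Near (fun a b => (a, b) ∈ D) (· = c) j v → v ∈ B := by
  induction j with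
  | zero => exact ⟨{c}, by simp, fun v h => Finset.mem_singleton.2 h⟩
  | succ j ih =>
    obtain ⟨B, h1, h2⟩ := ih
    refine ⟨B ∪ B.biUnion fun w => ((D.filter fun p => decide (p.2 = w)).map Prod.fst).toFinset,
      ?_, ?_⟩
    · have h3 := Finset.card_biUnion_le_card_mul B
        (fun w => ((D.filter fun p => decide (p.2 = w)).map Prod.fst).toFinset) Δ fun w _ =>
          (List.toFinset_card_le _).trans (by
            rw [List.length_map, ← List.countP_eq_length_filter]; exact hin w)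
      refine (Finset.card_union_le _ _).trans ?_
      calc _ ≤ B.card * (Δ + 1) := by rw [Nat.mul_succ]; omega
        _ ≤ _ := by rw [pow_succ]; exact Nat.mul_le_mul_right _ h1
    · rintro v (h | ⟨w, h3, h4⟩)
      · exact Finset.mem_union_left _ (h2 v (Near.of_mem (X := (· = c)) h j))
      · refine Finset.mem_union_right _ (Finset.mem_biUnion.2 ⟨w, h2 w h4, ?_⟩)
        exact List.mem_toFinset.2 (List.mem_map.2 ⟨(v, w), by simp [h3], rfl⟩)

/-- the hypotheses on the whole digraph -/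
structure Hyp (Q : List ℕ) (D : Arcs) (Xm Xp : List ℕ) : Prop where
  hw : ∀ p ∈ D, p.1 ∈ Q → p.2 ∈ Q ∧ p.1 ≠ p.2
  hm : ∀ v ∈ Q, ∃ j, Near (fun a b => (a, b) ∈ D) (· ∈ Xm) j v
  hp : ∀ v ∈ Q, ∃ j, Near (fun a b => (a, b) ∈ D) (· ∈ Xp) j v
  hc : ∀ (T : Finset ℕ) (c : ℕ), T.Nonempty → c ∉ T → (∀ a ∈ T, a ∈ Q ∧ a ∉ Xm ∧ a ∉ Xp) →
    ∃ p ∈ D, p.1 ∈ T ∧ p.2 ∉ T ∧ p.2 ≠ c

theorem hyp_of {R K Δ : ℕ} (hw : ∀ p ∈ D, p.1 ∈ Q → p.2 ∈ Q ∧ p.1 ≠ p.2)
    (hin : ∀ c, (D.countP fun p => decide (p.2 = c)) ≤ Δ) (hK : (Δ + 1) ^ R < K)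
    (hm : ∀ v ∈ Q, Near (fun a b => (a, b) ∈ D) (· ∈ Xm) R v)
    (hp : ∀ v ∈ Q, Near (fun a b => (a, b) ∈ D) (· ∈ Xp) R v)
    (hS : ∀ (T : Finset ℕ) (c : ℕ), T.Nonempty → c ∉ T → T.card < K →
      (∀ a ∈ T, a ∈ Q ∧ a ∉ Xm ∧ a ∉ Xp) → ∃ p ∈ D, p.1 ∈ T ∧ p.2 ∉ T ∧ p.2 ≠ c) :
    Hyp Q D Xm Xp := by
  refine ⟨hw, fun v hv => ⟨R, hm v hv⟩, fun v hv => ⟨R, hp v hv⟩, fun T c h1 h2 h3 => ?_⟩
  by_cases hT : T.card < K
  · exact hS T c h1 h2 hT h3
  by_contra hn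
  obtain ⟨B, h4, h5⟩ := back hin c R
  obtain ⟨z, hz, hz'⟩ := Finset.exists_mem_notMem_of_card_lt_card (s := B) (t := T) (by omega)
  have key : ∀ j, ∀ z ∈ T, Near (fun a b => (a, b) ∈ D) (· ∈ Xp) j z →
      Near (fun a b => (a, b) ∈ D) (· = c) j z := fun j => by
    induction j with
    | zero => exact fun z hz h => absurd h (h3 z hz).2.2
    | succ j ih =>
      rintro z hz (h | ⟨w, h6, h7⟩)
      · exact absurd h (h3 z hz).2.2
      · by_cases e : w = c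
        · exact .inr ⟨w, h6, Near.of_mem (X := (· = c)) e j⟩
        · exact .inr ⟨w, h6, ih w (by_contra fun h => hn ⟨_, h6, hz, h, e⟩) h7⟩
  exact hz' (h5 z (key R z hz (hp z (h3 z hz).1)))

/-- `v` may be placed next -/
def Cand (D : Arcs) (Xm : List ℕ) (S : Finset ℕ) (v : ℕ) : Prop :=
  v ∈ Xm ∨ ∃ w, (v, w) ∈ D ∧ w ∉ S

theorem cand_ex {j : ℕ} (hu : u ∈ S) (h : Near (fun a b => (a, b) ∈ D) (· ∈ Xm) j u) :
    ∃ v ∈ S, Cand D Xm S v := by
  induction j generalizing u with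
  | zero => exact ⟨u, hu, .inl h⟩
  | succ j ih =>
    rcases h with h | ⟨w, h1, h2⟩
    · exact ⟨u, hu, .inl h⟩
    · by_cases e : w ∈ S
      exacts [ih e h2, ⟨u, hu, .inr ⟨w, h1, e⟩⟩]

theorem exists_pick (H : Hyp Q0 D Xm Xp) (hS : ∀ a ∈ S, a ∈ Q0) (hne : S.Nonempty)
    (hg : ∀ u ∈ S, Rch D Xp S u) :
    ∃ v ∈ S, Cand D Xm S v ∧ ∀ u ∈ S.erase v, Rch D Xp (S.erase v) u := by
  classical
  set dom : ℕ → Finset ℕ := fun v => (S.erase v).filter fun u => ¬Rch D Xp (S.erase v) u with hdom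
  obtain ⟨x, hx⟩ := hne
  obtain ⟨j, hj⟩ := H.hm x (hS x hx)
  obtain ⟨y, hy, hy'⟩ := cand_ex hx hj
  obtain ⟨v, hv, hmin⟩ := Finset.exists_min_image (S.filter (Cand D Xm S))
    (fun v => (dom v).card) ⟨y, Finset.mem_filter.2 ⟨hy, hy'⟩⟩
  obtain ⟨hv, hv'⟩ := Finset.mem_filter.1 hv
  refine ⟨v, hv, hv', fun u hu => ?_⟩
  by_contra h
  have h1 : ∀ a ∈ dom v, ¬Cand D Xm S a := fun a hu h2 => by
    obtain ⟨h3, h4⟩ := Finset.mem_filter.1 hu
    obtain ⟨h5, h6⟩ := Finset.mem_erase.1 h3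
    have h7 := hmin a (Finset.mem_filter.2 ⟨h6, h2⟩)
    refine absurd (Finset.card_lt_card (Finset.ssubset_of_subset_of_ssubset ?_
      (Finset.erase_ssubset hu))) (not_lt.2 h7)
    intro z hz
    obtain ⟨h8, h9⟩ := Finset.mem_filter.1 hz
    obtain ⟨h10, h11⟩ := Finset.mem_erase.1 h8
    refine Finset.mem_erase.2 ⟨h10, Finset.mem_filter.2 ⟨Finset.mem_erase.2 ⟨fun e => ?_, h11⟩,
      fun h => h9 ((h.avoid h4).mono (Finset.erase_subset_erase _ (Finset.erase_subset _ _)))⟩⟩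
    rcases (hg v hv).last h5 with h | h | h
    · simpa using h.mem
    · exact h4 h
    · exact h9 (e ▸ h)
  obtain ⟨p, h2, h3, h4, h5⟩ := H.hc (dom v) v ⟨u, Finset.mem_filter.2 ⟨hu, h⟩⟩ (by simp [hdom])
    fun a ha => by
      obtain ⟨h2, h3⟩ := Finset.mem_filter.1 ha
      exact ⟨hS a (Finset.mem_of_mem_erase h2), fun h => h1 a ha (.inl h),
        fun h => h3 (.free a h2 h)⟩
  obtain ⟨h6, h7⟩ := Finset.mem_filter.1 h3
  exact h4 (Finset.mem_filter.2 ⟨Finset.mem_erase.2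
    ⟨h5, by_contra fun h => h1 _ h3 (.inr ⟨_, h2, h⟩)⟩, fun h => h7 (.step _ _ h6 h2 h)⟩)

def mstep (D : Arcs) (X Q M : List ℕ) : List ℕ :=
  Q.filter fun u => decide (u ∈ X) || D.any fun p => decide (p.1 = u) && decide (p.2 ∈ M)

def mark (D : Arcs) (X Q : List ℕ) : List ℕ := (mstep D X Q)^[Q.length] []

def good (D : Arcs) (X Q : List ℕ) : Bool := Q.all fun u => decide (u ∈ mark D X Q)

def cand (D : Arcs) (Xm Q : List ℕ) (v : ℕ) : Bool :=
  decide (v ∈ Xm) || D.any fun p => decide (p.1 = v) && !decide (p.2 ∈ Q)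

def ostep (D : Arcs) (Xm Xp Q : List ℕ) : List ℕ :=
  (Q.find? fun v => cand D Xm Q v && good D Xp (del Q v)).elim Q (del Q)

def rest (Q : List ℕ) (D : Arcs) (Xm Xp : List ℕ) (i : ℕ) : List ℕ := (ostep D Xm Xp)^[i] Q

theorem mem_mstep : u ∈ mstep D X Q M ↔ u ∈ Q ∧ (u ∈ X ∨ ∃ w ∈ M, (u, w) ∈ D) := by
  simp only [mstep, List.mem_filter, Bool.or_eq_true, decide_eq_true_eq, List.any_eq_true,
    Bool.and_eq_true]
  refine and_congr_right fun _ => or_congr_right ⟨?_, ?_⟩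
  · rintro ⟨p, h1, rfl, h2⟩
    exact ⟨_, h2, h1⟩
  · rintro ⟨w, h1, h2⟩
    exact ⟨_, h2, rfl, h1⟩

theorem mem_mark : u ∈ mark D X Q ↔ Rch D X Q.toFinset u := by
  constructor
  · unfold mark
    induction Q.length generalizing u with
    | zero => simp
    | succ k ih =>
      rw [iterate_succ_apply', mem_mstep]
      rintro ⟨h1, h2 | ⟨w, h2, h3⟩⟩
      exacts [.free u (by simpa) h2, .step u w (by simpa) h3 (ih h2)]
  · have st := iter_stable (mstep D X Q) Q (fun L L' h x hx => by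
      rw [mem_mstep] at hx ⊢
      exact ⟨hx.1, hx.2.imp_right fun ⟨w, h1, h2⟩ => ⟨w, h h1, h2⟩⟩)
      (fun L x hx => (mem_mstep.1 hx).1) _ le_rfl
    intro h
    induction h with
    | free u h1 h2 => exact (st u).1 (mem_mstep.2 ⟨by simpa using h1, .inl h2⟩)
    | step u w h1 h2 _ ih => exact (st u).1 (mem_mstep.2 ⟨by simpa using h1, .inr ⟨w, ih, h2⟩⟩)

theorem good_iff : good D X Q = true ↔ ∀ u ∈ Q.toFinset, Rch D X Q.toFinset u := by
  simp [good, mem_mark]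

theorem cand_iff : cand D Xm Q u = true ↔ Cand D Xm Q.toFinset u := by
  simp only [cand, Cand, Bool.or_eq_true, decide_eq_true_eq, List.any_eq_true, Bool.and_eq_true,
    Bool.not_eq_true', decide_eq_false_iff_not, List.mem_toFinset]
  refine or_congr_right ⟨?_, ?_⟩
  · rintro ⟨p, h1, rfl, h2⟩
    exact ⟨_, h1, h2⟩
  · rintro ⟨w, h1, h2⟩
    exact ⟨_, h1, rfl, h2⟩

theorem ostep_spec (H : Hyp Q0 D Xm Xp) (hS : Q.Sublist Q0) (hne : Q.toFinset.Nonempty)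
    (hg : good D Xp Q = true) : ∃ v ∈ Q.toFinset, Cand D Xm Q.toFinset v ∧
      (ostep D Xm Xp Q).toFinset = Q.toFinset.erase v ∧ good D Xp (ostep D Xm Xp Q) = true := by
  unfold ostep
  rcases h : Q.find? fun v => cand D Xm Q v && good D Xp (del Q v) with _ | v
  · obtain ⟨v, h1, h2, h3⟩ := exists_pick H (fun a ha => hS.subset (List.mem_toFinset.1 ha)) hne
      (good_iff.1 hg)
    refine absurd ?_ (List.find?_eq_none.1 h v (by simpa using h1))
    rw [← del_fin, ← good_iff] at h3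
    simp [cand_iff.2 h2, h3]
  · have h1 := List.find?_some h
    simp only [Bool.and_eq_true, cand_iff] at h1
    exact ⟨v, by simpa using List.mem_of_find?_eq_some h, h1.1, del_fin Q v, h1.2⟩

theorem ostep_sub (D : Arcs) (Xm Xp Q : List ℕ) : (ostep D Xm Xp Q).Sublist Q := by
  unfold ostep
  cases Q.find? fun v => cand D Xm Q v && good D Xp (del Q v) with
  | none => exact List.Sublist.refl _
  | some v => exact List.filter_sublist

theorem rest_succ (Q : List ℕ) (D : Arcs) (Xm Xp : List ℕ) (i : ℕ) :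
    rest Q D Xm Xp (i + 1) = ostep D Xm Xp (rest Q D Xm Xp i) :=
  iterate_succ_apply' ..

theorem rest_sub (Q : List ℕ) (D : Arcs) (Xm Xp : List ℕ) {i j : ℕ} (h : i ≤ j) :
    (rest Q D Xm Xp j).Sublist (rest Q D Xm Xp i) := by
  induction h with
  | refl => exact List.Sublist.refl _
  | step _ ih => exact rest_succ Q D Xm Xp _ ▸ (ostep_sub D Xm Xp _).trans ih

theorem rest_inv (H : Hyp Q D Xm Xp) (i : ℕ) (hi : i ≤ Q.toFinset.card) :
    good D Xp (rest Q D Xm Xp i) = true ∧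
      (rest Q D Xm Xp i).toFinset.card + i = Q.toFinset.card := by
  induction i with
  | zero =>
    refine ⟨good_iff.2 fun u hu => ?_, rfl⟩
    obtain ⟨j, hj⟩ := H.hp u (List.mem_toFinset.1 hu)
    exact rch_of_near (fun p hp h => List.mem_toFinset.2 (H.hw p hp (List.mem_toFinset.1 h)).1) hu hj
  | succ i ih =>
    obtain ⟨h1, h2⟩ := ih (by omega)
    obtain ⟨v, h3, -, h4, h5⟩ := ostep_spec H (rest_sub Q D Xm Xp (Nat.zero_le i))
      (Finset.card_pos.1 (by omega)) h1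
    rw [rest_succ, h4, Finset.card_erase_of_mem h3]
    exact ⟨h5, by omega⟩

end Fan

open Fan

/-- the position of `v` in the order -/
def fanPos (Q : List ℕ) (D : Arcs) (Xm Xp : List ℕ) (v : ℕ) : ℕ :=
  (List.range Q.length).countP fun i => decide (v ∈ rest Q D Xm Xp (i + 1))

section
variable {Q Xm Xp : List ℕ} {D : Arcs}

theorem fanPos_iff (H : Hyp Q D Xm Xp) {v : ℕ} (hv : v ∈ Q) :
    fanPos Q D Xm Xp v < Q.toFinset.card ∧
      ∀ i, v ∈ rest Q D Xm Xp i ↔ i ≤ fanPos Q D Xm Xp v := by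
  have h0 : v ∉ rest Q D Xm Xp Q.toFinset.card := fun h => by
    have := (rest_inv H _ le_rfl).2
    have := Finset.card_pos.2 ⟨v, List.mem_toFinset.2 h⟩
    omega
  have ex : ∃ i, v ∉ rest Q D Xm Xp i := ⟨_, h0⟩
  have h1 : ∀ i, v ∈ rest Q D Xm Xp i ↔ i < Nat.find ex := fun i =>
    ⟨fun h => not_le.1 fun h' => Nat.find_spec ex ((rest_sub Q D Xm Xp h').subset h),
      fun h => not_not.1 (Nat.find_min ex h)⟩
  have h2 : 0 < Nat.find ex := (h1 0).1 hv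
  have h3 : Nat.find ex ≤ Q.toFinset.card := Nat.find_le h0
  have h4 : fanPos Q D Xm Xp v = min (Nat.find ex - 1) Q.length := by
    rw [← Two.count_lt]
    exact List.countP_congr fun i _ => by
      rw [decide_eq_true_eq, decide_eq_true_eq, h1]; omega
  have h5 := List.toFinset_card_le Q
  exact ⟨by omega, fun i => by rw [h1]; omega⟩

theorem fanPos_pick (H : Hyp Q D Xm Xp) {v : ℕ} (hv : v ∈ Q) :
    Cand D Xm (rest Q D Xm Xp (fanPos Q D Xm Xp v)).toFinset v ∧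
      Rch D Xp (rest Q D Xm Xp (fanPos Q D Xm Xp v)).toFinset v ∧
      ∀ u ∈ rest Q D Xm Xp (fanPos Q D Xm Xp v), u ≠ v →
        u ∈ rest Q D Xm Xp (fanPos Q D Xm Xp v + 1) := by
  obtain ⟨h1, h2⟩ := fanPos_iff H hv
  have h3 := List.mem_toFinset.2 ((h2 _).2 le_rfl)
  have h4 := (rest_inv H _ h1.le).1
  obtain ⟨w, -, h5, h6, -⟩ := ostep_spec H (rest_sub Q D Xm Xp (Nat.zero_le _)) ⟨v, h3⟩ h4
  rw [← rest_succ] at h6
  have h7 : ∀ u ∈ rest Q D Xm Xp (fanPos Q D Xm Xp v), u ≠ w →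
      u ∈ rest Q D Xm Xp (fanPos Q D Xm Xp v + 1) :=
    fun u hu e => List.mem_toFinset.1 (h6 ▸ Finset.mem_erase.2 ⟨e, List.mem_toFinset.2 hu⟩)
  obtain rfl : v = w := by
    by_contra e
    have := (h2 _).1 (h7 v (List.mem_toFinset.1 h3) e)
    omega
  exact ⟨h5, good_iff.1 h4 v h3, h7⟩

theorem fanPos_hyp (H : Hyp Q D Xm Xp) :
    (∀ v ∈ Q, fanPos Q D Xm Xp v < Q.length) ∧
    (∀ u ∈ Q, ∀ v ∈ Q, fanPos Q D Xm Xp u = fanPos Q D Xm Xp v → u = v) ∧
    ∀ v ∈ Q, (v ∈ Xm ∨ ∃ a, (v, a) ∈ D ∧ fanPos Q D Xm Xp a < fanPos Q D Xm Xp v) ∧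
      (v ∈ Xp ∨ ∃ b, (v, b) ∈ D ∧ fanPos Q D Xm Xp v < fanPos Q D Xm Xp b) := by
  refine ⟨fun v hv => (fanPos_iff H hv).1.trans_le (List.toFinset_card_le Q),
    fun u hu v hv e => ?_, fun v hv => ?_⟩
  · by_contra h
    have h1 := (fanPos_iff H hu).2
    have := (h1 _).1 ((fanPos_pick H hv).2.2 u ((h1 _).2 e.ge) h)
    omega
  · obtain ⟨h1, h2, h3⟩ := fanPos_pick H hv
    refine ⟨h1.imp_right fun ⟨a, h4, h5⟩ => ⟨a, h4, not_le.1 fun h => h5 (List.mem_toFinset.2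
      (((fanPos_iff H (H.hw _ h4 hv).1).2 _).2 h))⟩, ?_⟩
    cases h2 with
    | free _ _ h => exact .inl h
    | step _ w _ hw h =>
      obtain ⟨h4, h5⟩ := H.hw _ hw hv
      exact .inr ⟨w, hw, ((fanPos_iff H h4).2 _).1 (h3 w (List.mem_toFinset.1 h.mem) h5.symm)⟩

theorem fanPos_spec (R K Δ : ℕ) (hw : ∀ p ∈ D, p.1 ∈ Q → p.2 ∈ Q ∧ p.1 ≠ p.2)
    (hin : ∀ c, (D.countP fun p => decide (p.2 = c)) ≤ Δ) (hK : (Δ + 1) ^ R < K)
    (hm : ∀ v ∈ Q, Near (fun a b => (a, b) ∈ D) (· ∈ Xm) R v)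
    (hp : ∀ v ∈ Q, Near (fun a b => (a, b) ∈ D) (· ∈ Xp) R v)
    (hS : ∀ (T : Finset ℕ) (c : ℕ), T.Nonempty → c ∉ T → T.card < K →
      (∀ a ∈ T, a ∈ Q ∧ a ∉ Xm ∧ a ∉ Xp) → ∃ p ∈ D, p.1 ∈ T ∧ p.2 ∉ T ∧ p.2 ≠ c) :
    (∀ v ∈ Q, fanPos Q D Xm Xp v < Q.length) ∧
    (∀ u ∈ Q, ∀ v ∈ Q, fanPos Q D Xm Xp u = fanPos Q D Xm Xp v → u = v) ∧
    ∀ v ∈ Q, (v ∈ Xm ∨ ∃ a, (v, a) ∈ D ∧ fanPos Q D Xm Xp a < fanPos Q D Xm Xp v) ∧
      (v ∈ Xp ∨ ∃ b, (v, b) ∈ D ∧ fanPos Q D Xm Xp v < fanPos Q D Xm Xp b) :=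
  fanPos_hyp (hyp_of hw hin hK hm hp hS)

end

section
variable {α : Type} [Enc α] {v : α → ℕ} {D : α → Arcs} {Q M X Xm Xp : α → List ℕ}

@[fun_prop] theorem Fan.pt_mstep (hD : PT D) (hX : PT X) (hQ : PT Q) (hM : PT M) :
    PT fun x => mstep (D x) (X x) (Q x) (M x) := by
  unfold mstep; fun_prop

@[fun_prop] theorem Fan.pt_mark (hD : PT D) (hX : PT X) (hQ : PT Q) :
    PT fun x => mark (D x) (X x) (Q x) := by
  unfold mark
  refine PT.iterate (step := fun x => mstep (D x) (X x) (Q x)) (by fun_prop) (by fun_prop)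
    (by fun_prop) hQ.pb fun x i _ => ?_
  cases i with
  | zero => simp
  | succ i => rw [iterate_succ_apply']; exact sz_le_of_sublist List.filter_sublist

@[fun_prop] theorem Fan.pt_good (hD : PT D) (hX : PT X) (hQ : PT Q) :
    PT fun x => good (D x) (X x) (Q x) := by
  unfold good; fun_prop

@[fun_prop] theorem Fan.pt_ostep (hD : PT D) (hm : PT Xm) (hp : PT Xp) (hQ : PT Q) :
    PT fun x => ostep (D x) (Xm x) (Xp x) (Q x) := by
  unfold ostep Two.del cand; fun_prop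

@[fun_prop] theorem Fan.pt_rest (hQ : PT Q) (hD : PT D) (hm : PT Xm) (hp : PT Xp) (hv : PT v) :
    PT fun x => rest (Q x) (D x) (Xm x) (Xp x) (v x) :=
  PT.iterate (step := fun x => ostep (D x) (Xm x) (Xp x)) hv hQ (by fun_prop) hQ.pb fun x i _ =>
    sz_le_of_sublist (rest_sub (Q x) (D x) (Xm x) (Xp x) (Nat.zero_le i))

@[fun_prop] theorem pt_fanPos (hQ : PT Q) (hD : PT D) (hm : PT Xm) (hp : PT Xp) (hv : PT v) :
    PT fun x => fanPos (Q x) (D x) (Xm x) (Xp x) (v x) := by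
  unfold fanPos; fun_prop

end

end Pool.Agent.Lib.MP_6b7ffe_lc
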