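import Pool.Agent.Lib.MP_6b7ffe_lc.LS.Ph
import Pool.Agent.Lib.MP_6b7ffe_lc.LS.Fan

set_option autoImplicit false

namespace Pool.Agent.Lib.MP_6b7ffe_lc.LS

open Function Pool.Agent.Lib.Complexity

def arcL (D : Mat) : Arcs := (pairs D.length).filter fun p => adj D p.1 p.2

def pos (A : Mat) (c : Prt) (L : List ℕ) (H : Typ) (a : Fin 3) (v : ℕ) : ℕ :=
  fanPos (List.range A.length) (arcL (arc1 A c L H a)) (exits A c L H a false)
    (exits A c L H a true) v

def xm (A : Mat) (c : Prt) (L : List ℕ) (H : Typ) : List (List ℕ) :=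
  ([0, 1, 2] : List (Fin 3)).map fun a => (List.range A.length).map (pos A c L H a)

def typs (L : List ℕ) (H : Typ) : Typ := L.map fun b => (b, tyOf H b)

section
variable {A D : Mat} {c : Prt} {L : List ℕ} {H : Typ} {q K R u v w : ℕ} {a : Fin 3}

theorem mem_arcL (G : Gr A) (s : Sub D A) : (u, w) ∈ arcL D ↔ adj D u w = true := by
  simp only [arcL, List.mem_filter, mem_pairs, s.len]
  exact ⟨fun h => h.2, fun h => ⟨G.rng _ _ (s.sub _ _ h), h⟩⟩

theorem near_of_ball {r : ℕ → ℕ → Prop} {X : ℕ → Prop} (hr : ∀ x y, adj D x y = true → r x y)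
    {j k : ℕ} (h : w ∈ ball D v j) (hw : Near r X k w) : Near r X (j + k) v := by
  induction j generalizing w k with
  | zero => rw [← (mem_ball_zero.1 h).2, Nat.zero_add]; exact hw
  | succ j ih =>
    obtain ⟨-, b | ⟨x, b, e⟩⟩ := mem_ball_succ.1 h
    · exact Near.mono (fun _ _ h => h) (fun _ h => h) (by omega) (ih b hw)
    · have := ih (k := k + 1) b (.inr ⟨w, hr _ _ e, hw⟩)
      rwa [show j + 1 + k = j + (k + 1) by omega]

theorem crd_xm (hv : v < A.length) : crdX (xm A c L H) a v = pos A c L H a v := by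
  fin_cases a <;> simp [crdX, xm, hv]

theorem typs_fst : (typs L H).map Prod.fst = L := by
  rw [typs, List.map_map]; exact List.map_id' _

theorem pos_spec (G : Gr A) (O : OC A c) (hq : 1 ≤ q) (S : SP A q K) (hK : 7 ^ (R + 1) ≤ K)
    (hS : Sep A (8 * q) L)
    (h2 : ∀ a s v, v < A.length → v ∉ L → ∃ x ∈ ball (arc0 A c L a) v R,
      stop A (arc0 A c L a) L x = true ∨ ∃ b ∈ L, adj A x b = true ∧ tyOf H b = (a, s)) :
    (∀ v < A.length, pos A c L H a v < A.length) ∧
    (∀ u < A.length, ∀ v < A.length, pos A c L H a u = pos A c L H a v → u = v) ∧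
    ∀ v < A.length, (v ∈ exits A c L H a false ∨
        ∃ w, adj (arc1 A c L H a) v w = true ∧ pos A c L H a w < pos A c L H a v) ∧
      (v ∈ exits A c L H a true ∨
        ∃ w, adj (arc1 A c L H a) v w = true ∧ pos A c L H a v < pos A c L H a w) := by
  have sb : Sub (arc1 A c L H a) A := sub_arc1 G O (hS.mono (by omega))
  have nr : ∀ s, ∀ v ∈ List.range A.length, Near (fun x y => (x, y) ∈ arcL (arc1 A c L H a))
      (· ∈ exits A c L H a s) R v := fun s v hv => by
    have hv := List.mem_range.1 hv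
    by_cases hvL : v ∈ L
    · exact .of_mem (mem_exits.2 ⟨hv, .inl hvL⟩) _
    obtain ⟨x, x1, x2⟩ := h2 a s v hv hvL
    refine near_of_ball (k := 0) (fun x y e => (mem_arcL G sb).2 (arc0_arc1 G e)) x1
      (mem_exits.2 ⟨by simpa using ball_lt x1, .inr ?_⟩)
    rcases x2 with x2 | ⟨b, b1, b2, b3⟩
    · exact .inl (wild_of_stop G O x2)
    · exact .inr ⟨tch_iff.2 ⟨b, b1, b2⟩, by rw [snk_eq G (hS.mono (by omega)) b1 b2, b3]⟩
  obtain ⟨k1, k2, k3⟩ := fanPos_spec (Q := List.range A.length) (D := arcL (arc1 A c L H a))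
    (Xm := exits A c L H a false) (Xp := exits A c L H a true) R K 6
    (fun p hp _ => by
      have := sb.sub _ _ ((mem_arcL G sb).1 hp)
      exact ⟨List.mem_range.2 (G.rng _ _ this).2, G.ne this⟩)
    (fun x => by
      rw [List.countP_eq_length_filter]
      refine le_trans ?_ (G.deg x)
      have := (List.subperm_of_subset (l₂ := (nb A x).map fun y => (y, x))
        (((pairs_nodup _).filter _).filter fun p : ℕ × ℕ => decide (p.2 = x))
        (fun p hp => by
          obtain ⟨p1, p2⟩ := List.mem_filter.1 hp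
          have e := sb.sub _ _ ((mem_arcL (u := p.1) (w := p.2) G sb).1 p1)
          simp only [decide_eq_true_eq] at p2
          subst p2
          exact List.mem_map.2 ⟨p.1, mem_nb.2 ⟨(G.rng _ _ e).1, by rwa [G.symm]⟩, rfl⟩)).length_le
      rwa [List.length_map] at this)
    (lt_of_lt_of_le (Nat.pow_lt_pow_right (by omega) (by omega)) hK) (nr false) (nr true)
    (fun T x hT hx hTK h => by
      obtain ⟨y, y1, z, z1, z2, z3⟩ := fan_small G hq S sb T x hT hx hTK fun y hy =>
        two_of_not_exit (List.mem_range.1 (h y hy).1) (h y hy).2.1 (h y hy).2.2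
      exact ⟨(y, z), (mem_arcL G sb).2 z1, y1, z2, z3⟩)
  refine ⟨fun v hv => by simpa [pos] using k1 v (List.mem_range.2 hv),
    fun u hu v hv => k2 u (List.mem_range.2 hu) v (List.mem_range.2 hv), fun v hv => ?_⟩
  obtain ⟨m1, m2⟩ := k3 v (List.mem_range.2 hv)
  exact ⟨m1.imp_right fun ⟨w, e, h⟩ => ⟨w, (mem_arcL G sb).1 e, h⟩,
    m2.imp_right fun ⟨w, e, h⟩ => ⟨w, (mem_arcL G sb).1 e, h⟩⟩

theorem three_le_length {l : List ℕ} {x y z : ℕ} (hx : x ∈ l) (hy : y ∈ l) (hz : z ∈ l)
    (h1 : x ≠ y) (h2 : x ≠ z) (h3 : y ≠ z) : 3 ≤ l.length :=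
  length_le_of_sub (l := [x, y, z]) (by simp [h1, h2, h3]) (by simp [hx, hy, hz])

theorem asm (G : Gr A) (O : OC A c) (hq : 1 ≤ q) (S : SP A q K) (hK : 7 ^ (R + 1) ≤ K)
    (hS : Sep A (8 * q) L)
    (h2 : ∀ a s v, v < A.length → v ∉ L → ∃ x ∈ ball (arc0 A c L a) v R,
      stop A (arc0 A c L a) L x = true ∨ ∃ b ∈ L, adj A x b = true ∧ tyOf H b = (a, s)) :
    GP (cor A L) (xm A c L H) (recm A c L H) ∧
    ∀ t ∈ typs L H, ∀ u w, adj A u t.1 = true → adj (cor A L) u w = true →
      prt (recm A c L H) u w = t.2.1 → if t.2.2 = true then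
        crdX (xm A c L H) t.2.1 w < crdX (xm A c L H) t.2.1 u
        else crdX (xm A c L H) t.2.1 u < crdX (xm A c L H) t.2.1 w := by
  have P := fun a => pos_spec (a := a) G O hq S hK hS h2
  have C : Gr (cor A L) := gr_cor G
  have mn : ∀ {a u w}, adj (arc1 A c L H a) u w = true → w ∈ nb (arc1 A c L H a) u :=
    fun e => mem_nb.2 ⟨by simpa using (G.rng _ _ ((adj_arc1 G).1 e).1.1).2, e⟩
  refine ⟨⟨C.symm, C.irr, C.rng, fun i v hv => ?_, fun i u hu v hv e => ?_, fun u v e => ?_,
    fun u v v' e e' ne h => ?_⟩, fun t ht u w e e' h => ?_⟩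
  · rw [cor_length] at hv ⊢
    rw [crd_xm hv]; exact (P i).1 v hv
  · rw [cor_length] at hv hu
    rw [crd_xm hv, crd_xm hu] at e; exact (P i).2.1 u hu v hv e
  · have e1 := ((adj_cor G).1 e).1
    have r := G.rng _ _ e1
    rw [prt_recm r.1 r.2, prt_recm r.2 r.1]
    exact rec1_ne G O (hS.mono (by omega)) e1
  · obtain ⟨e1, e2, -⟩ := (adj_cor G).1 e
    have r := G.rng _ _ e1
    have r' := G.rng _ _ ((adj_cor G).1 e').1
    have a1 : adj (arc1 A c L H (prt (recm A c L H) u v)) u v = true := (adj_arcs C).2 ⟨e, rfl⟩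
    have a2 : adj (arc1 A c L H (prt (recm A c L H) u v)) u v' = true :=
      (adj_arcs C).2 ⟨e', h.symm⟩
    generalize prt (recm A c L H) u v = a at a1 a2
    rw [crd_xm r.1, crd_xm r.2, crd_xm r'.2]
    have l1 := two_le_length (mn a1) (mn a2) ne
    have l2 := nb_arc1_le (L := L) (H := H) (a := a) (u := u) G O
    have nx : ∀ s, u ∉ exits A c L H a s := fun s hs => by
      rcases (mem_exits.1 hs).2 with h | h | h
      · exact e2 h
      · omega
      · have : ray A L H a u = 1 := if_pos ⟨h.1, congrArg Prod.fst h.2⟩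
        omega
    obtain ⟨x, x1, x2⟩ := ((P a).2.2 u r.1).1.resolve_left (nx _)
    obtain ⟨y, y1, y2⟩ := ((P a).2.2 u r.1).2.resolve_left (nx _)
    have key : ∀ z, adj (arc1 A c L H a) u z = true → z = v ∨ z = v' := fun z hz => by
      by_contra hc
      rw [not_or] at hc
      have := three_le_length (mn a1) (mn a2) (mn hz) ne (Ne.symm hc.1) (Ne.symm hc.2)
      omega
    rcases key x x1 with rfl | rfl <;> rcases key y y1 with rfl | rfl <;> omega
  · obtain ⟨b, hb, rfl⟩ := List.mem_map.1 ht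
    dsimp only at e h ⊢
    obtain ⟨e1, e2, -⟩ := (adj_cor G).1 e'
    have r := G.rng _ _ e1
    have a1 : adj (arc1 A c L H (tyOf H b).1) u w = true := (adj_arcs C).2 ⟨e', h⟩
    have sb := snk_eq G (hS.mono (by omega)) hb e
    have t := tch_iff.2 ⟨b, hb, e⟩
    have ry : ray A L H (tyOf H b).1 u = 1 := if_pos ⟨t, by rw [sb]⟩
    have l1 := List.length_pos_of_mem (mn a1)
    have l2 := nb_arc1_le (L := L) (H := H) (a := (tyOf H b).1) (u := u) G O
    have nx : ∀ s, s ≠ (tyOf H b).2 → u ∉ exits A c L H (tyOf H b).1 s := fun s hs h => by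
      rcases (mem_exits.1 h).2 with h | h | h
      · exact e2 h
      · omega
      · rw [sb] at h; exact hs (congrArg Prod.snd h.2).symm
    have key : ∀ z, adj (arc1 A c L H (tyOf H b).1) u z = true → z = w := fun z hz => by
      by_contra hc
      have := two_le_length (mn a1) (mn hz) (Ne.symm hc)
      omega
    rw [crd_xm r.1, crd_xm r.2]
    split_ifs with hs
    · obtain ⟨x, x1, x2⟩ := ((P _).2.2 u r.1).1.resolve_left (nx false (by simp [hs]))
      rwa [key x x1] at x2
    · obtain ⟨x, x1, x2⟩ := ((P _).2.2 u r.1).2.resolve_left (nx true (Ne.symm hs))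
      rwa [key x x1] at x2

end

section
variable {α : Type} [Enc α] {A : α → Mat} {c : α → Prt} {L : α → List ℕ} {H : α → Typ}

@[fun_prop] theorem pt_arcL (hA : PT A) : PT fun x => arcL (A x) := by
  unfold arcL; fun_prop

@[fun_prop] theorem pt_xm (hA : PT A) (hc : PT c) (hL : PT L) (hH : PT H) :
    PT fun x => xm (A x) (c x) (L x) (H x) := by
  unfold xm pos; fun_prop

@[fun_prop] theorem pt_typs (hL : PT L) (hH : PT H) : PT fun x => typs (L x) (H x) := by
  unfold typs; fun_prop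

end

end Pool.Agent.Lib.MP_6b7ffe_lc.LS
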