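import Pool.Agent.Lib.MP_6b7ffe_lc.Defs

set_option autoImplicit false

namespace Pool.Agent.Lib.MP_6b7ffe_lc.LS

/-- vertex `u` sits at `P u`, edge `uv` has the two bends `B u v` and `B v u`; consecutive
segments of an edge are parallel to different axes -/
def IsDrawing2 {V : Type} (G : SimpleGraph V) (P : V → Fin 3 → ℝ) (B : V → V → Fin 3 → ℝ) : Prop :=
  Function.Injective P ∧
  (∀ u v, G.Adj u v → B u v ≠ B v u ∧ ∃ i j k : Fin 3, i ≠ j ∧ j ≠ k ∧
    Along i (P u) (B u v) ∧ Along j (B u v) (B v u) ∧ Along k (B v u) (P v)) ∧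
  (∀ u v w, G.Adj u v → P w ∈ chain P B u v → w = u ∨ w = v) ∧
  (∀ u v u' v', G.Adj u v → G.Adj u' v' → s(u, v) ≠ s(u', v') →
    ∀ x ∈ chain P B u v ∩ chain P B u' v', ∃ w, (w = u ∨ w = v) ∧ (w = u' ∨ w = v') ∧ x = P w)

open Classical in
/-- the adjacency matrix -/
noncomputable def adjMat {n : ℕ} (G : SimpleGraph (Fin n)) : List (List Bool) :=
  List.ofFn fun a => List.ofFn fun b => decide (G.Adj a b)

/-- the list of positions `o.1` and the matrix of bends `o.2` form a drawing of `G` -/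
def Draws {n : ℕ} (o : List (ℤ × ℤ × ℤ) × List (List (ℤ × ℤ × ℤ))) (G : SimpleGraph (Fin n)) :
    Prop :=
  IsDrawing2 G (fun u => pt (o.1.getD u 0)) (fun u v => pt ((o.2.getD u []).getD v 0))

/-- every vertex has at most `d` neighbours -/
def DegLe {n : ℕ} (G : SimpleGraph (Fin n)) (d : ℕ) : Prop := ∀ v, (G.neighborSet v).ncard ≤ d

/-- every vertex has exactly `d` neighbours -/
def Reg {n : ℕ} (G : SimpleGraph (Fin n)) (d : ℕ) : Prop := ∀ v, (G.neighborSet v).ncard = d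

/-- every nonempty set `T` of at most `K` vertices spans at most `a (|T| - 1)` edges -/
def LocSparse {n : ℕ} (G : SimpleGraph (Fin n)) (a : ℝ) (K : ℕ) : Prop :=
  ∀ T : Finset (Fin n), T.Nonempty → T.card ≤ K →
    (({e | e ∈ G.edgeSet ∧ ∀ v ∈ e, v ∈ T}.ncard : ℕ) : ℝ) ≤ a * ((T.card : ℝ) - 1)

end Pool.Agent.Lib.MP_6b7ffe_lc.LS
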