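import Pool.Agent.Lib.MP_6b7ffe_lc.Core
import Pool.Agent.Lib.MP_6b7ffe_lc.LS.Defs

set_option autoImplicit false

namespace Pool.Agent.Lib.MP_6b7ffe_lc.LS

open Function Pool.Agent.Lib.Complexity

abbrev Out := List (ℤ × ℤ × ℤ) × List (List (ℤ × ℤ × ℤ))
abbrev Prt := List (List (Fin 3))
abbrev Clause := List (ℕ × Bool)
/-- sinks with their axis and sign (`true` = beyond the largest coordinate) -/
abbrev Typ := List (ℕ × Fin 3 × Bool)

/-- the matrix of a relation on `range n` -/
def mk (n : ℕ) (f : ℕ → ℕ → Bool) : Mat :=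
  (List.range n).map fun u => (List.range n).map fun w => f u w

def nb (D : Mat) (u : ℕ) : List ℕ := (List.range D.length).filter (adj D u)

def bstep (D : Mat) (S : List ℕ) : List ℕ :=
  (List.range D.length).filter fun w => decide (w ∈ S ∨ ∃ u ∈ S, adj D u w = true)

/-- vertices reached from `v` by at most `j` arcs of `D` -/
def ball (D : Mat) (v j : ℕ) : List ℕ :=
  (bstep D)^[j] ((List.range D.length).filter fun w => decide (w = v))

/-- `D` is an orientation of a subgraph of `A` -/
structure Sub (D A : Mat) : Prop where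
  len : D.length = A.length
  sub : ∀ u w, adj D u w = true → adj A u w = true
  anti : ∀ u w, adj D u w = true → adj D w u = false

/-- local sparsity, for sets of darts without a reversed pair -/
def SP (A : Mat) (q K : ℕ) : Prop :=
  ∀ T : Finset ℕ, T.Nonempty → T.card ≤ K → ∀ D : Finset (ℕ × ℕ),
    (∀ p ∈ D, p.1 ∈ T ∧ p.2 ∈ T ∧ adj A p.1 p.2 = true) → (∀ p ∈ D, (p.2, p.1) ∉ D) →
    q * D.card ≤ (2 * q - 1) * (T.card - 1)

/-- different members of `L` are at distance more than `r` -/
def Sep (A : Mat) (r : ℕ) (L : List ℕ) : Prop := ∀ b ∈ L, ∀ b' ∈ L, b' ∈ ball A b r → b' = b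

def tch (A : Mat) (L : List ℕ) (u : ℕ) : Bool := L.any (adj A u)

def stop (A D : Mat) (L : List ℕ) (u : ℕ) : Bool :=
  decide ((nb D u).length + (if tch A L u = true then 1 else 0) < 2)

/-- the graph `A` without the edges at `L` -/
def cor (A : Mat) (L : List ℕ) : Mat :=
  mk A.length fun u w => adj A u w && decide (u ∉ L) && decide (w ∉ L)

section
variable {A D : Mat} {n u v w i j : ℕ} {f : ℕ → ℕ → Bool} {L : List ℕ}

@[simp] theorem mk_length : (mk n f).length = n := by simp [mk]

theorem adj_mk : adj (mk n f) u w = true ↔ u < n ∧ w < n ∧ f u w = true := by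
  by_cases hu : u < n
  · by_cases hw : w < n <;> simp [adj, mk, hu, hw]
  · simp [adj, mk, hu]

theorem mem_nb : w ∈ nb D u ↔ w < D.length ∧ adj D u w = true := by simp [nb]

theorem nb_nodup : (nb D u).Nodup := List.nodup_range.filter _

theorem mem_bstep {S : List ℕ} :
    w ∈ bstep D S ↔ w < D.length ∧ (w ∈ S ∨ ∃ u ∈ S, adj D u w = true) := by simp [bstep]

theorem ball_succ : ball D v (j + 1) = bstep D (ball D v j) := iterate_succ_apply' _ _ _

theorem mem_ball_zero : w ∈ ball D v 0 ↔ w < D.length ∧ w = v := by simp [ball]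

theorem mem_ball_succ : w ∈ ball D v (j + 1) ↔
    w < D.length ∧ (w ∈ ball D v j ∨ ∃ u ∈ ball D v j, adj D u w = true) := by
  rw [ball_succ, mem_bstep]

theorem ball_sublist : (ball D v j).Sublist (List.range D.length) := by
  cases j with
  | zero => exact List.filter_sublist
  | succ j => rw [ball_succ]; exact List.filter_sublist

theorem ball_nodup : (ball D v j).Nodup := List.nodup_range.sublist ball_sublist

theorem ball_lt (h : w ∈ ball D v j) : w < D.length := by simpa using ball_sublist.subset h

theorem ball_mono (h : w ∈ ball D v i) (hij : i ≤ j) : w ∈ ball D v j := by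
  induction hij with
  | refl => exact h
  | step _ ih => exact mem_ball_succ.2 ⟨ball_lt h, .inl ih⟩

theorem ball_self (h : v < D.length) : v ∈ ball D v j :=
  ball_mono (mem_ball_zero.2 ⟨h, rfl⟩) (Nat.zero_le _)

theorem ball_arc (h : u ∈ ball D v j) (hw : w < D.length) (a : adj D u w = true) :
    w ∈ ball D v (j + 1) := mem_ball_succ.2 ⟨hw, .inr ⟨u, h, a⟩⟩

theorem ball_trans (h : u ∈ ball D v i) (h' : w ∈ ball D u j) : w ∈ ball D v (i + j) := by
  induction j generalizing w with
  | zero => rw [(mem_ball_zero.1 h').2]; exact h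
  | succ j ih =>
    obtain ⟨a, b | ⟨x, b, c⟩⟩ := mem_ball_succ.1 h'
    · exact ball_mono (ih b) (by omega)
    · exact ball_arc (ih b) a c

/-- induction along a ball -/
theorem ball_ind {p : ℕ → Prop} (h0 : p v)
    (hs : ∀ x y i, i < j → x ∈ ball D v i → p x → y < D.length → adj D x y = true → p y)
    (h : w ∈ ball D v j) : p w := by
  induction j generalizing w with
  | zero => rw [(mem_ball_zero.1 h).2]; exact h0
  | succ j ih =>
    have ih := fun {w} => ih (w := w) fun x y i hi => hs x y i (by omega)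
    obtain ⟨a, b | ⟨x, b, c⟩⟩ := mem_ball_succ.1 h
    · exact ih b
    · exact hs x w j (by omega) b (ih b) a c

theorem ball_of_sub (hl : D.length = A.length) (hs : ∀ u w, adj D u w = true → adj A u w = true)
    (h : w ∈ ball D v j) : w ∈ ball A v j := by
  induction j generalizing w with
  | zero => rw [mem_ball_zero] at *; rwa [← hl]
  | succ j ih =>
    obtain ⟨a, b | ⟨x, b, c⟩⟩ := mem_ball_succ.1 h
    · exact ball_mono (ih b) (by omega)
    · exact ball_arc (ih b) (hl ▸ a) (hs _ _ c)

theorem ball_one (G : Gr A) (h : adj A u w = true) : w ∈ ball A u 1 :=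
  ball_arc (ball_self (G.rng _ _ h).1) (G.rng _ _ h).2 h

theorem ball_symm (G : Gr A) (h : w ∈ ball A v j) : v ∈ ball A w j := by
  induction j generalizing w with
  | zero => obtain ⟨a, rfl⟩ := mem_ball_zero.1 h; exact h
  | succ j ih =>
    obtain ⟨a, b | ⟨x, b, c⟩⟩ := mem_ball_succ.1 h
    · exact ball_mono (ih b) (by omega)
    · rw [G.symm] at c
      rw [Nat.add_comm]
      exact ball_trans (ball_one G c) (ih b)

theorem length_le_of_sub {l l' : List ℕ} (h : l.Nodup) (s : ∀ x ∈ l, x ∈ l') :
    l.length ≤ l'.length := (List.subperm_of_subset h s).length_le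

theorem length_flatMap_le {β γ : Type} (l : List β) (g : β → List γ) (c : ℕ)
    (h : ∀ x ∈ l, (g x).length ≤ c) : (l.flatMap g).length ≤ l.length * c := by
  induction l with
  | nil => simp
  | cons a l ih =>
    have := h a (by simp)
    have := ih fun x hx => h x (by simp [hx])
    simp only [List.flatMap_cons, List.length_append, List.length_cons, Nat.succ_mul]; omega

theorem ball_card (G : Gr A) : (ball A v j).length ≤ 7 ^ j := by
  induction j with
  | zero =>
    exact length_le_of_sub (l' := [v]) ball_nodup fun x hx => by simp [(mem_ball_zero.1 hx).2]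
  | succ j ih =>
    have h := length_le_of_sub (l' := (ball A v j).flatMap fun u => u :: nb A u)
      (ball_nodup (D := A) (v := v) (j := j + 1)) fun x hx => by
        obtain ⟨a, b | ⟨y, b, c⟩⟩ := mem_ball_succ.1 hx
        · exact List.mem_flatMap.2 ⟨x, b, by simp⟩
        · exact List.mem_flatMap.2 ⟨y, b, by simp [mem_nb, a, c]⟩
    have h2 := length_flatMap_le (ball A v j) (fun u => u :: nb A u) 7 fun x _ => by
      have := G.deg x
      simp only [List.length_cons, nb]; omega
    rw [pow_succ]
    exact h.trans (h2.trans (Nat.mul_le_mul_right _ ih))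

theorem tch_iff : tch A L u = true ↔ ∃ b ∈ L, adj A u b = true := by simp [tch]

@[simp] theorem cor_length : (cor A L).length = A.length := mk_length

theorem adj_cor (G : Gr A) : adj (cor A L) u w = true ↔ adj A u w = true ∧ u ∉ L ∧ w ∉ L := by
  rw [cor, adj_mk]
  simp only [Bool.and_eq_true, decide_eq_true_eq, and_assoc]
  exact ⟨fun h => h.2.2, fun h => ⟨(G.rng _ _ h.1).1, (G.rng _ _ h.1).2, h⟩⟩

theorem Sep.mono {r r' : ℕ} (h : Sep A r L) (hr : r' ≤ r) : Sep A r' L :=
  fun b hb b' hb' e => h b hb b' hb' (ball_mono e hr)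

end

theorem adjMat_length {n : ℕ} (G : SimpleGraph (Fin n)) : (adjMat G).length = n := by
  simp [adjMat]

theorem adj_adjMat {n : ℕ} (G : SimpleGraph (Fin n)) (u v : Fin n) :
    G.Adj u v ↔ adj (adjMat G) u v = true := by simp [adj, adjMat]

section
variable {α : Type} [Enc α] {A D : α → Mat} {u v : α → ℕ} {L : α → List ℕ}

@[fun_prop] theorem pt_mk {f : α → ℕ → ℕ → Bool} (hu : PT u)
    (hf : PT fun p : (α × ℕ) × ℕ => f p.1.1 p.1.2 p.2) : PT fun x => mk (u x) (f x) :=
  PT.map (by fun_prop) (PT.map (f := fun (p : α × ℕ) w => f p.1 p.2 w) (by fun_prop) hf)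

@[fun_prop] theorem pt_nb (hD : PT D) (hu : PT u) : PT fun x => nb (D x) (u x) := by
  unfold nb; fun_prop

@[fun_prop] theorem pt_bstep (hD : PT D) (hL : PT L) : PT fun x => bstep (D x) (L x) := by
  unfold bstep; fun_prop

@[fun_prop] theorem pt_ball (hD : PT D) (hu : PT u) (hv : PT v) :
    PT fun x => ball (D x) (u x) (v x) := by
  have h : PT fun x => List.range (D x).length := by fun_prop
  exact PT.iterate (step := fun x => bstep (D x)) hv (by fun_prop) (by fun_prop) h.pb
    fun x i _ => sz_le_of_sublist ball_sublist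

@[fun_prop] theorem pt_tch (hA : PT A) (hL : PT L) (hu : PT u) :
    PT fun x => tch (A x) (L x) (u x) := by
  unfold tch; fun_prop

@[fun_prop] theorem pt_stop (hA : PT A) (hD : PT D) (hL : PT L) (hu : PT u) :
    PT fun x => stop (A x) (D x) (L x) (u x) := by
  unfold stop; fun_prop

@[fun_prop] theorem pt_cor (hA : PT A) (hL : PT L) : PT fun x => cor (A x) (L x) := by
  unfold cor; fun_prop

end

end Pool.Agent.Lib.MP_6b7ffe_lc.LS
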