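import Pool.Agent.Lib.MP_6b7ffe_lc.LS.Base

set_option autoImplicit false

namespace Pool.Agent.Lib.MP_6b7ffe_lc.LS

open Function Pool.Agent.Lib.Complexity

theorem brid_adj {n : ℕ} (G : SimpleGraph (Fin n)) (u w : ℕ) :
    adj (adjMat G) u w = true ↔ ∃ (hu : u < n) (hw : w < n), G.Adj ⟨u, hu⟩ ⟨w, hw⟩ := by
  by_cases hu : u < n
  · by_cases hw : w < n <;> simp [adj, adjMat, hu, hw]
  · simp [adj, adjMat, hu]

theorem brid_gr {n : ℕ} (G : SimpleGraph (Fin n)) (hd : DegLe G 6) : Gr (adjMat G) := by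
  refine ⟨fun u v => ?_, fun u => ?_, fun u v h => ?_, fun v => ?_⟩
  · rw [Bool.eq_iff_iff, brid_adj, brid_adj]
    exact ⟨fun ⟨a, b, c⟩ => ⟨b, a, c.symm⟩, fun ⟨a, b, c⟩ => ⟨b, a, c.symm⟩⟩
  · rw [Bool.eq_false_iff]
    intro h
    obtain ⟨a, b, c⟩ := (brid_adj G u u).1 h
    exact c.ne rfl
  · obtain ⟨a, b, -⟩ := (brid_adj G u v).1 h
    rw [adjMat_length]; exact ⟨a, b⟩
  · by_cases hv : v < n
    · rw [← List.toFinset_card_of_nodup (List.nodup_range.filter _), ← Set.ncard_coe_finset]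
      refine le_trans (Set.ncard_le_ncard (t := Fin.val '' G.neighborSet ⟨v, hv⟩) (fun u hu => ?_)
        (Set.toFinite _)) ((Set.ncard_image_le (Set.toFinite _)).trans (hd _))
      obtain ⟨a, b, c⟩ := (brid_adj G v u).1
        (List.mem_filter.1 (List.mem_toFinset.1 (Finset.mem_coe.1 hu))).2
      exact ⟨⟨u, b⟩, c, rfl⟩
    · rw [List.filter_eq_nil_iff.2 fun u _ h => hv ((brid_adj G v u).1 h).1]
      simp

theorem brid_card {n : ℕ} (G : SimpleGraph (Fin n)) (T : Finset ℕ) (D : Finset (ℕ × ℕ))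
    (h1 : ∀ p ∈ D, p.1 ∈ T ∧ p.2 ∈ T ∧ adj (adjMat G) p.1 p.2 = true)
    (h2 : ∀ p ∈ D, (p.2, p.1) ∉ D) :
    D.card ≤ {e | e ∈ G.edgeSet ∧ ∀ v ∈ e, v ∈ Finset.univ.filter fun x : Fin n => x.1 ∈ T}.ncard := by
  rw [← Set.ncard_coe_finset]
  refine le_trans (Set.ncard_le_ncard_of_injOn (t := Sym2.map Fin.val '' {e | e ∈ G.edgeSet ∧
    ∀ v ∈ e, v ∈ Finset.univ.filter fun x : Fin n => x.1 ∈ T}) (fun p => s(p.1, p.2))
    (fun p hp => ?_) (fun p hp p' hp' e => ?_) (Set.toFinite _))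
    (Set.ncard_image_le (Set.toFinite _))
  · obtain ⟨a, b, c⟩ := h1 p hp
    obtain ⟨x, y, z⟩ := (brid_adj G _ _).1 c
    refine ⟨s(⟨p.1, x⟩, ⟨p.2, y⟩), ⟨z, fun v hv => ?_⟩, rfl⟩
    rcases Sym2.mem_iff.1 hv with rfl | rfl <;> simpa
  · rcases Sym2.eq_iff.1 e with ⟨a, b⟩ | ⟨a, b⟩
    · exact Prod.ext a b
    · refine absurd ?_ (h2 p hp)
      rw [a, b]; exact hp'

theorem brid (a : ℝ) (ha : a < 2) : ∃ q : ℕ, 1 ≤ q ∧ ∀ (K n : ℕ) (G : SimpleGraph (Fin n)),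
    DegLe G 6 → LocSparse G a K → Gr (adjMat G) ∧ SP (adjMat G) q K := by
  obtain ⟨m, hm⟩ := exists_nat_one_div_lt (sub_pos.2 ha)
  refine ⟨m + 1, by omega, fun K n G hd hs => ⟨brid_gr G hd, fun T hT hK D h1 h2 => ?_⟩⟩
  rcases D.eq_empty_or_nonempty with rfl | ⟨p, hp⟩
  · simp
  obtain ⟨x, -, z⟩ := h1 p hp
  obtain ⟨y, -⟩ := (brid_adj G _ _).1 z
  have hne : (Finset.univ.filter fun x : Fin n => x.1 ∈ T).Nonempty := ⟨⟨p.1, y⟩, by simpa⟩
  have hc : (Finset.univ.filter fun x : Fin n => x.1 ∈ T).card ≤ T.card :=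
    Finset.card_le_card_of_injOn Fin.val (fun u hu => by simpa using hu) Fin.val_injective.injOn
  have h3 := hs _ hne (hc.trans hK)
  have h4 := (Nat.cast_le (α := ℝ)).2 (brid_card G T D h1 h2)
  have h5 := (Nat.cast_le (α := ℝ)).2 hc
  have h6 := (Nat.one_le_cast (α := ℝ)).2 hne.card_pos
  obtain ⟨t, ht⟩ : ∃ t, T.card = t + 1 := ⟨T.card - 1, by have := hT.card_pos; omega⟩
  rw [ht] at h5 ⊢
  rw [show 2 * (m + 1) - 1 = 2 * m + 1 by omega, Nat.add_sub_cancel, ← Nat.cast_le (α := ℝ)]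
  push_cast at h5 ⊢
  have hm0 : (0 : ℝ) < m + 1 := by positivity
  rw [div_lt_iff₀ hm0] at hm
  have h7 := mul_le_mul_of_nonneg_left (h4.trans h3) hm0.le
  have h8 := mul_le_mul_of_nonneg_right hm.le (sub_nonneg.2 h6)
  have h9 := mul_le_mul_of_nonneg_left h5 (show (0 : ℝ) ≤ 2 * m + 1 by positivity)
  linarith

theorem poly_of {f : Mat → Out} (h : PT f) : N68a2faeb.IsPolyTime f :=
  isPolyTime_of_rep h fun a => by
    have e1 : (Rep.up a : Mat) = a := by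
      rw [up_list]; exact (List.map_congr_left fun l _ => up_str l).trans (List.map_id' _)
    have e2 : ∀ l : List (ℤ × ℤ × ℤ), (Rep.down l : List (ℤ × ℤ × ℤ)) = l := fun l => by
      rw [down_list]; exact (List.map_congr_left fun l _ => rfl).trans (List.map_id' _)
    rw [e1, down_prod, e2, down_list]
    exact Prod.ext rfl ((List.map_congr_left fun l _ => e2 l).trans (List.map_id' _))

end Pool.Agent.Lib.MP_6b7ffe_lc.LS
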