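import Pool.Agent.Lib.MP_6b7ffe_lc.LS.Geo1

set_option autoImplicit false

namespace Pool.Agent.Lib.MP_6b7ffe_lc.LS

open Set

theorem f3_cases (I j : Fin 3) : j = I ∨ j = I + 1 ∨ j = I + 2 := by revert I j; decide
theorem f3_1 (I : Fin 3) : I + 1 ≠ I := by revert I; decide
theorem f3_2 (I : Fin 3) : I + 2 ≠ I := by revert I; decide
theorem f3_3 (I : Fin 3) : I + 2 ≠ I + 1 := by revert I; decide

theorem mk3_0 (I : Fin 3) (a s t : ℝ) : mk3 I a s t I = a := by simp [mk3]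
theorem mk3_1 (I : Fin 3) (a s t : ℝ) : mk3 I a s t (I + 1) = s := by
  simp only [mk3, if_neg (f3_1 I), if_true]
theorem mk3_2 (I : Fin 3) (a s t : ℝ) : mk3 I a s t (I + 2) = t := by
  simp only [mk3, if_neg (f3_2 I), if_neg (f3_3 I)]

theorem ext3 (I : Fin 3) {x y : Fin 3 → ℝ} (h0 : x I = y I) (h1 : x (I + 1) = y (I + 1))
    (h2 : x (I + 2) = y (I + 2)) : x = y :=
  funext fun j => by rcases f3_cases I j with rfl | rfl | rfl <;> assumption

theorem chain_symm {V : Type} (P : V → Fin 3 → ℝ) (B : V → V → Fin 3 → ℝ) (u v : V) :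
    chain P B u v = chain P B v u := by
  unfold chain
  rw [segment_symm ℝ (P u), segment_symm ℝ (B u v) (B v u), segment_symm ℝ (B v u) (P v)]
  ext x
  simp only [mem_union]
  tauto

theorem k4 (k : Fin 4) : k = 0 ∨ k = 1 ∨ k = 2 ∨ k = 3 := by revert k; decide

variable {V : Type} {G G' : SimpleGraph V} {N : ℝ} {S : V → Prop} {X : V → Fin 3 → ℝ}
  {c : V → V → Fin 3} {ax : V → Fin 3} {sg h yb zb : V → ℝ} {k : V → V → Fin 4}
  {P : V → Fin 3 → ℝ} {B : V → V → Fin 3 → ℝ}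

/-- the pieces of an edge at a sink, in coordinates -/
def Pie (k : Fin 4) (h σ p y z Y Z a s t : ℝ) : Prop :=
  (s = y ∧ t = z ∧ a ∈ uIcc p (lvl k h σ)) ∨
  (k = 0 ∧ s = Y ∧ ((a = h + σ ∧ t ∈ uIcc z Z) ∨ (a ∈ uIcc (h + σ) h ∧ t = Z))) ∨
  (k = 1 ∧ t = Z ∧ ((a = h - σ ∧ s ∈ uIcc y Y) ∨ (a ∈ uIcc (h - σ) h ∧ s = Y))) ∨
  (k = 2 ∧ a = h ∧ ((s = y ∧ t ∈ uIcc z Z) ∨ (s ∈ uIcc y Y ∧ t = Z))) ∨
  (k = 3 ∧ a = h ∧ ((t = z ∧ s ∈ uIcc y Y) ∨ (t ∈ uIcc z Z ∧ s = Y)))

theorem SK.ncore (H : SK G G' N S X c ax sg h yb zb k P B) {b u : V} (hb : S b) (a : G.Adj u b) :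
    ¬ S u := fun hu => H.nadj u b hu hb a

theorem SK.pieces (H : SK G G' N S X c ax sg h yb zb k P B) {b u : V} (hb : S b) (a : G.Adj u b)
    {x : Fin 3 → ℝ} (hx : x ∈ chain P B u b) :
    Pie (k b u) (h b) (sg b) (X u (ax b)) (X u (ax b + 1)) (X u (ax b + 2)) (yb b) (zb b)
      (x (ax b)) (x (ax b + 1)) (x (ax b + 2)) := by
  have kU := H.kU b u hb a
  have kZ := H.kZ b u hb a
  unfold chain at hx
  rw [H.Pc u (H.ncore hb a), H.Ps b hb, H.Bu b u hb a, H.Bb b u hb a] at hx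
  unfold Pie
  rcases hx with (hx | hx) | hx <;>
    have h0 := seg_coord hx (ax b) <;> have h1 := seg_coord hx (ax b + 1) <;>
    have h2 := seg_coord hx (ax b + 2) <;>
    simp only [mk3_0, mk3_1, mk3_2, uIcc_self, mem_singleton_iff] at h0 h1 h2
  · exact .inl ⟨h1, h2, h0⟩
  · rcases k4 (k b u) with e | e | e | e <;> simp only [e, lvl] at h0 h1 h2 ⊢
    · rw [(kU e).1] at h1
      exact .inr (.inl ⟨trivial, by simpa using h1, .inl ⟨by simpa using h0, by simpa using h2⟩⟩)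
    · rw [(kZ e).2] at h2
      exact .inr (.inr (.inl
        ⟨trivial, by simpa using h2, .inl ⟨by simpa using h0, by simpa using h1⟩⟩))
    · exact .inr (.inr (.inr (.inl
        ⟨trivial, by simpa using h0, .inl ⟨by simpa using h1, by simpa using h2⟩⟩)))
    · exact .inr (.inr (.inr (.inr
        ⟨trivial, by simpa using h0, .inl ⟨by simpa using h2, by simpa using h1⟩⟩)))
  · rcases k4 (k b u) with e | e | e | e <;> simp only [e, lvl] at h0 h1 h2 ⊢
    · exact .inr (.inl ⟨trivial, by simpa using h1, .inr ⟨by simpa using h0, by simpa using h2⟩⟩)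
    · exact .inr (.inr (.inl
        ⟨trivial, by simpa using h2, .inr ⟨by simpa using h0, by simpa using h1⟩⟩))
    · exact .inr (.inr (.inr (.inl
        ⟨trivial, by simpa using h0, .inr ⟨by simpa using h1, by simpa using h2⟩⟩)))
    · exact .inr (.inr (.inr (.inr
        ⟨trivial, by simpa using h0, .inr ⟨by simpa using h2, by simpa using h1⟩⟩)))

theorem lvl_near (k : Fin 4) (h : ℝ) {σ : ℝ} (hσ : σ = 1 ∨ σ = -1) :
    h - 1 ≤ lvl k h σ ∧ lvl k h σ ≤ h + 1 := by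
  unfold lvl
  rcases hσ with rfl | rfl <;> split_ifs <;> constructor <;> linarith

/-- a point is on the ray, or near the level and tied to the sink -/
theorem Pie.weak {k : Fin 4} {h σ p y z Y Z a s t N : ℝ} (H : Pie k h σ p y z Y Z a s t)
    (hσ : σ = 1 ∨ σ = -1) (hy : 0 ≤ y ∧ y ≤ N) (hz : 0 ≤ z ∧ z ≤ N)
    (hY : 0 ≤ Y ∧ Y ≤ N ∧ 0 ≤ Z ∧ Z ≤ N) :
    (0 ≤ s ∧ s ≤ N ∧ 0 ≤ t ∧ t ≤ N) ∧ ((s = y ∧ t = z ∧ a ∈ uIcc p (lvl k h σ)) ∨
      ((h - 1 ≤ a ∧ a ≤ h + 1) ∧ (s = y ∨ s = Y ∨ t = z ∨ t = Z))) := by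
  unfold Pie at H
  simp only [mem_uIcc] at H ⊢
  rcases hσ with rfl | rfl <;> rcases H with H | H | H | H | H <;> grind

theorem SK.sgn (H : SK G G' N S X c ax sg h yb zb k P B) {b : V} (hb : S b) :
    sg b = 1 ∨ sg b = -1 := (H.lev b hb).imp And.left And.left

theorem SK.weak (H : SK G G' N S X c ax sg h yb zb k P B) {b u : V} (hb : S b) (a : G.Adj u b)
    {x : Fin 3 → ℝ} (hx : x ∈ chain P B u b) :
    (∀ j, j ≠ ax b → 0 ≤ x j ∧ x j ≤ N) ∧
    (((∀ j, j ≠ ax b → x j = X u j) ∧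
        x (ax b) ∈ uIcc (X u (ax b)) (lvl (k b u) (h b) (sg b))) ∨
      ((h b - 1 ≤ x (ax b) ∧ x (ax b) ≤ h b + 1) ∧
        ∀ w, (∀ j, j ≠ ax b → x j = X w j) → G.Adj w b)) := by
  obtain ⟨h1, h2⟩ := (H.pieces hb a hx).weak (H.sgn hb) (H.box _ _) (H.box _ _) (H.ybox b hb)
  refine ⟨fun j hj => ?_, h2.imp (fun h2 => ⟨fun j hj => ?_, h2.2.2⟩)
    fun h2 => ⟨h2.1, fun w hw => ?_⟩⟩
  · rcases f3_cases (ax b) j with rfl | rfl | rfl
    exacts [absurd rfl hj, ⟨h1.1, h1.2.1⟩, h1.2.2]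
  · rcases f3_cases (ax b) j with rfl | rfl | rfl
    exacts [absurd rfl hj, h2.1, h2.2.1]
  · have a1 := hw _ (f3_1 _)
    have a2 := hw _ (f3_2 _)
    rcases h2.2 with e | e | e | e
    · rwa [H.gp.crd w u _ (a1.symm.trans e)]
    · exact H.yown b w hb (a1.symm.trans e)
    · rwa [H.gp.crd w u _ (a2.symm.trans e)]
    · exact H.zown b w hb (a2.symm.trans e)

/-- a point of a sink edge inside the box is on the ray -/
theorem SK.onray (H : SK G G' N S X c ax sg h yb zb k P B) {b u : V} (hb : S b) (a : G.Adj u b)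
    {x : Fin 3 → ℝ} (hx : x ∈ chain P B u b) (h0 : 0 ≤ x (ax b) ∧ x (ax b) ≤ N) :
    (∀ j, j ≠ ax b → x j = X u j) ∧ 0 ≤ sg b * (x (ax b) - X u (ax b)) := by
  have l := H.lev b hb
  have l2 := lvl_near (k b u) (h b) (H.sgn hb)
  have l3 := H.box u (ax b)
  rcases (H.weak hb a hx).2 with e | e
  · refine ⟨e.1, ?_⟩
    have := mem_uIcc.1 e.2
    rcases l with l | l <;> rw [l.1] <;> grind
  · grind

theorem SK.chain_core (H : SK G G' N S X c ax sg h yb zb k P B) {u v : V} (a : G'.Adj u v) :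
    chain P B u v = chain X (bend X c) u v := by
  obtain ⟨-, h1, h2⟩ := (H.cor u v).1 a
  unfold chain
  rw [H.Pc u h1, H.Pc v h2, H.Bc u v a, H.Bc v u a.symm]

theorem SK.core_box (H : SK G G' N S X c ax sg h yb zb k P B) {u v : V} (a : G'.Adj u v)
    {x : Fin 3 → ℝ} (hx : x ∈ chain P B u v) (j : Fin 3) : 0 ≤ x j ∧ x j ≤ N := by
  rw [H.chain_core a] at hx
  have b1 := H.box u j
  have b2 := H.box v j
  have b3 : ∀ u v, 0 ≤ bend X c u v j ∧ bend X c u v j ≤ N := fun u v => by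
    unfold bend
    by_cases e : j = c u v
    · subst e; rw [Function.update_self]; exact H.box _ _
    · rw [Function.update_of_ne e]; exact H.box _ _
  have b4 := b3 u v
  have b5 := b3 v u
  rcases hx with (hx | hx) | hx <;> have := mem_uIcc.1 (seg_coord hx j) <;> grind

theorem SK.sink_out (H : SK G G' N S X c ax sg h yb zb k P B) {b : V} (hb : S b) :
    ¬ (0 ≤ P b (ax b) ∧ P b (ax b) ≤ N) := by
  rw [H.Ps b hb, mk3_0]
  have := H.lev b hb
  have := H.box b 0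
  grind

theorem SK.split (H : SK G G' N S X c ax sg h yb zb k P B) {u v : V} (a : G.Adj u v) :
    G'.Adj u v ∨ S v ∨ S u := by
  by_cases h1 : S u
  · exact .inr (.inr h1)
  by_cases h2 : S v
  · exact .inr (.inl h2)
  exact .inl ((H.cor u v).2 ⟨a, h1, h2⟩)

theorem SK.inj (H : SK G G' N S X c ax sg h yb zb k P B) : Function.Injective P := by
  intro u v e
  by_cases hu : S u <;> by_cases hv : S v
  · by_contra hne
    by_cases ea : ax u = ax v
    · have := congrFun e (ax u)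
      rw [H.Ps u hu, H.Ps v hv, mk3_0, ea, mk3_0] at this
      have := H.far u v hu hv hne
      grind
    · refine H.sink_out hu ?_
      have := H.ybox v hv
      rw [e, H.Ps v hv]
      rcases f3_cases (ax v) (ax u) with q | q | q
      · exact absurd q ea
      · rw [q, mk3_1]; exact ⟨this.1, this.2.1⟩
      · rw [q, mk3_2]; exact this.2.2
  · exact (H.sink_out hu (by rw [e, H.Pc v hv]; exact H.box _ _)).elim
  · exact (H.sink_out hv (by rw [← e, H.Pc u hu]; exact H.box _ _)).elim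
  · rw [H.Pc u hu, H.Pc v hv] at e
    exact H.gp.crd u v 0 (congrFun e 0)

theorem SK.vert (H : SK G G' N S X c ax sg h yb zb k P B) {b u w : V} (hb : S b) (a : G.Adj u b)
    (hx : P w ∈ chain P B u b) : w = u ∨ w = b := by
  by_cases hw : S w
  · right
    by_contra hne
    by_cases ea : ax w = ax b
    · have f := H.far w b hw hb hne
      rcases (H.weak hb a hx).2 with e | e
      · have := e.1 _ (f3_1 _)
        rw [H.Ps w hw, ← ea, mk3_1] at this
        exact hne (H.uniq u w b hw hb (H.yown w u hw this.symm) a)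
      · have := e.1
        rw [H.Ps w hw, ← ea, mk3_0] at this
        grind
    · exact H.sink_out hw ((H.weak hb a hx).1 _ ea)
  · left
    have := (H.onray hb a hx (by rw [H.Pc w hw]; exact H.box _ _)).1 _ (f3_1 _)
    rw [H.Pc w hw] at this
    exact H.gp.crd _ _ _ this

theorem SK.cs (H : SK G G' N S X c ax sg h yb zb k P B) {b u v w : V} (hb : S b) (a : G.Adj u b)
    (a' : G'.Adj v w) {x : Fin 3 → ℝ} (hx : x ∈ chain P B u b) (hx' : x ∈ chain P B v w) :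
    (u = v ∨ u = w) ∧ x = P u := by
  obtain ⟨r1, r2⟩ := H.onray hb a hx (H.core_box a' hx' _)
  have s := H.sgn hb
  rw [H.chain_core a'] at hx'
  rw [H.Pc u (H.ncore hb a)]
  have key : ∀ v w, G'.Adj v w → EndS X c v w x → u = v ∧ x = X u := fun v w a' e => by
    obtain ⟨j, j1, j2⟩ := fin3_third' (ax b) (c v w)
    obtain rfl : u = v := H.gp.crd _ _ _ ((r1 j j1).symm.trans (e.1 j j2))
    refine ⟨rfl, funext fun i => ?_⟩
    by_cases i1 : i = ax b
    · subst i1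
      by_cases i2 : ax b = c u w
      · have := H.ray b u w hb a a' i2.symm
        have e2 := e.2
        rw [← i2, mem_uIcc] at e2
        rcases s with s | s <;> rw [s] at this r2 <;> grind
      · exact e.1 _ i2
    · exact r1 i i1
  have key2 : ∀ v w, G'.Adj v w → MidS X c v w x → c v w = ax b → False := fun v w a' e q => by
    have q' : c w v ≠ ax b := fun q' => H.gp.ne v w a' (q.trans q'.symm)
    obtain rfl : u = v := H.gp.crd _ _ _ ((r1 _ q').symm.trans e.2.1)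
    have := H.ray b u w hb a a' q
    have e1 := e.1
    rw [q] at e1
    rw [e1] at r2
    linarith
  rcases chain_cases (H.gp.ne v w a') hx' with e | e | e
  · exact (key v w a' e).imp_left .inl
  · exfalso
    by_cases q : c v w = ax b
    · exact key2 v w a' e q
    by_cases q' : c w v = ax b
    · exact key2 w v a'.symm e.symm q'
    exact a'.ne ((H.gp.crd _ _ _ ((r1 _ q').symm.trans e.2.1)).symm.trans
      (H.gp.crd _ _ _ ((r1 _ q).symm.trans e.1)))
  · exact (key w v a'.symm e).imp_left .inr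

theorem SK.ss (H : SK G G' N S X c ax sg h yb zb k P B) {b b' u u' : V} (hb : S b) (hb' : S b')
    (hne : b ≠ b') (a : G.Adj u b) (a' : G.Adj u' b') {x : Fin 3 → ℝ} (hx : x ∈ chain P B u b)
    (hx' : x ∈ chain P B u' b') : False := by
  obtain ⟨w1, w2⟩ := H.weak hb a hx
  obtain ⟨w3, w4⟩ := H.weak hb' a' hx'
  by_cases ea : ax b = ax b'
  · have f := H.far b b' hb hb' hne
    rcases w2 with e | e <;> rcases w4 with e' | e'
    · obtain rfl : u = u' :=
        H.gp.crd _ _ _ ((e.1 _ (f3_1 _)).symm.trans (e'.1 _ (ea ▸ f3_1 _)))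
      exact hne (H.uniq u b b' hb hb' a a')
    · exact hne (H.uniq u b b' hb hb' a (e'.2 u (ea ▸ e.1)))
    · exact hne (H.uniq u' b b' hb hb' (e.2 u' (ea ▸ e'.1)) a')
    · have := e.1
      have := e'.1
      rw [ea] at *
      grind
  · obtain ⟨j, j1, j2⟩ := fin3_third' (ax b) (ax b')
    obtain rfl : u = u' := H.gp.crd _ _ _
      (((H.onray hb a hx (w3 _ ea)).1 j j1).symm.trans
        ((H.onray hb' a' hx' (w1 _ (Ne.symm ea))).1 j j2))
    exact hne (H.uniq u b b' hb hb' a a')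

theorem Pie.same {k k' : Fin 4} {h σ p y z p' y' z' Y Z a s t N : ℝ}
    (H : Pie k h σ p y z Y Z a s t) (H' : Pie k' h σ p' y' z' Y Z a s t)
    (n1 : y ≠ y') (n2 : z ≠ z') (l : (σ = 1 ∧ N + 2 ≤ h) ∨ (σ = -1 ∧ h ≤ -2))
    (b1 : 0 ≤ p ∧ p ≤ N) (b2 : 0 ≤ p' ∧ p' ≤ N)
    (q1 : k = 0 → y = Y ∧ z ≠ Z) (q2 : k' = 0 → y' = Y ∧ z' ≠ Z)
    (q3 : k = 1 → y ≠ Y ∧ z = Z) (q4 : k' = 1 → y' ≠ Y ∧ z' = Z)
    (q5 : k = 2 ∨ k = 3 → y ≠ Y ∧ z ≠ Z) (q6 : k' = 2 ∨ k' = 3 → y' ≠ Y ∧ z' ≠ Z)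
    (q7 : k = 2 → k' = 2 → (y < Y ∧ Y < y') ∨ (y' < Y ∧ Y < y))
    (q8 : k = 3 → k' = 3 → (z < Z ∧ Z < z') ∨ (z' < Z ∧ Z < z))
    (q9 : k = 0 → k' = 3 → z ∉ uIcc z' Z) (q10 : k' = 0 → k = 3 → z' ∉ uIcc z Z)
    (q11 : k = 2 → k' = 3 → ¬(y ∈ uIcc y' Y ∧ z' ∈ uIcc z Z))
    (q12 : k' = 2 → k = 3 → ¬(y' ∈ uIcc y Y ∧ z ∈ uIcc z' Z)) : a = h ∧ s = Y ∧ t = Z := by
  unfold Pie lvl at H H'
  simp only [mem_uIcc] at H H' q9 q10 q11 q12
  rcases k4 k with rfl | rfl | rfl | rfl <;> rcases k4 k' with rfl | rfl | rfl | rfl <;>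
    simp only [Fin.reduceEq, true_and, false_and, or_false, false_or, if_true, if_false,
      forall_true_left, false_imp_iff, or_self]
      at H H' q1 q2 q3 q4 q5 q6 q7 q8 q9 q10 q11 q12 <;>
    rcases l with ⟨rfl, l⟩ | ⟨rfl, l⟩ <;> rcases H with H | H <;> rcases H' with H' | H' <;> grind

theorem SK.same (H : SK G G' N S X c ax sg h yb zb k P B) {b u u' : V} (hb : S b)
    (hne : u ≠ u') (a : G.Adj u b) (a' : G.Adj u' b) {x : Fin 3 → ℝ} (hx : x ∈ chain P B u b)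
    (hx' : x ∈ chain P B u' b) : x = P b := by
  have := (H.pieces hb a hx).same (H.pieces hb a' hx') (fun e => hne (H.gp.crd _ _ _ e))
    (fun e => hne (H.gp.crd _ _ _ e)) (H.lev b hb) (H.box _ _) (H.box _ _) (H.kU b u hb a)
    (H.kU b u' hb a') (H.kZ b u hb a) (H.kZ b u' hb a') (H.kH b u hb a) (H.kH b u' hb a')
    (H.kYY b u u' hb a a' hne) (H.kWW b u u' hb a a' hne) (H.kUW b u u' hb a a')
    (H.kUW b u' u hb a' a) (H.kYW b u u' hb a a') (H.kYW b u' u hb a' a)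
  rw [H.Ps b hb]
  exact ext3 (ax b) (by rw [mk3_0, this.1]) (by rw [mk3_1, this.2.1]) (by rw [mk3_2, this.2.2])

theorem SK.shape (H : SK G G' N S X c ax sg h yb zb k P B) {b u : V} (hb : S b) (a : G.Adj u b) :
    B u b ≠ B b u ∧ ∃ j l : Fin 3, ax b ≠ j ∧ j ≠ l ∧
      Along (ax b) (P u) (B u b) ∧ Along j (B u b) (B b u) ∧ Along l (B b u) (P b) := by
  have q1 := H.kU b u hb a
  have q3 := H.kZ b u hb a
  have q5 := H.kH b u hb a
  rw [H.Pc u (H.ncore hb a), H.Ps b hb, H.Bu b u hb a, H.Bb b u hb a]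
  have al : ∀ (i : Fin 3) (p q : Fin 3 → ℝ), (ax b ≠ i → p (ax b) = q (ax b)) →
      (ax b + 1 ≠ i → p (ax b + 1) = q (ax b + 1)) →
      (ax b + 2 ≠ i → p (ax b + 2) = q (ax b + 2)) → Along i p q := fun i p q h0 h1 h2 j hj => by
    rcases f3_cases (ax b) j with rfl | rfl | rfl
    exacts [h0 hj, h1 hj, h2 hj]
  have f1 := f3_1 (ax b)
  have f2 := f3_2 (ax b)
  have f3 := f3_3 (ax b)
  refine ⟨fun e => ?_, ?_⟩
  · have e1 := congrFun e (ax b + 1)
    have e2 := congrFun e (ax b + 2)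
    rw [mk3_1, mk3_1] at e1
    rw [mk3_2, mk3_2] at e2
    rcases k4 (k b u) with q | q | q | q
    · exact (q1 q).2 (by simpa [q] using e2)
    · exact (q3 q).1 (by simpa [q] using e1)
    · exact (q5 (.inl q)).2 (by simpa [q] using e2)
    · exact (q5 (.inr q)).1 (by simpa [q] using e1)
  · rcases k4 (k b u) with e | e | e | e
    · refine ⟨ax b + 2, ax b, f2.symm, f2, al _ _ _ ?_ ?_ ?_, al _ _ _ ?_ ?_ ?_,
        al _ _ _ ?_ ?_ ?_⟩ <;> simp [mk3_0, mk3_1, mk3_2, e, lvl, (q1 e).1]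
    · refine ⟨ax b + 1, ax b, f1.symm, f1, al _ _ _ ?_ ?_ ?_, al _ _ _ ?_ ?_ ?_,
        al _ _ _ ?_ ?_ ?_⟩ <;> simp [mk3_0, mk3_1, mk3_2, e, lvl, (q3 e).2]
    · refine ⟨ax b + 2, ax b + 1, f2.symm, f3, al _ _ _ ?_ ?_ ?_, al _ _ _ ?_ ?_ ?_,
        al _ _ _ ?_ ?_ ?_⟩ <;> simp [mk3_0, mk3_1, mk3_2, e, lvl]
    · refine ⟨ax b + 1, ax b + 2, f1.symm, f3.symm, al _ _ _ ?_ ?_ ?_, al _ _ _ ?_ ?_ ?_,
        al _ _ _ ?_ ?_ ?_⟩ <;> simp [mk3_0, mk3_1, mk3_2, e, lvl]

theorem SK.draw {V : Type} {G G' : SimpleGraph V} {N : ℝ} {S : V → Prop} {X : V → Fin 3 → ℝ}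
    {c : V → V → Fin 3} {ax : V → Fin 3} {sg h yb zb : V → ℝ} {k : V → V → Fin 4}
    {P : V → Fin 3 → ℝ} {B : V → V → Fin 3 → ℝ}
    (H : SK G G' N S X c ax sg h yb zb k P B) : IsDrawing2 G P B := by
  obtain ⟨-, d2, d3, d4⟩ := H.gp.isDrawing
  have sym : ∀ {i p q}, Along i p q → Along i q p := fun a j hj => (a j hj).symm
  refine ⟨H.inj, fun u v a => ?_, fun u v w a hw => ?_, ?_⟩
  · rcases H.split a with e | e | e
    · obtain ⟨-, h1, h2⟩ := (H.cor u v).1 e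
      obtain ⟨i, j, l, n1, -, n3, r⟩ := d2 u v e
      rw [H.Pc u h1, H.Pc v h2, H.Bc u v e, H.Bc v u e.symm]
      refine ⟨fun q => ?_, i, j, l, n1, n3, r⟩
      obtain ⟨m, m1, m2⟩ := fin3_third' (c u v) (c v u)
      have := congrFun q m
      simp only [bend, Function.update_of_ne m1, Function.update_of_ne m2] at this
      exact a.ne (H.gp.crd _ _ _ this)
    · obtain ⟨q, j, l, r⟩ := H.shape e a
      exact ⟨q, _, j, l, r⟩
    · obtain ⟨q, j, l, r1, r2, r3, r4, r5⟩ := H.shape e a.symm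
      exact ⟨q.symm, l, j, _, r2.symm, r1.symm, sym r5, sym r4, sym r3⟩
  · rcases H.split a with e | e | e
    · by_cases s : S w
      · exact (H.sink_out s (H.core_box e hw _)).elim
      · rw [H.chain_core e, H.Pc w s] at hw
        exact d3 u v w e hw
    · exact H.vert e a hw
    · rw [chain_symm] at hw
      exact (H.vert e a.symm hw).symm
  · have key : ∀ u b u' v', S b → G.Adj u b → G.Adj u' v' → s(u, b) ≠ s(u', v') →
        ∀ x, x ∈ chain P B u b → x ∈ chain P B u' v' →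
          ∃ w, (w = u ∨ w = b) ∧ (w = u' ∨ w = v') ∧ x = P w := by
      intro u b u' v' hb a a' hne x hx hx'
      rcases H.split a' with e | e | e
      · exact ⟨u, .inl rfl, H.cs hb a e hx hx'⟩
      · by_cases q : b = v'
        · subst q
          exact ⟨b, .inr rfl, .inr rfl, H.same hb (fun q => hne (by rw [q])) a a' hx hx'⟩
        · exact (H.ss hb e q a a' hx hx').elim
      · rw [chain_symm] at hx'
        by_cases q : b = u'
        · subst q
          exact ⟨b, .inr rfl, .inl rfl,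
            H.same hb (fun q => hne (by rw [q, Sym2.eq_swap])) a a'.symm hx hx'⟩
        · exact (H.ss hb e q a a'.symm hx hx').elim
    have key2 : ∀ u v u' v', S v ∨ S u → G.Adj u v → G.Adj u' v' → s(u, v) ≠ s(u', v') →
        ∀ x, x ∈ chain P B u v → x ∈ chain P B u' v' →
          ∃ w, (w = u ∨ w = v) ∧ (w = u' ∨ w = v') ∧ x = P w := by
      intro u v u' v' hb a a' hne x hx hx'
      rcases hb with hb | hb
      · exact key u v u' v' hb a a' hne x hx hx'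
      · rw [chain_symm] at hx
        obtain ⟨w, w1, w2⟩ := key v u u' v' hb a.symm a' (by rwa [Sym2.eq_swap]) x hx hx'
        exact ⟨w, w1.symm, w2⟩
    intro u v u' v' a a' hne x hx
    rcases H.split a with e | e
    · rcases H.split a' with e' | e'
      · rw [H.chain_core e, H.chain_core e'] at hx
        obtain ⟨w, w1, w2, w3⟩ := d4 u v u' v' e e' hne x hx
        obtain ⟨-, h1, h2⟩ := (H.cor u v).1 e
        refine ⟨w, w1, w2, ?_⟩
        rw [w3, H.Pc w (by rcases w1 with rfl | rfl <;> assumption)]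
      · obtain ⟨w, w1, w2, w3⟩ := key2 u' v' u v e' a' a hne.symm x hx.2 hx.1
        exact ⟨w, w2, w1, w3⟩
    · exact key2 u v u' v' e a a' hne x hx.1 hx.2

end Pool.Agent.Lib.MP_6b7ffe_lc.LS
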