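import Pool.Agent.Lib.MP_6b7ffe_lc.LS.Base

/-! The drawing with sinks as a list program. -/

set_option autoImplicit false

namespace Pool.Agent.Lib.MP_6b7ffe_lc.LS

open Function Pool.Agent.Lib.Complexity

/-- roles U, Z, +J, -J, +K, -K -/
abbrev Rl := ℕ × ℕ × ℕ × ℕ × ℕ × ℕ

def gTy (T : Typ) (b : ℕ) : Fin 3 × Bool :=
  ((T.find? fun t => decide (t.1 = b)).map fun t => t.2).getD (0, false)

/-- coordinates, extended to phantom points -/
def gExt (n : ℕ) (X : List (List ℕ)) (i : Fin 3) (x : ℕ) : ℕ := if x < n then crdX X i x else x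

def gSix (A : Mat) (b : ℕ) : List ℕ := (nb A b ++ List.range' A.length 6).take 6

def gPr {β γ : Type} (l : List β) (l' : List γ) : List (β × γ) :=
  l.flatMap fun a => l'.map fun b => (a, b)

def gTup (l : List ℕ) : List Rl := gPr l (gPr l (gPr l (gPr l (gPr l l))))

def gNo (n : ℕ) (X : List (List ℕ)) (J K : Fin 3) (U Z h g : ℕ) : Bool :=
  !(btw (gExt n X J g) (gExt n X J h) (gExt n X J U) &&
    btw (gExt n X K h) (gExt n X K g) (gExt n X K Z))

def gOk (n : ℕ) (X : List (List ℕ)) (J K : Fin 3) (l : List ℕ) (r : Rl) : Bool :=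
  (l.all fun x => decide (x ∈ [r.1, r.2.1, r.2.2.1, r.2.2.2.1, r.2.2.2.2.1, r.2.2.2.2.2])) &&
  decide (gExt n X J r.1 < gExt n X J r.2.2.1) &&
  decide (gExt n X J r.2.2.2.1 < gExt n X J r.1) &&
  decide (gExt n X K r.2.1 < gExt n X K r.2.2.2.2.1) &&
  decide (gExt n X K r.2.2.2.2.2 < gExt n X K r.2.1) &&
  decide (gExt n X K r.1 < gExt n X K r.2.2.2.2.2 ∨ gExt n X K r.2.2.2.2.1 < gExt n X K r.1) &&
  [r.2.2.1, r.2.2.2.1].all fun h =>
    [r.2.2.2.2.1, r.2.2.2.2.2].all fun g => gNo n X J K r.1 r.2.1 h g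

def gRol (A : Mat) (T : Typ) (X : List (List ℕ)) (b : ℕ) : Rl :=
  ((gTup (gSix A b)).find? (gOk A.length X ((gTy T b).1 + 1) ((gTy T b).1 + 2) (gSix A b))).getD
    (0, 0, 0, 0, 0, 0)

def gKnd (r : Rl) (u : ℕ) : Fin 4 :=
  if u = r.1 then 0 else if u = r.2.1 then 1 else if u = r.2.2.1 ∨ u = r.2.2.2.1 then 2 else 3

def gMk (I : Fin 3) (a s t : ℤ) : ℤ × ℤ × ℤ :=
  (if I = 0 then a else if I = 2 then s else t, if I = 1 then a else if I = 0 then s else t,
    if I = 2 then a else if I = 1 then s else t)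

def gSg (s : Bool) : ℤ := if s = true then 1 else -1

def gH (n b : ℕ) (s : Bool) : ℤ :=
  if s = true then ((n + 10 + 3 * b : ℕ) : ℤ) else -((10 + 3 * b : ℕ) : ℤ)

def gLv (k : Fin 4) (h σ : ℤ) : ℤ := if k = 0 then h + σ else if k = 1 then h - σ else h

def gY (A : Mat) (T : Typ) (X : List (List ℕ)) (b : ℕ) : ℕ :=
  gExt A.length X ((gTy T b).1 + 1) (gRol A T X b).1

def gZ (A : Mat) (T : Typ) (X : List (List ℕ)) (b : ℕ) : ℕ :=
  gExt A.length X ((gTy T b).1 + 2) (gRol A T X b).2.1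

def gL (A : Mat) (T : Typ) (X : List (List ℕ)) (b u : ℕ) : ℤ :=
  gLv (gKnd (gRol A T X b) u) (gH A.length b (gTy T b).2) (gSg (gTy T b).2)

def gPos (A : Mat) (T : Typ) (X : List (List ℕ)) (v : ℕ) : ℤ × ℤ × ℤ :=
  if v ∈ T.map Prod.fst then
    gMk (gTy T v).1 (gH A.length v (gTy T v).2) (gY A T X v : ℕ) (gZ A T X v : ℕ)
  else posX X v

def gBnd (A : Mat) (T : Typ) (X : List (List ℕ)) (c : Prt) (u v : ℕ) : ℤ × ℤ × ℤ :=
  if v ∈ T.map Prod.fst then
    gMk (gTy T v).1 (gL A T X v u) (crdX X ((gTy T v).1 + 1) u : ℕ)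
      (crdX X ((gTy T v).1 + 2) u : ℕ)
  else if u ∈ T.map Prod.fst then
    gMk (gTy T u).1 (gL A T X u v)
      ((if gKnd (gRol A T X u) v = 2 then crdX X ((gTy T u).1 + 1) v else gY A T X u : ℕ) : ℤ)
      ((if gKnd (gRol A T X u) v = 3 then crdX X ((gTy T u).1 + 2) v else gZ A T X u : ℕ) : ℤ)
  else bndX X c u v

def gDraw (A : Mat) (T : Typ) (X : List (List ℕ)) (c : Prt) : Out :=
  ((List.range A.length).map (gPos A T X),
    (List.range A.length).map fun u => (List.range A.length).map (gBnd A T X c u))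

section
variable {α : Type} [Enc α] {A : α → Mat} {T : α → Typ} {X : α → List (List ℕ)} {c : α → Prt}
  {n u v b : α → ℕ} {I J K : α → Fin 3} {l : α → List ℕ} {r : α → Rl} {s : α → Bool}

@[fun_prop] theorem pt_gTy (hT : PT T) (hb : PT b) : PT fun x => gTy (T x) (b x) := by
  unfold gTy; fun_prop

@[fun_prop] theorem pt_gExt (hn : PT n) (hX : PT X) (hI : PT I) (hu : PT u) :
    PT fun x => gExt (n x) (X x) (I x) (u x) := by
  unfold gExt; fun_prop

@[fun_prop] theorem pt_gSix (hA : PT A) (hb : PT b) : PT fun x => gSix (A x) (b x) := by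
  unfold gSix; fun_prop

@[fun_prop] theorem pt_gPr {β γ : Type} [Enc β] [Enc γ] {p : α → List β} {q : α → List γ}
    (hp : PT p) (hq : PT q) : PT fun x => gPr (p x) (q x) := by
  unfold gPr; fun_prop

@[fun_prop] theorem pt_gTup (hl : PT l) : PT fun x => gTup (l x) := by
  unfold gTup; fun_prop

@[fun_prop] theorem pt_gNo {p q : α → ℕ} (hn : PT n) (hX : PT X) (hJ : PT J) (hK : PT K)
    (hu : PT u) (hv : PT v) (hp : PT p) (hq : PT q) :
    PT fun x => gNo (n x) (X x) (J x) (K x) (u x) (v x) (p x) (q x) := by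
  unfold gNo; fun_prop

@[fun_prop] theorem pt_gOk (hn : PT n) (hX : PT X) (hJ : PT J) (hK : PT K) (hl : PT l)
    (hr : PT r) : PT fun x => gOk (n x) (X x) (J x) (K x) (l x) (r x) := by
  unfold gOk; fun_prop

@[fun_prop] theorem pt_gRol (hA : PT A) (hT : PT T) (hX : PT X) (hb : PT b) :
    PT fun x => gRol (A x) (T x) (X x) (b x) := by
  unfold gRol; fun_prop

@[fun_prop] theorem pt_gKnd (hr : PT r) (hu : PT u) : PT fun x => gKnd (r x) (u x) := by
  unfold gKnd; fun_prop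

@[fun_prop] theorem pt_gMk {p q t : α → ℤ} (hI : PT I) (hp : PT p) (hq : PT q) (ht : PT t) :
    PT fun x => gMk (I x) (p x) (q x) (t x) := by
  unfold gMk; fun_prop

@[fun_prop] theorem pt_gH (hn : PT n) (hb : PT b) (hs : PT s) :
    PT fun x => gH (n x) (b x) (s x) := by
  unfold gH; fun_prop

@[fun_prop] theorem pt_gY (hA : PT A) (hT : PT T) (hX : PT X) (hb : PT b) :
    PT fun x => gY (A x) (T x) (X x) (b x) := by
  unfold gY; fun_prop

@[fun_prop] theorem pt_gZ (hA : PT A) (hT : PT T) (hX : PT X) (hb : PT b) :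
    PT fun x => gZ (A x) (T x) (X x) (b x) := by
  unfold gZ; fun_prop

@[fun_prop] theorem pt_gL (hA : PT A) (hT : PT T) (hX : PT X) (hb : PT b) (hu : PT u) :
    PT fun x => gL (A x) (T x) (X x) (b x) (u x) := by
  unfold gL gLv gSg; fun_prop

@[fun_prop] theorem pt_gPos (hA : PT A) (hT : PT T) (hX : PT X) (hv : PT v) :
    PT fun x => gPos (A x) (T x) (X x) (v x) := by
  unfold gPos posX; fun_prop

@[fun_prop] theorem pt_gBnd (hA : PT A) (hT : PT T) (hX : PT X) (hc : PT c) (hu : PT u)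
    (hv : PT v) : PT fun x => gBnd (A x) (T x) (X x) (c x) (u x) (v x) := by
  unfold gBnd bndX; fun_prop

@[fun_prop] theorem pt_gDraw (hA : PT A) (hT : PT T) (hX : PT X) (hc : PT c) :
    PT fun x => gDraw (A x) (T x) (X x) (c x) := by
  unfold gDraw; fun_prop

end

end Pool.Agent.Lib.MP_6b7ffe_lc.LS
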