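import Pool.Agent.Lib.MP_6b7ffe_lc.LS.Roles
import Pool.Agent.Lib.MP_6b7ffe_lc.LS.Geo2
import Pool.Agent.Lib.MP_6b7ffe_lc.LS.Geo3

set_option autoImplicit false

namespace Pool.Agent.Lib.MP_6b7ffe_lc.LS

open Function Pool.Agent.Lib.Complexity

section
variable {A : Mat} {T : Typ} {X : List (List ℕ)} {b u : ℕ}

theorem mem_gPr {β γ : Type} {l : List β} {l' : List γ} {p : β × γ} :
    p ∈ gPr l l' ↔ p.1 ∈ l ∧ p.2 ∈ l' := by
  obtain ⟨a, b⟩ := p
  simp [gPr]

theorem gTy_mem (h : b ∈ T.map Prod.fst) : (b, gTy T b) ∈ T := by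
  unfold gTy
  cases hf : T.find? fun t => decide (t.1 = b) with
  | none =>
    obtain ⟨t, ht, e⟩ := List.mem_map.1 h
    exact absurd (decide_eq_true e) (List.find?_eq_none.1 hf t ht)
  | some t =>
    have h1 := List.mem_of_find?_eq_some hf
    have h2 : t.1 = b := by simpa using List.find?_some hf
    rw [← h2]
    exact h1

theorem gSix_length : (gSix A b).length = 6 := by simp [gSix]

theorem gSix_nodup : (gSix A b).Nodup := by
  refine (List.take_sublist _ _).nodup (nb_nodup.append List.nodup_range' fun x h1 h2 => ?_)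
  have := (mem_nb.1 h1).1
  have := (List.mem_range'_1.1 h2).1
  omega

theorem gSix_cases (h : u ∈ gSix A b) :
    (u < A.length ∧ adj A b u = true) ∨ (A.length ≤ u ∧ u ≤ A.length + 5) := by
  rcases List.mem_append.1 (List.mem_of_mem_take h) with h | h
  · exact .inl (mem_nb.1 h)
  · have := List.mem_range'_1.1 h
    exact .inr (by omega)

theorem mem_gSix (G : Gr A) (h : adj A b u = true) : u ∈ gSix A b := by
  unfold gSix
  rw [List.take_append, List.take_of_length_le (l := nb A b) (G.deg b)]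
  exact List.mem_append_left _ (mem_nb.2 ⟨(G.rng _ _ h).2, h⟩)

/-- the coordinates are injective with values below `n` -/
structure Box (n : ℕ) (X : List (List ℕ)) : Prop where
  lt : ∀ i, ∀ v < n, crdX X i v < n
  inj : ∀ i, ∀ u < n, ∀ v < n, crdX X i u = crdX X i v → u = v

theorem gExt_lt {n : ℕ} {i : Fin 3} (h : u < n) : gExt n X i u = crdX X i u := if_pos h

theorem Box.ext_inj {n : ℕ} (H : Box n X) (i : Fin 3) : Injective (gExt n X i) := by
  intro u v e
  unfold gExt at e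
  split_ifs at e with a b b
  · exact H.inj i u a v b e
  · have := H.lt i u a; omega
  · have := H.lt i v b; omega
  · exact e

theorem Box.ext_le (H : Box A.length X) (i : Fin 3) (h : u ∈ gSix A b) :
    gExt A.length X i u ≤ A.length + 5 := by
  unfold gExt
  split_ifs with a
  · have := H.lt i u a; omega
  · have := gSix_cases h; omega

/-- a valid role assignment of the points of `l` -/
structure RolOk (y z : ℕ → ℕ) (l : List ℕ) (r : Rl) : Prop where
  mU : r.1 ∈ l
  mZ : r.2.1 ∈ l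
  cov : ∀ x ∈ l, x = r.1 ∨ x = r.2.1 ∨ x = r.2.2.1 ∨ x = r.2.2.2.1 ∨ x = r.2.2.2.2.1 ∨
    x = r.2.2.2.2.2
  ok : okR y z r.1 r.2.1 r.2.2.1 r.2.2.2.1 r.2.2.2.2.1 r.2.2.2.2.2

theorem gOk_iff {n : ℕ} {J K : Fin 3} {l : List ℕ} {r : Rl} : gOk n X J K l r = true ↔
    (∀ x ∈ l, x = r.1 ∨ x = r.2.1 ∨ x = r.2.2.1 ∨ x = r.2.2.2.1 ∨ x = r.2.2.2.2.1 ∨
      x = r.2.2.2.2.2) ∧
    okR (gExt n X J) (gExt n X K) r.1 r.2.1 r.2.2.1 r.2.2.2.1 r.2.2.2.2.1 r.2.2.2.2.2 := by
  simp only [gOk, okR, gNo, Bool.and_eq_true, decide_eq_true_eq, List.all_eq_true, and_assoc,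
    Bool.not_eq_true', ← Bool.not_eq_true, List.mem_cons, List.not_mem_nil, or_false]

theorem gRol_spec (H : Box A.length X) (T : Typ) (b : ℕ) :
    RolOk (gExt A.length X ((gTy T b).1 + 1)) (gExt A.length X ((gTy T b).1 + 2)) (gSix A b)
      (gRol A T X b) := by
  unfold gRol
  generalize (gTy T b).1 + 1 = J
  generalize (gTy T b).1 + 2 = K
  cases hf : (gTup (gSix A b)).find? (gOk A.length X J K (gSix A b)) with
  | none =>
    obtain ⟨U, Z, yp, ym, zp, zm, hp, ho⟩ := roles (gExt A.length X J) (gExt A.length X K)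
      (gSix A b) gSix_length (gSix_nodup.map (H.ext_inj J)) (gSix_nodup.map (H.ext_inj K))
    refine absurd (gOk_iff.2 ⟨fun x hx => ?_, ho⟩)
      (List.find?_eq_none.1 hf (U, Z, yp, ym, zp, zm) ?_)
    · simpa using hp.mem_iff.2 hx
    · simp only [gTup, mem_gPr, ← hp.mem_iff]
      simp
  | some r =>
    have h1 := List.mem_of_find?_eq_some hf
    have h2 := gOk_iff.1 (List.find?_some hf)
    simp only [gTup, mem_gPr] at h1
    exact ⟨h1.1, h1.2.1, h2.1, h2.2⟩

theorem gKnd0 {r : Rl} (h : gKnd r u = 0) : u = r.1 := by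
  unfold gKnd at h; split_ifs at h <;> first | assumption | exact absurd h (by decide)

theorem gKnd1 {r : Rl} (h : gKnd r u = 1) : u ≠ r.1 ∧ u = r.2.1 := by
  unfold gKnd at h; split_ifs at h <;> first | exact ⟨‹_›, ‹_›⟩ | exact absurd h (by decide)

theorem gKnd2 {r : Rl} (h : gKnd r u = 2) :
    u ≠ r.1 ∧ u ≠ r.2.1 ∧ (u = r.2.2.1 ∨ u = r.2.2.2.1) := by
  unfold gKnd at h; split_ifs at h <;> first | exact ⟨‹_›, ‹_›, ‹_›⟩ | exact absurd h (by decide)

theorem gKnd3 {r : Rl} (h : gKnd r u = 3) :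
    u ≠ r.1 ∧ u ≠ r.2.1 ∧ ¬ (u = r.2.2.1 ∨ u = r.2.2.2.1) := by
  unfold gKnd at h; split_ifs at h <;> first | exact ⟨‹_›, ‹_›, ‹_›⟩ | exact absurd h (by decide)

theorem RolOk.k3 {y z : ℕ → ℕ} {l : List ℕ} {r : Rl} (H : RolOk y z l r) (hu : u ∈ l)
    (h : gKnd r u = 3) : u = r.2.2.2.2.1 ∨ u = r.2.2.2.2.2 := by
  have := H.cov u hu
  have := gKnd3 h
  tauto

theorem pt_gMk_eq (I : Fin 3) (a s t : ℤ) : pt (gMk I a s t) = mk3 I a s t := by
  funext j
  fin_cases I <;> fin_cases j <;> simp [pt, gMk, mk3]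

theorem gLv_cast (k : Fin 4) (h σ : ℤ) : ((gLv k h σ : ℤ) : ℝ) = lvl k h σ := by
  unfold gLv lvl; split_ifs <;> simp

theorem gports' {c : Prt} (H : GP A X c) (hc : ∀ t, crs A X c t = false) {n : ℕ}
    (hn : A.length = n) (G : SimpleGraph (Fin n))
    (hG : ∀ u v : Fin n, G.Adj u v ↔ adj A u v = true) :
    GPorts G (fun v i => (crdX X i v : ℝ)) (fun u v => prt c u v) := by
  subst hn
  exact gports H hc G hG

end

theorem geo_sk {A : Mat} {T : Typ} {X : List (List ℕ)} {c : Prt} (Ga : Gr A)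
    (hS : Sep A 2 (T.map Prod.fst)) (H : GP (cor A (T.map Prod.fst)) X c)
    (hc : ∀ t, crs (cor A (T.map Prod.fst)) X c t = false)
    (hr : ∀ t ∈ T, ∀ u w, adj A u t.1 = true → adj (cor A (T.map Prod.fst)) u w = true →
      prt c u w = t.2.1 → if t.2.2 = true then crdX X t.2.1 w < crdX X t.2.1 u
        else crdX X t.2.1 u < crdX X t.2.1 w)
    (G G' : SimpleGraph (Fin A.length)) (hG : ∀ u v : Fin A.length, G.Adj u v ↔ adj A u v = true)
    (hG' : ∀ u v : Fin A.length,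
      G'.Adj u v ↔ G.Adj u v ∧ u.1 ∉ T.map Prod.fst ∧ v.1 ∉ T.map Prod.fst) :
    SK G G' ((A.length + 5 : ℕ) : ℝ) (fun b => b.1 ∈ T.map Prod.fst)
      (fun v i => (crdX X i v : ℝ)) (fun u v => prt c u v) (fun b => (gTy T b).1)
      (fun b => (gSg (gTy T b).2 : ℝ)) (fun b => (gH A.length b (gTy T b).2 : ℝ))
      (fun b => (gY A T X b : ℝ)) (fun b => (gZ A T X b : ℝ))
      (fun b u => gKnd (gRol A T X b) u) (fun v => pt (gPos A T X v))
      (fun u v => pt (gBnd A T X c u v)) := by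
  have hB : Box A.length X := ⟨by simpa using H.lt, by simpa using H.inj⟩
  have hC : ∀ u v : Fin A.length, G'.Adj u v ↔ adj (cor A (T.map Prod.fst)) u v = true :=
    fun u v => by rw [hG', hG, adj_cor Ga]
  have R := gRol_spec hB T
  have nadj : ∀ b b' : Fin A.length, b.1 ∈ T.map Prod.fst → b'.1 ∈ T.map Prod.fst →
      ¬G.Adj b b' := fun b b' hb hb' h =>
    h.ne (Fin.ext (hS b hb b' hb' (ball_mono (ball_one Ga ((hG _ _).1 h)) (by omega))).symm)
  have six : ∀ b u : Fin A.length, G.Adj u b → u.1 ∈ gSix A b := fun b u h =>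
    mem_gSix Ga ((hG _ _).1 h.symm)
  have ex : ∀ (u : Fin A.length) (i : Fin 3), crdX X i u = gExt A.length X i u := fun u i =>
    (gExt_lt u.2).symm
  have own : ∀ (b u : Fin A.length) (i : Fin 3) (x : ℕ), x ∈ gSix A b →
      crdX X i u = gExt A.length X i x → G.Adj u b := fun b u i x hx e => by
    rw [ex] at e
    rw [← hB.ext_inj i e] at hx
    rcases gSix_cases hx with h | h
    · exact ((hG _ _).2 h.2).symm
    · have := u.2; omega
  refine ⟨gports' H hc cor_length G' hC, hG', fun v i => ⟨by positivity, ?_⟩, nadj,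
    fun u b b' hb hb' h h' => ?_, fun b _ => ?_, fun b b' _ _ hne => ?_, fun b _ => ?_,
    fun b u _ e => own b u _ _ (R b).mU (by exact_mod_cast e),
    fun b u _ e => own b u _ _ (R b).mZ (by exact_mod_cast e),
    fun b u w hb h h' e => ?_, fun b u _ h e => ?_, fun b u _ h e => ?_, fun b u _ h e => ?_,
    fun b u u' _ h h' hne e e' => ?_, fun b u u' _ h h' hne e e' => ?_,
    fun b u u' _ h h' e e' hm => ?_, fun b u u' _ h h' e e' hm => ?_,
    fun v hv => ?_, fun b hb => ?_, fun u v h => ?_, fun b u hb h => ?_, fun b u hb h => ?_⟩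
  · have := hB.lt i v v.2
    exact_mod_cast (by omega : crdX X i v ≤ A.length + 5)
  · exact Fin.ext (hS b hb b' hb' (ball_trans (ball_one Ga ((hG _ _).1 h.symm))
      (ball_one Ga ((hG _ _).1 h')))).symm
  · have : (0 : ℝ) ≤ (b.1 : ℝ) := by positivity
    cases (gTy T b).2
    · right; simp only [gSg, gH]; push_cast; constructor <;> linarith
    · left; simp only [gSg, gH]; push_cast; constructor <;> linarith
  · have h1 : b.1 ≠ b'.1 := fun e => hne (Fin.ext e)
    have : gH A.length b (gTy T b).2 + 3 ≤ gH A.length b' (gTy T b').2 ∨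
        gH A.length b' (gTy T b').2 + 3 ≤ gH A.length b (gTy T b).2 := by
      unfold gH; split_ifs <;> omega
    exact_mod_cast this
  · exact ⟨by positivity, by exact_mod_cast hB.ext_le _ (R b).mU, by positivity,
      by exact_mod_cast hB.ext_le _ (R b).mZ⟩
  · have := hr _ (gTy_mem hb) u w ((hG _ _).1 h) ((hC _ _).1 h') e
    simp only [gSg] at this ⊢
    split_ifs at this ⊢
    · have : (crdX X (gTy T b).1 w : ℝ) < crdX X (gTy T b).1 u := by exact_mod_cast this
      push_cast; linarith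
    · have : (crdX X (gTy T b).1 u : ℝ) < crdX X (gTy T b).1 w := by exact_mod_cast this
      push_cast; linarith
  · have a := gKnd0 e
    obtain ⟨-, -, o3, o4, o5, -⟩ := (R b).ok
    simp only [ex, gY, gZ, ne_eq, Nat.cast_inj]
    rw [a]
    omega
  · obtain ⟨a, a'⟩ := gKnd1 e
    simp only [ex, gY, gZ, ne_eq, Nat.cast_inj]
    exact ⟨fun e => a (hB.ext_inj _ e), by rw [a']⟩
  · have a : u.1 ≠ (gRol A T X b).1 ∧ u.1 ≠ (gRol A T X b).2.1 :=
      e.elim (fun e => ⟨(gKnd2 e).1, (gKnd2 e).2.1⟩) fun e => ⟨(gKnd3 e).1, (gKnd3 e).2.1⟩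
    simp only [ex, gY, gZ, ne_eq, Nat.cast_inj]
    exact ⟨fun e => a.1 (hB.ext_inj _ e), fun e => a.2 (hB.ext_inj _ e)⟩
  · obtain ⟨o1, o2, -⟩ := (R b).ok
    have n1 : u.1 ≠ u'.1 := fun e => hne (Fin.ext e)
    simp only [ex, gY, Nat.cast_lt]
    rcases (gKnd2 e).2.2 with a | a <;> rcases (gKnd2 e').2.2 with a' | a'
    · exact absurd (a.trans a'.symm) n1
    · rw [a, a']; omega
    · rw [a, a']; omega
    · exact absurd (a.trans a'.symm) n1
  · obtain ⟨-, -, o3, o4, -⟩ := (R b).ok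
    have n1 : u.1 ≠ u'.1 := fun e => hne (Fin.ext e)
    simp only [ex, gZ, Nat.cast_lt]
    rcases (R b).k3 (six b u h) e with a | a <;> rcases (R b).k3 (six b u' h') e' with a' | a'
    · exact absurd (a.trans a'.symm) n1
    · rw [a, a']; omega
    · rw [a, a']; omega
    · exact absurd (a.trans a'.symm) n1
  · obtain ⟨-, -, o3, o4, o5, -⟩ := (R b).ok
    have := btw_of hm
    simp only [ex, gZ, btw, decide_eq_true_eq] at this
    rw [gKnd0 e] at this
    rcases (R b).k3 (six b u' h') e' with a' | a' <;> rw [a'] at this <;> omega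
  · refine (R b).ok.2.2.2.2.2 u (by simpa using (gKnd2 e).2.2) u'
      (by simpa using (R b).k3 (six b u' h') e') ⟨?_, ?_⟩
    · rw [← ex, ← ex]; exact btw_of hm.1
    · rw [← ex, ← ex]; exact btw_of hm.2
  · simp only [gPos, if_neg hv, pt_posX]
  · simp only [gPos, if_pos hb, pt_gMk_eq, Int.cast_natCast]
  · obtain ⟨-, a, a'⟩ := (hG' _ _).1 h
    simp only [gBnd, if_neg a, if_neg a', pt_bndX, bend]
  · simp only [gBnd, if_pos hb, pt_gMk_eq, Int.cast_natCast, gL, gLv_cast]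
  · have a : u.1 ∉ T.map Prod.fst := fun a => nadj u b a hb h
    simp only [gBnd, if_neg a, if_pos hb, pt_gMk_eq, gL, gLv_cast, Nat.cast_ite, Int.cast_ite,
      Int.cast_natCast]

theorem geo_pack : ∃ g : Mat × Typ × List (List ℕ) × Prt → Out, PT g ∧
    ∀ (A : Mat) (T : Typ) (X : List (List ℕ)) (c : Prt), Gr A → (T.map Prod.fst).Nodup →
      (∀ t ∈ T, t.1 < A.length) → Sep A 2 (T.map Prod.fst) → GP (cor A (T.map Prod.fst)) X c →
      (∀ t ∈ T, ∀ u w, adj A u t.1 = true → adj (cor A (T.map Prod.fst)) u w = true →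
        prt c u w = t.2.1 → if t.2.2 = true then crdX X t.2.1 w < crdX X t.2.1 u
          else crdX X t.2.1 u < crdX X t.2.1 w) →
      ∀ (n : ℕ) (G : SimpleGraph (Fin n)), A.length = n →
        (∀ u v : Fin n, G.Adj u v ↔ adj A u v = true) → Draws (g (A, T, X, c)) G := by
  refine ⟨fun x => gDraw x.1 x.2.1 x.2.2.1
    (unc (cor x.1 (x.2.1.map Prod.fst)) x.2.2.1 x.2.2.2), by fun_prop, ?_⟩
  intro A T X c Ga _ _ hS H hr n G hn hG
  subst hn
  have := (geo_sk Ga hS (unc_spec H).1 (unc_spec H).2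
    (fun t ht u w h => unc_ray H (fun w => hr t ht u w h) w) G
    { Adj := fun u v => G.Adj u v ∧ u.1 ∉ T.map Prod.fst ∧ v.1 ∉ T.map Prod.fst
      symm := ⟨fun _ _ h => ⟨h.1.symm, h.2.2, h.2.1⟩⟩
      loopless := ⟨fun _ h => h.1.ne rfl⟩ } hG fun _ _ => Iff.rfl).draw
  unfold Draws
  convert this using 2 with u u
  · simp [gDraw]
  · funext v
    simp [gDraw]

end Pool.Agent.Lib.MP_6b7ffe_lc.LS
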