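import Pool.Agent.Lib.MP_6b7ffe_lc.Uncross
import Pool.Agent.Lib.MP_6b7ffe_lc.LS.Defs

/-! Abstract data of a drawing with sinks. -/

set_option autoImplicit false

namespace Pool.Agent.Lib.MP_6b7ffe_lc.LS

/-- the point with coordinate `a` on axis `I`, `s` on axis `I + 1`, `t` on axis `I + 2` -/
def mk3 (I : Fin 3) (a s t : ℝ) : Fin 3 → ℝ :=
  fun j => if j = I then a else if j = I + 1 then s else t

/-- level of the middle segment; kinds 0 = U, 1 = Z, 2 = head on `I + 1`, 3 = head on `I + 2` -/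
def lvl (k : Fin 4) (h σ : ℝ) : ℝ := if k = 0 then h + σ else if k = 1 then h - σ else h

structure SK {V : Type} (G G' : SimpleGraph V) (N : ℝ) (S : V → Prop) (X : V → Fin 3 → ℝ)
    (c : V → V → Fin 3) (ax : V → Fin 3) (sg h yb zb : V → ℝ) (k : V → V → Fin 4)
    (P : V → Fin 3 → ℝ) (B : V → V → Fin 3 → ℝ) : Prop where
  gp : GPorts G' X c
  cor : ∀ u v, G'.Adj u v ↔ G.Adj u v ∧ ¬S u ∧ ¬S v
  box : ∀ v i, 0 ≤ X v i ∧ X v i ≤ N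
  nadj : ∀ b b', S b → S b' → ¬G.Adj b b'
  uniq : ∀ u b b', S b → S b' → G.Adj u b → G.Adj u b' → b = b'
  lev : ∀ b, S b → (sg b = 1 ∧ N + 2 ≤ h b) ∨ (sg b = -1 ∧ h b ≤ -2)
  far : ∀ b b', S b → S b' → b ≠ b' → h b + 3 ≤ h b' ∨ h b' + 3 ≤ h b
  ybox : ∀ b, S b → 0 ≤ yb b ∧ yb b ≤ N ∧ 0 ≤ zb b ∧ zb b ≤ N
  yown : ∀ b u, S b → X u (ax b + 1) = yb b → G.Adj u b
  zown : ∀ b u, S b → X u (ax b + 2) = zb b → G.Adj u b
  ray : ∀ b u w, S b → G.Adj u b → G'.Adj u w → c u w = ax b →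
    sg b * (X w (ax b) - X u (ax b)) < 0
  kU : ∀ b u, S b → G.Adj u b → k b u = 0 → X u (ax b + 1) = yb b ∧ X u (ax b + 2) ≠ zb b
  kZ : ∀ b u, S b → G.Adj u b → k b u = 1 → X u (ax b + 1) ≠ yb b ∧ X u (ax b + 2) = zb b
  kH : ∀ b u, S b → G.Adj u b → k b u = 2 ∨ k b u = 3 →
    X u (ax b + 1) ≠ yb b ∧ X u (ax b + 2) ≠ zb b
  kYY : ∀ b u u', S b → G.Adj u b → G.Adj u' b → u ≠ u' → k b u = 2 → k b u' = 2 →
    (X u (ax b + 1) < yb b ∧ yb b < X u' (ax b + 1)) ∨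
      (X u' (ax b + 1) < yb b ∧ yb b < X u (ax b + 1))
  kWW : ∀ b u u', S b → G.Adj u b → G.Adj u' b → u ≠ u' → k b u = 3 → k b u' = 3 →
    (X u (ax b + 2) < zb b ∧ zb b < X u' (ax b + 2)) ∨
      (X u' (ax b + 2) < zb b ∧ zb b < X u (ax b + 2))
  kUW : ∀ b u u', S b → G.Adj u b → G.Adj u' b → k b u = 0 → k b u' = 3 →
    X u (ax b + 2) ∉ Set.uIcc (X u' (ax b + 2)) (zb b)
  kYW : ∀ b u u', S b → G.Adj u b → G.Adj u' b → k b u = 2 → k b u' = 3 →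
    ¬(X u (ax b + 1) ∈ Set.uIcc (X u' (ax b + 1)) (yb b) ∧
      X u' (ax b + 2) ∈ Set.uIcc (X u (ax b + 2)) (zb b))
  Pc : ∀ v, ¬S v → P v = X v
  Ps : ∀ b, S b → P b = mk3 (ax b) (h b) (yb b) (zb b)
  Bc : ∀ u v, G'.Adj u v → B u v = bend X c u v
  Bu : ∀ b u, S b → G.Adj u b →
    B u b = mk3 (ax b) (lvl (k b u) (h b) (sg b)) (X u (ax b + 1)) (X u (ax b + 2))
  Bb : ∀ b u, S b → G.Adj u b → B b u = mk3 (ax b) (lvl (k b u) (h b) (sg b))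
    (if k b u = 2 then X u (ax b + 1) else yb b) (if k b u = 3 then X u (ax b + 2) else zb b)

end Pool.Agent.Lib.MP_6b7ffe_lc.LS
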