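import Pool.Agent.Lib.MP_6b7ffe_lc.LS.Base

/-! Growth of balls without a stop. -/

set_option autoImplicit false

namespace Pool.Agent.Lib.MP_6b7ffe_lc.LS

open Function Pool.Agent.Lib.Complexity

section
variable {A D : Mat} {q K : ℕ} {L : List ℕ}

theorem gr_sp (S : SP A q K) {B T : Finset ℕ} (out : ℕ → Finset ℕ) (hT : T.Nonempty)
    (hK : T.card ≤ K) (hB : B ⊆ T) (h2 : ∀ x ∈ B, 2 ≤ (out x).card)
    (ho : ∀ x ∈ B, ∀ w ∈ out x, w ∈ T ∧ adj A x w = true ∧ (w ∈ B → x ∉ out w)) :
    q * (2 * B.card) ≤ (2 * q - 1) * (T.card - 1) := by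
  have m : ∀ p : ℕ × ℕ, p ∈ (B.sigma out).map (Equiv.sigmaEquivProd ℕ ℕ).toEmbedding ↔
      p.1 ∈ B ∧ p.2 ∈ out p.1 := fun p => by
    rw [Finset.mem_map_equiv, Finset.mem_sigma]; rfl
  refine le_trans (Nat.mul_le_mul_left _ ?_) (S T hT hK _ (fun p hp => ?_) fun p hp h =>
    (ho _ ((m p).1 hp).1 _ ((m p).1 hp).2).2.2 ((m _).1 h).1 ((m _).1 h).2)
  · rw [Finset.card_map, Finset.card_sigma, mul_comm]
    exact Finset.card_nsmul_le_sum B _ 2 h2
  · obtain ⟨h1, h3⟩ := (m p).1 hp
    exact ⟨hB h1, (ho _ h1 _ h3).1, (ho _ h1 _ h3).2.1⟩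

/-- the sinks adjacent to `ball D u i` -/
def grT (A D : Mat) (L : List ℕ) (u i : ℕ) : Finset ℕ :=
  L.toFinset.filter fun b => ∃ x ∈ ball D u i, adj A x b = true

theorem gr_len {D : Mat} (u i : ℕ) : (ball D u i).toFinset.card = (ball D u i).length :=
  List.toFinset_card_of_nodup ball_nodup

theorem gr_mono {D : Mat} (u : ℕ) {i j : ℕ} (h : i ≤ j) :
    (ball D u i).length ≤ (ball D u j).length :=
  length_le_of_sub ball_nodup fun _ hx => ball_mono hx h

theorem gr_one (G : Gr A) (S : SP A q K) (sub : Sub D A)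
    (av : ∀ u w, adj D u w = true → w ∉ L) {u i : ℕ} (hu : u < A.length) (huL : u ∉ L)
    (hK : 7 ^ (i + 1) ≤ K) (ns : ∀ x ∈ ball D u i, stop A D L x = false) :
    q * (2 * (ball D u i).length) ≤
      (2 * q - 1) * ((ball D u (i + 1)).length + (grT A D L u i).card - 1) := by
  have nL : ∀ x ∈ ball D u i, x ∉ L := fun x hx =>
    ball_ind (p := (· ∉ L)) huL (fun x y _ _ _ _ _ h => av x y h) hx
  have h := gr_sp S (B := (ball D u i).toFinset)
    (T := (ball D u (i + 1)).toFinset ∪ grT A D L u i)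
    (fun x => (nb D x).toFinset ∪ L.toFinset.filter fun b => adj A x b = true)
    ⟨u, Finset.mem_union_left _ (List.mem_toFinset.2 (ball_self (sub.len ▸ hu)))⟩
    (le_trans (Finset.card_le_card (t := (ball A u (i + 1)).toFinset) fun x hx => ?_)
      ((gr_len u _).le.trans ((ball_card G).trans hK)))
    (fun x hx => Finset.mem_union_left _
      (List.mem_toFinset.2 (ball_mono (List.mem_toFinset.1 hx) (Nat.le_succ i))))
    (fun x hx => ?_) fun x hx w hw => ?_
  · rw [gr_len] at h
    refine h.trans (Nat.mul_le_mul_left _ (Nat.sub_le_sub_right ?_ 1))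
    rw [← gr_len]
    exact Finset.card_union_le _ _
  · rw [List.mem_toFinset]
    rcases Finset.mem_union.1 hx with h | h
    · exact ball_of_sub sub.len sub.sub (List.mem_toFinset.1 h)
    · obtain ⟨-, y, h1, h2⟩ := Finset.mem_filter.1 h
      exact ball_arc (ball_of_sub sub.len sub.sub h1) (G.rng _ _ h2).2 h2
  · have h1 := ns x (List.mem_toFinset.1 hx)
    rw [Finset.card_union_of_disjoint (Finset.disjoint_left.2 fun w h2 h3 =>
      av x w (mem_nb.1 (List.mem_toFinset.1 h2)).2 (List.mem_toFinset.1 (Finset.mem_filter.1 h3).1)),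
      List.toFinset_card_of_nodup nb_nodup]
    rw [stop, decide_eq_false_iff_not] at h1
    split_ifs at h1 with h2
    · obtain ⟨b, h3, h4⟩ := tch_iff.1 h2
      have := Finset.card_pos.2 (⟨b, Finset.mem_filter.2 ⟨List.mem_toFinset.2 h3, h4⟩⟩ :
        (L.toFinset.filter fun b => adj A x b = true).Nonempty)
      omega
    · omega
  · have hx' := List.mem_toFinset.1 hx
    have h0 : ∀ w, adj D x w = true ∨ w ∈ L → w ∈ (ball D u i).toFinset →
        x ∉ (nb D w).toFinset ∪ L.toFinset.filter fun b => adj A w b = true := fun w h1 h2 h3 => by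
      rcases Finset.mem_union.1 h3 with h3 | h3
      · have h4 := sub.anti _ _ (mem_nb.1 (List.mem_toFinset.1 h3)).2
        rcases h1 with h1 | h1
        · simp [h1] at h4
        · exact nL w (List.mem_toFinset.1 h2) h1
      · exact nL x hx' (List.mem_toFinset.1 (Finset.mem_filter.1 h3).1)
    rcases Finset.mem_union.1 hw with h | h
    · obtain ⟨h1, h2⟩ := mem_nb.1 (List.mem_toFinset.1 h)
      exact ⟨Finset.mem_union_left _ (List.mem_toFinset.2 (ball_arc hx' h1 h2)), sub.sub _ _ h2,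
        h0 w (.inl h2)⟩
    · obtain ⟨h1, h2⟩ := Finset.mem_filter.1 h
      exact ⟨Finset.mem_union_right _ (Finset.mem_filter.2 ⟨h1, x, hx', h2⟩), h2,
        h0 w (.inr (List.mem_toFinset.1 h1))⟩

theorem gr_two (G : Gr A) (hq : 1 ≤ q) (S : SP A q K) (sub : Sub D A) (hL : Sep A (8 * q) L)
    (av : ∀ u w, adj D u w = true → w ∉ L) {u b : ℕ} (huL : u ∉ L) (hb : b ∈ L)
    (ha : adj A u b = true) (hK : 7 ^ (4 * q - 1) ≤ K)
    (ns : ∀ x ∈ ball D u (4 * q - 1), stop A D L x = false) {i : ℕ} (hi : i ≤ 4 * q - 1) :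
    i + 1 ≤ (ball D u i).length := by
  have hu := (G.rng _ _ ha).1
  induction i with
  | zero => exact List.length_pos_of_mem (ball_self (sub.len ▸ hu))
  | succ i ih =>
    have h1 := ih (by omega)
    have h2 := gr_one G S sub av hu huL (i := i)
      ((Nat.pow_le_pow_right (by norm_num) hi).trans hK) fun x hx => ns x (ball_mono hx (by omega))
    have h3 : (grT A D L u i).card ≤ 1 :=
      (Finset.card_le_card (t := {b}) fun c hc => by
        obtain ⟨h4, x, h5, h6⟩ := Finset.mem_filter.1 hc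
        refine Finset.mem_singleton.2 (hL b hb c (List.mem_toFinset.1 h4) (ball_mono (ball_trans
          (ball_trans (ball_one G (G.symm u b ▸ ha)) (ball_of_sub sub.len sub.sub h5))
          (ball_one G h6)) (by omega)))).trans (by simp)
    by_contra h4
    have h5 : (ball D u (i + 1)).length + (grT A D L u i).card - 1 ≤ (ball D u i).length := by omega
    have h6 := h2.trans (Nat.mul_le_mul_left _ h5)
    obtain ⟨r, rfl⟩ : ∃ r, q = r + 1 := ⟨q - 1, by omega⟩
    rw [show 2 * (r + 1) - 1 = 2 * r + 1 by omega] at h6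
    nlinarith

theorem gr_three (G : Gr A) (hq : 1 ≤ q) (S : SP A q K) (sub : Sub D A) (hL : Sep A (8 * q) L)
    (av : ∀ u w, adj D u w = true → w ∉ L) {v j : ℕ} (hvL : v ∉ L) (hK : 7 ^ (4 * q - 1) ≤ K)
    (ns : ∀ x ∈ ball D v (j + (4 * q - 1)), stop A D L x = false) :
    (grT A D L v j).card * (4 * q) ≤ (ball D v (j + (4 * q - 1))).length := by
  have ex : ∀ b, ∃ x, b ∈ grT A D L v j → x ∈ ball D v j ∧ adj A x b = true := fun b => by
    by_cases h : b ∈ grT A D L v j
    · obtain ⟨x, hx⟩ := (Finset.mem_filter.1 h).2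
      exact ⟨x, fun _ => hx⟩
    · exact ⟨0, fun h' => absurd h' h⟩
  choose x hx using ex
  have mL : ∀ b ∈ grT A D L v j, b ∈ L := fun b h => List.mem_toFinset.1 (Finset.mem_filter.1 h).1
  rw [← gr_len]
  refine le_trans ?_ (Finset.card_le_card
    (s := (grT A D L v j).biUnion fun b => (ball D (x b) (4 * q - 1)).toFinset) fun z hz => ?_)
  · rw [Finset.card_biUnion fun b hb c hc e => Finset.disjoint_left.2 fun z h1 h2 => e ?_]
    · refine Finset.card_nsmul_le_sum _ _ _ fun b hb => ?_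
      have := gr_two G hq S sub hL av
        (ball_ind (p := (· ∉ L)) hvL (fun x y _ _ _ _ _ h => av x y h) (hx b hb).1) (mL b hb)
        (hx b hb).2 hK (fun y hy => ns y (ball_trans (hx b hb).1 hy)) le_rfl
      rw [gr_len]; omega
    · refine (hL b (mL b hb) c (mL c hc) (ball_mono (ball_trans (ball_trans (ball_trans
        (ball_one G (G.symm (x b) b ▸ (hx b hb).2))
        (ball_of_sub sub.len sub.sub (List.mem_toFinset.1 h1)))
        (ball_symm G (ball_of_sub sub.len sub.sub (List.mem_toFinset.1 h2))))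
        (ball_one G (hx c hc).2)) (by omega))).symm
  · obtain ⟨b, hb, h⟩ := Finset.mem_biUnion.1 hz
    exact List.mem_toFinset.2 (ball_trans (hx b hb).1 (List.mem_toFinset.1 h))

theorem gr_four (G : Gr A) (hq : 1 ≤ q) (S : SP A q K) (sub : Sub D A) (hL : Sep A (8 * q) L)
    (av : ∀ u w, adj D u w = true → w ∉ L) {v j : ℕ} (hv : v < A.length) (hvL : v ∉ L)
    (hK : 7 ^ (j + (4 * q - 1)) ≤ K)
    (ns : ∀ x ∈ ball D v (j + (4 * q - 1)), stop A D L x = false) :
    4 * q * (ball D v j).length ≤ (4 * q - 1) * (ball D v (j + (4 * q - 1))).length := by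
  have h1 := gr_one G S sub av hv hvL (i := j)
    ((Nat.pow_le_pow_right (by norm_num) (by omega)).trans hK)
    fun x hx => ns x (ball_mono hx (by omega))
  have h2 := gr_three G hq S sub hL av hvL
    ((Nat.pow_le_pow_right (by norm_num) (by omega)).trans hK) ns
  have h3 := gr_mono (D := D) v (show j + 1 ≤ j + (4 * q - 1) by omega)
  have h4 := h1.trans (Nat.mul_le_mul_left _ (show _ ≤ (ball D v (j + (4 * q - 1))).length +
    (grT A D L v j).card by omega))
  generalize (ball D v (j + (4 * q - 1))).length = y at *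
  generalize (ball D v j).length = x at *
  generalize (grT A D L v j).card = t at *
  obtain ⟨r, rfl⟩ : ∃ r, q = r + 1 := ⟨q - 1, by omega⟩
  rw [show 2 * (r + 1) - 1 = 2 * r + 1 by omega] at h4
  rw [show 4 * (r + 1) - 1 = 4 * r + 3 by omega]
  have h5 : t ≤ y := le_trans (Nat.le_mul_of_pos_right _ (by omega)) h2
  nlinarith

end

theorem grow {A D : Mat} {q K : ℕ} {L : List ℕ} (G : Gr A) (hq : 1 ≤ q) (S : SP A q K)
    (sub : Sub D A) (hL : Sep A (8 * q) L) (av : ∀ u w, adj D u w = true → w ∉ L) {v i : ℕ}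
    (hv : v < A.length) (hvL : v ∉ L) (hK : 7 ^ (i * (4 * q - 1) ^ 2 + 1) ≤ K)
    (ns : ∀ u ∈ ball D v (i * (4 * q - 1) ^ 2), stop A D L u = false) :
    2 ^ i ≤ (ball D v (i * (4 * q - 1) ^ 2)).length := by
  have h4 := fun j (hj : j + (4 * q - 1) ≤ i * (4 * q - 1) ^ 2) =>
    gr_four G hq S sub hL av (j := j) hv hvL
      ((Nat.pow_le_pow_right (by norm_num) (by omega)).trans hK) fun x hx => ns x (ball_mono hx hj)
  obtain ⟨m, hm⟩ : ∃ m, 4 * q = m + 1 := ⟨4 * q - 1, by omega⟩
  simp only [hm, Nat.add_sub_cancel] at h4 ⊢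
  have h5 : ∀ j l, j + l * m ≤ i * m ^ 2 →
      (m + l) * (ball D v j).length ≤ m * (ball D v (j + l * m)).length := fun j l => by
    induction l with
    | zero => simp
    | succ l ih =>
      intro h
      rw [Nat.succ_mul, ← Nat.add_assoc j] at h ⊢
      have h1 := ih (by omega)
      have h2 := h4 _ h
      have h3 := gr_mono (D := D) v (Nat.le_add_right j (l * m))
      nlinarith
  have h6 : ∀ l ≤ i, 2 ^ l ≤ (ball D v (l * m ^ 2)).length := fun l => by
    induction l with
    | zero => exact fun _ => List.length_pos_of_mem (ball_self (sub.len ▸ hv))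
    | succ l ih =>
      intro h
      have e : (l + 1) * m ^ 2 = l * m ^ 2 + m * m := by ring
      have h1 := h5 (l * m ^ 2) m (e ▸ Nat.mul_le_mul_right _ h)
      have h2 := ih (by omega)
      rw [e, pow_succ]
      refine Nat.le_of_mul_le_mul_left (le_trans ?_ h1) (show 0 < m by omega)
      nlinarith
  exact h6 i le_rfl

/-- a small set whose vertices have two arcs each has an arc leaving it and avoiding `c` -/
theorem fan_small {A D : Mat} {q K : ℕ} (G : Gr A) (hq : 1 ≤ q) (S : SP A q K) (sub : Sub D A)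
    (T : Finset ℕ) (c : ℕ) (hT : T.Nonempty) (hc : c ∉ T) (hK : T.card < K)
    (h2 : ∀ a ∈ T, 2 ≤ (nb D a).length) :
    ∃ a ∈ T, ∃ w, adj D a w = true ∧ w ∉ T ∧ w ≠ c := by
  have _ := G
  by_contra hn
  have e := Finset.card_insert_of_notMem hc
  have h := gr_sp S (B := T) (T := insert c T) (fun x => (nb D x).toFinset)
    (Finset.insert_nonempty c T) (by omega) (Finset.subset_insert c T)
    (fun x hx => by rw [List.toFinset_card_of_nodup nb_nodup]; exact h2 x hx) fun x hx w hw => by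
      have h1 := (mem_nb.1 (List.mem_toFinset.1 hw)).2
      refine ⟨by_contra fun h => ?_, sub.sub _ _ h1, fun _ h => ?_⟩
      · rw [Finset.mem_insert, not_or] at h
        exact hn ⟨x, hx, w, h1, h.2, h.1⟩
      · have := sub.anti _ _ h1
        simp [(mem_nb.1 (List.mem_toFinset.1 h)).2] at this
  have h3 := Finset.card_pos.2 hT
  obtain ⟨r, rfl⟩ : ∃ r, q = r + 1 := ⟨q - 1, by omega⟩
  rw [show 2 * (r + 1) - 1 = 2 * r + 1 by omega, e, Nat.add_sub_cancel] at h
  nlinarith

end Pool.Agent.Lib.MP_6b7ffe_lc.LS
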