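import Pool.Agent.Lib.MP_6b7ffe_lc.LS.SatP

/-! Phase two of the solver: small components, and the final statement. -/

set_option autoImplicit false

namespace Pool.Agent.Lib.MP_6b7ffe_lc

open Function Pool.Agent.Lib.Complexity

namespace Sat

variable {V : Type} [DecidableEq V] {k d : ℕ} {F : List (Cl V)} {σ c : Cl V} {x y : V}

theorem rel_iff : rel F σ x y = true ↔ has σ x = false ∧ has σ y = false ∧
    ∃ c ∈ F, tr σ c = false ∧ has c x = true ∧ has c y = true := by
  simp [rel, and_assoc]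

theorem rel_symm (h : rel F σ x y = true) : rel F σ y x = true := by
  obtain ⟨h1, h2, c, hc, h3, h4, h5⟩ := rel_iff.1 h
  exact rel_iff.2 ⟨h2, h1, c, hc, h3, h5, h4⟩

theorem mem_vs (hc : c ∈ F) (h : has c x = true) : x ∈ vs F :=
  List.mem_dedup.2 (List.mem_flatMap.2 ⟨c, hc, has_iff.1 h⟩)

theorem mem_grow {U : List V} : y ∈ grow F σ U ↔ ∃ x ∈ U, rel F σ x y = true := by
  simp only [grow, List.mem_filter, List.any_eq_true, and_iff_right_iff_imp]
  rintro ⟨x, -, h⟩
  obtain ⟨-, -, c, hc, -, -, h5⟩ := rel_iff.1 h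
  exact mem_vs hc h5

theorem cmp_eq : cmp F σ x = grow F σ ((grow F σ)^[(vs F).length] [x]) :=
  iterate_succ_apply' _ _ _

theorem mem_cmp (hx : rel F σ x x = true) :
    y ∈ cmp F σ x ↔ Relation.ReflTransGen (fun a b => rel F σ a b = true) x y := by
  have mono : ∀ U U' : List V, U ⊆ U' → grow F σ U ⊆ grow F σ U' := fun U U' h y hy => by
    obtain ⟨z, h1, h2⟩ := mem_grow.1 hy
    exact mem_grow.2 ⟨z, h h1, h2⟩
  have up : ∀ i, (grow F σ)^[i] [x] ⊆ (grow F σ)^[i + 1] [x] := fun i => by
    induction i with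
    | zero => simpa using mem_grow.2 ⟨x, by simp, hx⟩
    | succ i ih => rw [iterate_succ_apply', iterate_succ_apply' _ (i + 1)]; exact mono _ _ ih
  have st : ∀ i, (grow F σ)^[i + 1] [x] ⊆ (grow F σ)^[i] [x] ∨
      i < ((grow F σ)^[i] [x]).toFinset.card := fun i => by
    induction i with
    | zero => right; simp
    | succ i ih =>
      by_cases h : (grow F σ)^[i + 1] [x] ⊆ (grow F σ)^[i] [x]
      · left; rw [iterate_succ_apply' _ (i + 1)]
        nth_rw 2 [iterate_succ_apply']
        exact mono _ _ h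
      · right
        refine (Nat.succ_le_of_lt (ih.resolve_left h)).trans_lt (Finset.card_lt_card ⟨?_, ?_⟩)
        · intro z hz; rw [List.mem_toFinset] at hz ⊢; exact up i hz
        · intro h'; exact h fun z hz => List.mem_toFinset.1 (h' (List.mem_toFinset.2 hz))
  constructor
  · unfold cmp
    generalize (vs F).length + 1 = i
    induction i generalizing y with
    | zero => intro h; rw [iterate_zero_apply, List.mem_singleton] at h; rw [h]
    | succ i ih =>
      rw [iterate_succ_apply']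
      intro h
      obtain ⟨z, h1, h2⟩ := mem_grow.1 h
      exact (ih h1).tail h2
  · intro h
    induction h with
    | refl =>
      unfold cmp
      generalize (vs F).length + 1 = i
      induction i with
      | zero => simp
      | succ i ih => exact up i ih
    | tail _ h2 ih =>
      refine (st ((vs F).length + 1)).resolve_right (not_lt.2 ?_) ?_
      · refine (List.toFinset_card_le _).trans ?_
        rw [iterate_succ_apply']
        exact (List.length_filter_le _ _).trans (Nat.le_succ _)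
      · rw [iterate_succ_apply']; exact mem_grow.2 ⟨_, ih, h2⟩

theorem cmp_congr (h : rel F σ x y = true) : cmp F σ x = cmp F σ y := by
  obtain ⟨h1, h2, c, hc, h3, h4, h5⟩ := rel_iff.1 h
  have hx : rel F σ x x = true := rel_iff.2 ⟨h1, h1, c, hc, h3, h4, h4⟩
  have hy : rel F σ y y = true := rel_iff.2 ⟨h2, h2, c, hc, h3, h5, h5⟩
  have e : ∀ z, z ∈ cmp F σ x ↔ z ∈ cmp F σ y := fun z => by
    rw [mem_cmp hx, mem_cmp hy]
    exact ⟨.head (rel_symm h), .head h⟩
  rw [cmp_eq, cmp_eq] at e ⊢
  refine List.filter_congr fun z hz => ?_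
  have := e z
  simp only [grow, List.mem_filter, hz, true_and] at this
  exact Bool.eq_iff_iff.2 this

theorem len_flatMap_le' {α β : Type} (l : List α) (f : α → List β) (B : ℕ)
    (h : ∀ a ∈ l, (f a).length ≤ B) : (l.flatMap f).length ≤ l.length * B := by
  induction l with
  | nil => simp
  | cons a l ih =>
    have := h a (by simp)
    have := ih fun b hb => h b (by simp [hb])
    simp only [List.flatMap_cons, List.length_append, List.length_cons, Nat.succ_mul]; omega

theorem cmp_len (hk : 0 < k) (h : 4 * d ^ 6 ≤ 2 ^ k)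
    (h1 : ∀ c ∈ F, c.length = 2 * k ∧ (c.map Prod.fst).Nodup)
    (h2 : ∀ c ∈ F, F.countP (meets c) ≤ d) (H : Inv k F (wit d F) σ)
    (hz : ∀ y ∈ vs F, has σ y = false → ∃ c ∈ F, dang k σ c = true ∧ has c y = true)
    (hx : rel F σ x x = true) : (cmp F σ x).length ≤ lg F * (d * (2 * k)) := by
  by_contra hb
  have fr : ∀ {y z}, rel F σ y z = true → ∃ c ∈ F, dang k σ c = true ∧ has c z = true := by
    intro y z h
    obtain ⟨-, h2, c, hc, -, -, h5⟩ := rel_iff.1 h
    exact hz z (mem_vs hc h5) h2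
  have key : ∀ j ≤ lg F, ∃ w : List (Cl V), w.IsChain (R3 F) ∧ w.length = 2 * j + 1 ∧
      (∀ c ∈ w, c ∈ F ∧ dang k σ c = true) ∧ (∀ a ∈ w, ∀ b ∈ w, meets a b = true → a = b) ∧
      w.toFinset.card = j + 1 ∧ ∃ c ∈ w, has c x = true := by
    intro j
    induction j with
    | zero =>
      intro _
      obtain ⟨c, hc, h3, h4⟩ := fr hx
      exact ⟨[c], by simp, rfl, by simp [hc, h3], by simp, by simp, c, by simp, h4⟩
    | succ j ih =>
      intro hj
      obtain ⟨w, w1, w2, w3, w4, w5, c0, w6, w7⟩ := ih (by omega)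
      set N := w.dedup.flatMap fun s => (nb d F s).flatMap fun c => c.map Prod.fst with hN
      have mN : ∀ s ∈ w, ∀ c ∈ F, meets s c = true → ∀ z, has c z = true → z ∈ N :=
        fun s hs c hc hm z hz => List.mem_flatMap.2 ⟨s, List.mem_dedup.2 hs,
          List.mem_flatMap.2 ⟨c, mem_nb h2 (w3 s hs).1 hc hm, has_iff.1 hz⟩⟩
      have lN : N.length ≤ lg F * (d * (2 * k)) := by
        refine (len_flatMap_le' _ _ (d * (2 * k)) fun s _ => ?_).trans (Nat.mul_le_mul_right _ ?_)
        · exact (len_flatMap_le' _ _ (2 * k) fun c hc => by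
            simp [(h1 c (nb_mem d hc)).1]).trans (Nat.mul_le_mul_right _ (nb_len d F s))
        · rw [← List.card_toFinset]; omega
      obtain ⟨y, z, hy, hz', hr⟩ : ∃ y z, y ∈ N ∧ z ∉ N ∧ rel F σ y z = true := by
        by_contra hn
        push Not at hn
        refine hb (le_trans (List.subperm_of_subset ?_ fun z hz => ?_).length_le lN)
        · rw [cmp_eq]; exact (List.nodup_dedup _).filter _
        · have := (mem_cmp hx).1 hz
          clear hz
          induction this with
          | refl => exact mN c0 w6 c0 (w3 c0 w6).1 (meets_of w7 w7) x w7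
          | tail _ h2 ih => by_contra h3; exact hn _ _ ih h3 h2
      obtain ⟨D, hD, d1, d2⟩ := fr hr
      obtain ⟨s, hs, hy⟩ := List.mem_flatMap.1 hy
      obtain ⟨c1, hc1, hy⟩ := List.mem_flatMap.1 hy
      rw [List.mem_dedup] at hs
      obtain ⟨-, -, c2, hc2, -, e1, e2⟩ := rel_iff.1 hr
      have r3 : R3 F s D := ⟨c1, nb_mem d hc1, c2, hc2,
        (List.mem_filter.1 (List.mem_of_mem_take hc1)).2, meets_of (has_iff.2 hy) e1,
        meets_of e2 d2⟩
      have nm : ∀ a ∈ w, ¬ meets a D = true := fun a ha hm => hz' (mN a ha D hD hm z d2)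
      have nD : D ∉ w := fun hw => nm D hw (meets_of d2 d2)
      obtain ⟨l1, l2, rfl⟩ := List.append_of_mem hs
      have mem : ∀ a, a ∈ l1 ++ s :: D :: s :: l2 ↔ a = D ∨ a ∈ l1 ++ s :: l2 := fun a => by
        simp only [List.mem_append, List.mem_cons]; tauto
      refine ⟨l1 ++ s :: D :: s :: l2, ?_, ?_, fun c hc => ?_, fun a ha b hb hm => ?_, ?_,
        c0, (mem _).2 (.inr w6), w7⟩
      · rw [List.isChain_split] at w1 ⊢
        exact ⟨w1.1, List.isChain_cons_cons.2 ⟨r3, List.isChain_cons_cons.2 ⟨r3.symm, w1.2⟩⟩⟩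
      · simp only [List.length_append, List.length_cons] at w2 ⊢; omega
      · rcases (mem c).1 hc with rfl | hc
        · exact ⟨hD, d1⟩
        · exact w3 c hc
      · rcases (mem a).1 ha with ha | ha <;> rcases (mem b).1 hb with hb | hb
        · rw [ha, hb]
        · exact absurd (meets_symm (ha ▸ hm)) (nm b hb)
        · exact absurd (hb ▸ hm) (nm a ha)
        · exact w4 a ha b hb hm
      · have : (l1 ++ s :: D :: s :: l2).toFinset = insert D (l1 ++ s :: l2).toFinset := by
          ext a; rw [List.mem_toFinset, mem, Finset.mem_insert, List.mem_toFinset]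
        rw [this, Finset.card_insert_of_notMem (by rwa [List.mem_toFinset]), w5]
  obtain ⟨w, w1, w2, w3, w4, w5, -⟩ := key _ le_rfl
  exact no_walk hk h (fun c hc => (h1 c hc).2) h2 H w w1 w2 w3 w4 w5

/-- the unset part of a clause -/
def res (σ c : Cl V) : Cl V := c.filter fun p => !has σ p.1

theorem res_len (h : tr σ c = false) : c.length ≤ (res σ c).length + fl σ c := by
  rw [List.length_eq_countP_add_countP (fun p => !has σ p.1), res, List.countP_eq_length_filter]
  refine Nat.add_le_add_left (List.countP_mono_left fun p hp h1 => ?_) _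
  obtain ⟨⟨y, b⟩, hq, e⟩ := List.mem_map.1 (has_iff.1 (show has σ p.1 = true by simpa using h1))
  have h2 := List.any_eq_false.1 h p hp
  obtain ⟨z, b'⟩ := p
  dsimp only at e
  subst e
  cases b <;> cases b' <;> simp_all

theorem out_spec (hk : 0 < k) (h : 4 * d ^ 6 ≤ 2 ^ k)
    (h1 : ∀ c ∈ F, c.length = 2 * k ∧ (c.map Prod.fst).Nodup)
    (h2 : ∀ c ∈ F, F.countP (meets c) ≤ d) (hc : c ∈ F) :
    ∃ p ∈ c, decide (p.1 ∈ out k d F (sig k d F)) = p.2 := by
  obtain ⟨H, hz⟩ := sig_spec (k := k) (d := d) fun c hc => (h1 c hc).2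
  generalize sig k d F = σ at H hz
  have mo : ∀ p ∈ c, p.1 ∈ out k d F σ ↔ (p.1, true) ∈ σ ∨
      (has σ p.1 = false ∧ p.1 ∈ best k d F σ (cmp F σ p.1)) := fun p hp => by
    simp [out, mem_vs hc (has_iff.2 (List.mem_map_of_mem hp))]
  cases ht : tr σ c
  swap
  · obtain ⟨p, hp, h3⟩ := List.any_eq_true.1 ht
    rw [decide_eq_true_eq] at h3
    refine ⟨p, hp, ?_⟩
    have h4 : has σ p.1 = true := has_iff.2 (List.mem_map_of_mem h3)
    have h5 := mo p hp
    obtain ⟨y, b⟩ := p
    cases b
    · have : (y, true) ∉ σ := fun h6 => by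
        simpa using List.inj_on_of_nodup_map H.nd h3 h6 rfl
      simpa [h4, this] using h5
    · simpa [h3] using h5
  have rl : ∀ e ∈ F, tr σ e = false → k ≤ (res σ e).length := fun e he h3 => by
    have := res_len h3
    have := (H.fl e he).resolve_left (by simp [h3])
    have := (h1 e he).1
    omega
  have rr : ∀ e ∈ F, tr σ e = false → ∀ p ∈ res σ e, ∀ q ∈ res σ e, rel F σ p.1 q.1 = true :=
    fun e he h3 p hp q hq => by
      obtain ⟨a1, a2⟩ := List.mem_filter.1 hp
      obtain ⟨a3, a4⟩ := List.mem_filter.1 hq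
      exact rel_iff.2 ⟨by simpa using a2, by simpa using a4, e, he, h3,
        has_iff.2 (List.mem_map_of_mem a1), has_iff.2 (List.mem_map_of_mem a3)⟩
  obtain ⟨p0, hp0⟩ := List.exists_mem_of_length_pos (hk.trans_le (rl c hc ht))
  have hx := rr c hc ht p0 hp0 p0 hp0
  have h0 : has c p0.1 = true := has_iff.2 (List.mem_map_of_mem (List.mem_of_mem_filter hp0))
  have hd : 0 < d := (List.countP_pos_iff.2 ⟨c, hc, meets_of h0 h0⟩).trans_le (h2 c hc)
  have rm : ∀ a b : Cl V, meets (res σ a) (res σ b) = true → meets a b = true := fun a b hm => by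
    obtain ⟨z, z1, z2⟩ := meets_iff.1 hm
    exact meets_iff.2 ⟨z, (List.filter_sublist.map _).subset z1,
      (List.filter_sublist.map _).subset z2⟩
  obtain ⟨T, hT⟩ := lll_cnf k d hd
    ((Nat.mul_le_mul_left 4 (Nat.le_self_pow (by omega) d)).trans h)
    ((F.filter fun e => !tr σ e).map (res σ)) (fun e' he' => by
      obtain ⟨e, he, rfl⟩ := List.mem_map.1 he'
      obtain ⟨a1, a2⟩ := List.mem_filter.1 he
      exact ⟨rl e a1 (by simpa using a2), (h1 e a1).2.sublist (List.filter_sublist.map _)⟩)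
    (fun e' he' => by
      obtain ⟨e, he, rfl⟩ := List.mem_map.1 he'
      rw [List.countP_map]
      exact (List.filter_sublist.countP_le.trans (List.countP_mono_left fun b _ => rm e b)).trans
        (h2 e (List.mem_of_mem_filter he)))
  have un : ∀ z ∈ cmp F σ p0.1, has σ z = false := fun z hz => by
    rw [cmp_eq] at hz
    obtain ⟨y, -, hy⟩ := mem_grow.1 hz
    exact (rel_iff.1 hy).2.1
  have okb : ok F σ (cmp F σ p0.1) (best k d F σ (cmp F σ p0.1)) = true := by
    unfold best
    rw [List.take_of_length_le (cmp_len hk h h1 h2 H hz hx)]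
    rcases hf : (subs (cmp F σ p0.1)).find? (ok F σ (cmp F σ p0.1)) with _ | B
    · refine absurd (List.all_eq_true.2 fun e he => ?_) (List.find?_eq_none.1 hf
        ((cmp F σ p0.1).filter fun z => decide (z ∈ T)) (((subs_spec _).2 _).2 List.filter_sublist))
      cases h3 : tr σ e
      · cases h4 : (cmp F σ p0.1).any (has e)
        · simp
        obtain ⟨z, z1, z2⟩ := List.any_eq_true.1 h4
        obtain ⟨q, q1, rfl⟩ := List.mem_map.1 (has_iff.1 z2)
        obtain ⟨p, p1, p2⟩ := hT _ (List.mem_map_of_mem (List.mem_filter.2 ⟨he, by simp [h3]⟩))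
        have p3 : p.1 ∈ cmp F σ p0.1 := (mem_cmp hx).2 (((mem_cmp hx).1 z1).tail
          (rr e he h3 q (List.mem_filter.2 ⟨q1, by simp [un _ z1]⟩) p p1))
        simp only [Bool.not_true, Bool.or_self, Bool.false_or]
        exact List.any_eq_true.2 ⟨p, List.mem_of_mem_filter p1, by simp [p3, ← p2]⟩
      · simp
    · exact List.find?_some hf
  have h3 := List.all_eq_true.1 okb c hc
  have h4 : (cmp F σ p0.1).any (has c) = true :=
    List.any_eq_true.2 ⟨p0.1, (mem_cmp hx).2 .refl, h0⟩
  simp only [ht, h4, Bool.not_true, Bool.or_self, Bool.false_or, List.any_eq_true,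
    Bool.and_eq_true, decide_eq_true_eq] at h3
  obtain ⟨p, hp, h5, h6⟩ := h3
  have h7 := un _ h5
  refine ⟨p, hp, ?_⟩
  have h8 : (p.1, true) ∉ σ := fun h9 => has_false.1 h7 _ h9 rfl
  rw [← h6, cmp_congr (rr c hc ht p0 hp0 p (List.mem_filter.2 ⟨hp, by simp [h7]⟩))]
  simp [mo p hp, h7, h8]

end Sat

/-- a polynomial time solver for clause sets with few intersections -/
theorem sat_ex {V : Type} [Enc V] [DecidableEq V] (k d : ℕ) (hk : 0 < k) (h : 4 * d ^ 6 ≤ 2 ^ k) :
    ∃ f : List (List (V × Bool)) → List V, PT f ∧ ∀ F,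
      (∀ c ∈ F, c.length = 2 * k ∧ (c.map Prod.fst).Nodup) → (∀ c ∈ F, F.countP (meets c) ≤ d) →
      ∀ c ∈ F, ∃ p ∈ c, decide (p.1 ∈ f F) = p.2 :=
  ⟨fun F => Sat.out k d F (Sat.sig k d F), Sat.pt_out PT.id (Sat.pt_sig PT.id),
    fun _ h1 h2 _ hc => Sat.out_spec hk h h1 h2 hc⟩

end Pool.Agent.Lib.MP_6b7ffe_lc
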