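import Pool.Agent.Lib.MP_6b7ffe_lc.LS.IH0
import Pool.Agent.Lib.MP_6b7ffe_lc.LS.Sat

/-! Independent hitting sets in polynomial time. -/

set_option autoImplicit false

namespace Pool.Agent.Lib.MP_6b7ffe_lc

open Pool.Agent.Lib.Complexity

theorem ih_pow {V : Type} [Enc V] [DecidableEq V] (C a b c : ℕ) :
    ∃ i0 : ℕ, ∀ i, i0 ≤ i → ∃ f : List (V × V) × List (List V) → List V, PT f ∧
      ∀ (E : List (V × V)) (F : List (List V)),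
        (∀ v (T : Finset V), (∀ w ∈ T, (v, w) ∈ E ∨ (w, v) ∈ E) → T.card ≤ C) →
        (∀ S ∈ F, S.Nodup ∧ 2 ^ i ≤ c * S.length) →
        (∀ v, F.countP (fun S => decide (v ∈ S)) ≤ a * b ^ i) →
        (∀ e ∈ E, e.1 ∈ f (E, F) → e.2 ∈ f (E, F) → e.1 = e.2) ∧
          (∀ S ∈ F, ∃ v ∈ S, v ∈ f (E, F)) ∧ ∀ v ∈ f (E, F), ∃ S ∈ F, v ∈ S :=
  IH.ih_pow_of (fun k d hk h => sat_ex k d hk h) C a b c

end Pool.Agent.Lib.MP_6b7ffe_lc
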