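import Pool.Agent.Lib.Complexity.Bridge

/-!
Independent hitting sets from a solver for sparse clause systems.
Each round takes a greedy maximal matching of the live conflict edges; one end of every matching
edge survives.
-/

set_option autoImplicit false
set_option linter.unusedSectionVars false

namespace Pool.Agent.Lib.MP_6b7ffe_lc.IH

open Function Pool.Agent.Lib.Complexity

variable {V : Type} [DecidableEq V]

/-- two pairs share an end -/
def touch (m e : V × V) : Prop := m.1 = e.1 ∨ m.1 = e.2 ∨ m.2 = e.1 ∨ m.2 = e.2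

instance (m e : V × V) : Decidable (touch m e) := by unfold touch; infer_instance

def mtStep (W : List V) (M : List (V × V)) (e : V × V) : List (V × V) :=
  if e.1 ∈ W ∧ e.2 ∈ W ∧ e.1 ≠ e.2 ∧ ¬ ∃ m ∈ M, touch m e then e :: M else M

/-- greedy maximal matching among the pairs inside `W` -/
def mt (W : List V) (E : List (V × V)) : List (V × V) := E.foldl (mtStep W) []

def lit (M : List (V × V)) (w : V) : V × Bool :=
  (M.find? fun m => decide (m.2 = w)).elim (w, true) fun m => (m.1, false)

def chunks {α : Type} (K s : ℕ) (l : List α) : List (List α) :=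
  (List.range s).map fun j => (l.drop (j * K)).take K

/-- the longer of the two sign classes -/
def pick (l : List (V × Bool)) : List (V × Bool) :=
  if (l.filter fun p => !p.2).length ≤ (l.filter fun p => p.2).length then l.filter fun p => p.2
  else l.filter fun p => !p.2

def lits (M : List (V × V)) (W S : List V) : List (V × Bool) :=
  pick ((S.filter fun w => decide (w ∈ W)).map (lit M))

def clauses (k : ℕ) (M : List (V × V)) (F : List (List V)) (W : List V) :
    List (List (V × Bool)) :=
  F.flatMap fun S => chunks (2 * k) ((lits M W S).length / (2 * k)) (lits M W S)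

def round (g : List (List (V × Bool)) → List V) (k : ℕ) (E : List (V × V)) (F : List (List V))
    (W : List V) : List V :=
  W.filter fun w =>
    decide (decide ((lit (mt W E) w).1 ∈ g (clauses k (mt W E) F W)) = (lit (mt W E) w).2)

/-! ### the matching -/

structure Good (W : List V) (E M : List (V × V)) : Prop where
  mem : ∀ m ∈ M, m ∈ E ∧ m.1 ∈ W ∧ m.2 ∈ W ∧ m.1 ≠ m.2
  uniq : ∀ m ∈ M, ∀ m' ∈ M, touch m m' → m = m'
  maxi : ∀ e ∈ E, e.1 ∈ W → e.2 ∈ W → e.1 ≠ e.2 → ∃ m ∈ M, touch m e

theorem touch_symm {m e : V × V} (h : touch m e) : touch e m := by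
  unfold touch at *; tauto

theorem mt_good (W : List V) (E : List (V × V)) : Good W E (mt W E) := by
  unfold mt
  induction E using List.reverseRecOn with
  | nil => exact ⟨by simp, by simp, by simp⟩
  | append_singleton E e ih =>
    rw [List.foldl_append, List.foldl_cons, List.foldl_nil]
    generalize E.foldl (mtStep W) [] = M at ih ⊢
    unfold mtStep
    split_ifs with h
    · obtain ⟨h1, h2, h3, h4⟩ := h
      refine ⟨?_, ?_, ?_⟩
      · intro m hm
        rcases List.mem_cons.1 hm with rfl | hm
        · exact ⟨by simp, h1, h2, h3⟩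
        · have := ih.mem m hm
          exact ⟨by simp [this.1], this.2⟩
      · intro m hm m' hm' ht
        rcases List.mem_cons.1 hm with a | a <;> rcases List.mem_cons.1 hm' with b | b
        · rw [a, b]
        · exact absurd ⟨m', b, touch_symm (a ▸ ht)⟩ h4
        · exact absurd ⟨m, a, b ▸ ht⟩ h4
        · exact ih.uniq m a m' b ht
      · intro e' he' a b c
        rcases List.mem_append.1 he' with he' | he'
        · obtain ⟨m, hm, ht⟩ := ih.maxi e' he' a b c
          exact ⟨m, List.mem_cons_of_mem _ hm, ht⟩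
        · obtain rfl : e' = e := by simpa using he'
          exact ⟨e', by simp, Or.inl rfl⟩
    · refine ⟨fun m hm => ?_, ih.uniq, ?_⟩
      · have := ih.mem m hm
        exact ⟨by simp [this.1], this.2⟩
      · intro e' he' a b c
        rcases List.mem_append.1 he' with he' | he'
        · exact ih.maxi e' he' a b c
        · obtain rfl : e' = e := by simpa using he'
          by_contra hc
          exact h ⟨a, b, c, hc⟩

theorem lit_cases (M : List (V × V)) (w : V) :
    (lit M w = (w, true) ∧ ∀ m ∈ M, m.2 ≠ w) ∨ ∃ m ∈ M, m.2 = w ∧ lit M w = (m.1, false) := by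
  unfold lit
  cases h : M.find? fun m => decide (m.2 = w) with
  | none => exact Or.inl ⟨rfl, fun m hm => by simpa using List.find?_eq_none.1 h m hm⟩
  | some m =>
    exact Or.inr ⟨m, List.mem_of_find?_eq_some h, by simpa using List.find?_some h, rfl⟩

variable {W : List V} {E M : List (V × V)}

theorem Good.lit_snd (h : Good W E M) {m : V × V} (hm : m ∈ M) : lit M m.2 = (m.1, false) := by
  rcases lit_cases M m.2 with ⟨_, h1⟩ | ⟨m', hm', h1, h2⟩
  · exact absurd rfl (h1 m hm)
  · rw [h2, h.uniq m' hm' m hm (Or.inr (Or.inr (Or.inr h1)))]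

theorem Good.lit_fst (h : Good W E M) {m : V × V} (hm : m ∈ M) : lit M m.1 = (m.1, true) := by
  rcases lit_cases M m.1 with ⟨h1, _⟩ | ⟨m', hm', h1, _⟩
  · exact h1
  · have := h.uniq m' hm' m hm (Or.inr (Or.inr (Or.inl h1)))
    subst this
    exact absurd h1.symm (h.mem m' hm).2.2.2

theorem Good.lit_inj (h : Good W E M) : Injective (lit M) := by
  intro w w' e
  rcases lit_cases M w with ⟨h1, _⟩ | ⟨m, hm, h1, h2⟩ <;>
    rcases lit_cases M w' with ⟨h3, _⟩ | ⟨m', hm', h3, h4⟩
  · rw [h1, h3] at e; exact (Prod.mk.inj e).1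
  · rw [h1, h4] at e; simp at e
  · rw [h2, h3] at e; simp at e
  · rw [h2, h4] at e
    rw [← h1, ← h3, h.uniq m hm m' hm' (Or.inl (Prod.mk.inj e).1)]

/-- a variable belongs to at most two elements -/
theorem Good.fibre (h : Good W E M) (x : V) : ∃ y, ∀ w, (lit M w).1 = x → w = x ∨ w = y := by
  by_cases hx : ∃ y, lit M y = (x, false)
  · obtain ⟨y, hy⟩ := hx
    refine ⟨y, fun w hw => ?_⟩
    rcases lit_cases M w with ⟨h1, _⟩ | ⟨m, _, _, h2⟩
    · rw [h1] at hw; exact Or.inl hw
    · rw [h2] at hw
      exact Or.inr (h.lit_inj (by rw [h2, hy]; exact congrArg (·, false) hw))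
  · refine ⟨x, fun w hw => ?_⟩
    rcases lit_cases M w with ⟨h1, _⟩ | ⟨m, _, _, h2⟩
    · rw [h1] at hw; exact Or.inl hw
    · rw [h2] at hw
      exact absurd ⟨w, by rw [h2]; exact congrArg (·, false) hw⟩ hx

/-! ### chunks -/

theorem chunks_count {α : Type} (K s : ℕ) (l : List α) (P : α → Bool) :
    (chunks K s l).countP (fun c => c.any P) ≤ l.countP P := by
  have : (chunks K s l).countP (fun c => c.any P) ≤ (l.take (s * K)).countP P := by
    unfold chunks
    induction s with
    | zero => simp
    | succ s ih =>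
      rw [List.range_succ, List.map_append, List.countP_append, Nat.succ_mul, List.take_add,
        List.countP_append]
      refine Nat.add_le_add ih ?_
      simp only [List.map_cons, List.map_nil, List.countP_cons, List.countP_nil, zero_add]
      split_ifs with h
      · exact List.countP_pos_iff.2 (by simpa using h)
      · omega
  exact this.trans (List.take_sublist _ _).countP_le

theorem mem_chunks {α : Type} {K : ℕ} {l c : List α} (h : c ∈ chunks K (l.length / K) l) :
    c.length = K ∧ c.Sublist l := by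
  unfold chunks at h
  obtain ⟨j, hj, rfl⟩ := List.mem_map.1 h
  refine ⟨?_, (List.take_sublist _ _).trans (List.drop_sublist _ _)⟩
  have h1 : j + 1 ≤ l.length / K := List.mem_range.1 hj
  have h2 : (j + 1) * K ≤ l.length := (Nat.mul_le_mul_right K h1).trans (Nat.div_mul_le_self _ _)
  rw [List.length_take, List.length_drop, Nat.succ_mul] at *
  omega

theorem pick_sublist (l : List (V × Bool)) : (pick l).Sublist l := by
  unfold pick; split_ifs <;> exact List.filter_sublist

theorem pick_length (l : List (V × Bool)) : l.length ≤ 2 * (pick l).length := by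
  have := List.length_eq_length_filter_add (l := l) fun p => p.2
  unfold pick; split_ifs <;> omega

theorem pick_nodup {l : List (V × Bool)} (h : l.Nodup) : ((pick l).map Prod.fst).Nodup := by
  refine ((pick_sublist l).nodup h).map_on ?_
  intro p hp q hq e
  refine Prod.ext e ?_
  unfold pick at hp hq
  split_ifs at hp hq <;> simp only [List.mem_filter, Bool.not_eq_true'] at hp hq <;>
    rw [hp.2, hq.2]

theorem lits_count (M : List (V × V)) (W S : List V) (P : V × Bool → Bool) :
    (lits M W S).countP P ≤ S.countP fun w => decide (w ∈ W) && P (lit M w) := by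
  refine (pick_sublist _).countP_le.trans (le_of_eq ?_)
  rw [List.countP_map, List.countP_filter]
  exact List.countP_congr fun w _ => by simp [and_comm]

theorem countP_two {S : List V} (hS : S.Nodup) {P : V → Bool} {x y : V}
    (h : ∀ w, P w = true → w = x ∨ w = y) :
    S.countP P ≤ (if x ∈ S then 1 else 0) + if y ∈ S then 1 else 0 := by
  have h1 : S.countP P ≤ S.count x + S.count y := by
    clear hS
    induction S with
    | nil => simp
    | cons a S ih =>
      simp only [List.countP_cons, List.count_cons]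
      by_cases ha : P a = true
      · rcases h a ha with rfl | rfl <;> simp only [ha, beq_self_eq_true, if_true] <;> omega
      · rw [if_neg ha]; omega
  rwa [hS.count, hS.count] at h1

theorem countP_any_le {α β : Type} (c : List α) (G : List β) (P : α → β → Bool) {B : ℕ}
    (h : ∀ p ∈ c, G.countP (P p) ≤ B) :
    G.countP (fun e => c.any fun p => P p e) ≤ c.length * B := by
  induction c with
  | nil => simp
  | cons a c ih =>
    have h1 := h a (by simp)
    have h2 := ih fun p hp => h p (by simp [hp])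
    have h3 : G.countP (fun e => (a :: c).any fun p => P p e)
        ≤ G.countP (P a) + G.countP fun e => c.any fun p => P p e := by
      clear h1 h2 h ih
      induction G with
      | nil => simp
      | cons e G ih =>
        simp only [List.countP_cons, List.any_cons] at ih ⊢
        cases P a e <;> cases (c.any fun p => P p e) <;> simp <;> omega
    rw [List.length_cons, Nat.succ_mul]
    omega

theorem clauses_var (h : Good W E M) (k : ℕ) {F : List (List V)} (hF : ∀ S ∈ F, S.Nodup) {B : ℕ}
    (hB : ∀ v, F.countP (fun S => decide (v ∈ S)) ≤ B) (x : V) :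
    (clauses k M F W).countP (fun e => e.any fun q => decide (x = q.1)) ≤ 2 * B := by
  obtain ⟨y, hy⟩ := h.fibre x
  have : (clauses k M F W).countP (fun e => e.any fun q => decide (x = q.1))
      ≤ F.countP (fun S => decide (x ∈ S)) + F.countP fun S => decide (y ∈ S) := by
    clear hB
    unfold clauses
    induction F with
    | nil => simp
    | cons S F ih =>
      have h1 := ih fun S hS => hF S (by simp [hS])
      have h2 := (chunks_count (2 * k) ((lits M W S).length / (2 * k)) (lits M W S)
        fun q => decide (x = q.1)).trans ((lits_count M W S _).trans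
          (countP_two (hF S (by simp)) (x := x) (y := y) fun w hw => hy w (by
            simp only [Bool.and_eq_true, decide_eq_true_eq] at hw
            exact hw.2.symm)))
      simp only [List.flatMap_cons, List.countP_append, List.countP_cons, decide_eq_true_eq]
      omega
  have h1 := hB x
  have h2 := hB y
  omega

/-! ### one round -/

/-- the property of the clause solver that is used -/
def Solves (k d : ℕ) (g : List (List (V × Bool)) → List V) : Prop :=
  ∀ G : List (List (V × Bool)), (∀ c ∈ G, c.length = 2 * k ∧ (c.map Prod.fst).Nodup) →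
    (∀ c ∈ G, G.countP (fun e => c.any fun p => e.any fun q => decide (p.1 = q.1)) ≤ d) →
    ∀ c ∈ G, ∃ p ∈ c, decide (p.1 ∈ g G) = p.2

variable {g : List (List (V × Bool)) → List V} {k B : ℕ} {F : List (List V)}

theorem round_size (hg : Solves k (4 * k * B) g) (hk : 0 < k) (hF : ∀ S ∈ F, S.Nodup)
    (hB : ∀ v, F.countP (fun S => decide (v ∈ S)) ≤ B) (W : List V) (E : List (V × V))
    {S : List V} (hS : S ∈ F) {s : ℕ} (hs : 4 * k * s ≤ S.countP fun w => decide (w ∈ W)) :
    s ≤ S.countP fun w => decide (w ∈ round g k E F W) := by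
  have h := mt_good W E
  have hshape : ∀ c ∈ clauses k (mt W E) F W, c.length = 2 * k ∧ (c.map Prod.fst).Nodup := by
    intro c hc
    obtain ⟨S, hS, hc⟩ := List.mem_flatMap.1 hc
    obtain ⟨h1, h2⟩ := mem_chunks hc
    exact ⟨h1, (h2.map _).nodup (pick_nodup (((hF S hS).filter _).map h.lit_inj))⟩
  have hsat := hg _ hshape fun c hc => by
    refine (countP_any_le c _ (fun p (e : List (V × Bool)) => e.any fun q => decide (p.1 = q.1))
      fun p _ => clauses_var h k hF hB p.1).trans (le_of_eq ?_)
    rw [(hshape c hc).1]; ring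
  set T := g (clauses k (mt W E) F W) with hT
  have h1 := (chunks_count (2 * k) ((lits (mt W E) W S).length / (2 * k)) (lits (mt W E) W S)
    fun p => decide (decide (p.1 ∈ T) = p.2)).trans (lits_count _ W S _)
  rw [List.countP_eq_length.2 fun c hc => by
    obtain ⟨p, hp, e⟩ := hsat c (List.mem_flatMap.2 ⟨S, hS, hc⟩)
    exact List.any_eq_true.2 ⟨p, hp, decide_eq_true e⟩] at h1
  have h2 := pick_length ((S.filter fun w => decide (w ∈ W)).map (lit (mt W E)))
  rw [List.length_map, ← List.countP_eq_length_filter] at h2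
  have h3 : s ≤ (lits (mt W E) W S).length / (2 * k) := by
    rw [Nat.le_div_iff_mul_le (by omega)]
    unfold lits
    nlinarith
  rw [chunks, List.length_map, List.length_range] at h1
  refine h3.trans (h1.trans (le_of_eq (List.countP_congr fun w _ => ?_)))
  simp only [round, List.mem_filter, hT, Bool.and_eq_true, decide_eq_true_eq]

/-- number of live conflict neighbours -/
def deg (E : List (V × V)) (W : List V) (u : V) : ℕ :=
  (W.toFinset.filter fun w => (u, w) ∈ E ∨ (w, u) ∈ E).card

theorem deg_mono {W W' : List V} (h : ∀ w ∈ W', w ∈ W) (u : V) : deg E W' u ≤ deg E W u :=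
  Finset.card_le_card fun w hw => by
    simp only [Finset.mem_filter, List.mem_toFinset] at hw ⊢
    exact ⟨h w hw.1, hw.2⟩

theorem deg_lt {W W' : List V} (h : ∀ w ∈ W', w ∈ W) {u x : V} (hx : x ∈ W) (hx' : x ∉ W')
    (ha : (u, x) ∈ E ∨ (x, u) ∈ E) : deg E W' u < deg E W u :=
  Finset.card_lt_card ⟨fun w hw => by
    simp only [Finset.mem_filter, List.mem_toFinset] at hw ⊢
    exact ⟨h w hw.1, hw.2⟩, fun hs => hx' (by
      have := hs (show x ∈ W.toFinset.filter fun w => (u, w) ∈ E ∨ (w, u) ∈ E by simp [hx, ha])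
      simp only [Finset.mem_filter, List.mem_toFinset] at this
      exact this.1)⟩

theorem round_sub (w : V) (hw : w ∈ round g k E F W) : w ∈ W := (List.mem_filter.1 hw).1

theorem round_touch {m : V × V} (hm : m ∈ mt W E) {u : V} (hu : u ∈ round g k E F W)
    (h : m.1 = u ∨ m.2 = u) : deg E (round g k E F W) u < deg E W u := by
  have hG := mt_good W E
  obtain ⟨h0, h1, h2, _⟩ := hG.mem m hm
  have hne : ¬ (m.1 ∈ round g k E F W ∧ m.2 ∈ round g k E F W) := by
    rintro ⟨a, b⟩
    have a := (List.mem_filter.1 a).2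
    have b := (List.mem_filter.1 b).2
    rw [hG.lit_fst hm] at a
    rw [hG.lit_snd hm] at b
    simp only [decide_eq_true_eq] at a b
    rw [decide_eq_true a] at b
    exact absurd b (by simp)
  rcases h with rfl | rfl
  · exact deg_lt round_sub h2 (fun b => hne ⟨hu, b⟩) (Or.inl h0)
  · exact deg_lt round_sub h1 (fun a => hne ⟨a, hu⟩) (Or.inr h0)

theorem round_deg {e : V × V} (he : e ∈ E) (h1 : e.1 ∈ round g k E F W)
    (h2 : e.2 ∈ round g k E F W) (h3 : e.1 ≠ e.2) :
    deg E (round g k E F W) e.1 + deg E (round g k E F W) e.2 < deg E W e.1 + deg E W e.2 := by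
  obtain ⟨m, hm, ht⟩ := (mt_good W E).maxi e he (round_sub _ h1) (round_sub _ h2) h3
  have a := deg_mono (E := E) (round_sub (g := g) (k := k) (E := E) (F := F) (W := W)) e.1
  have b := deg_mono (E := E) (round_sub (g := g) (k := k) (E := E) (F := F) (W := W)) e.2
  rcases ht with ht | ht | ht | ht
  · have := round_touch hm h1 (Or.inl ht); omega
  · have := round_touch hm h2 (Or.inl ht); omega
  · have := round_touch hm h1 (Or.inr ht); omega
  · have := round_touch hm h2 (Or.inr ht); omega

/-! ### all rounds -/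

def hit (g : List (List (V × Bool)) → List V) (k R : ℕ) (x : List (V × V) × List (List V)) :
    List V := (round g k x.1 x.2)^[R] x.2.flatten

theorem hit_spec (hg : Solves k (4 * k * B) g) (hk : 0 < k) {C : ℕ}
    (hC : ∀ v (T : Finset V), (∀ w ∈ T, (v, w) ∈ E ∨ (w, v) ∈ E) → T.card ≤ C)
    (hF : ∀ S ∈ F, S.Nodup ∧ (4 * k) ^ (2 * C) ≤ S.length)
    (hB : ∀ v, F.countP (fun S => decide (v ∈ S)) ≤ B) :
    (∀ e ∈ E, e.1 ∈ hit g k (2 * C) (E, F) → e.2 ∈ hit g k (2 * C) (E, F) → e.1 = e.2) ∧
      (∀ S ∈ F, ∃ v ∈ S, v ∈ hit g k (2 * C) (E, F)) ∧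
      ∀ v ∈ hit g k (2 * C) (E, F), ∃ S ∈ F, v ∈ S := by
  have key : ∀ i j, i + j = 2 * C →
      (∀ e ∈ E, e.1 ∈ hit g k i (E, F) → e.2 ∈ hit g k i (E, F) → e.1 ≠ e.2 →
        deg E (hit g k i (E, F)) e.1 + deg E (hit g k i (E, F)) e.2 ≤ j) ∧
      (∀ S ∈ F, (4 * k) ^ j ≤ S.countP fun w => decide (w ∈ hit g k i (E, F))) ∧
      ∀ v ∈ hit g k i (E, F), v ∈ F.flatten := by
    intro i
    induction i with
    | zero =>
      intro j hj
      obtain rfl : j = 2 * C := by omega
      refine ⟨fun e _ _ _ _ => ?_, fun S hS => ?_, fun v hv => hv⟩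
      · have h1 : ∀ u, deg E (hit g k 0 (E, F)) u ≤ C := fun u =>
          hC u _ fun w hw => (Finset.mem_filter.1 hw).2
        have := h1 e.1
        have := h1 e.2
        omega
      · exact (hF S hS).2.trans (List.countP_eq_length.2 fun w hw =>
          decide_eq_true (List.mem_flatten.2 ⟨S, hS, hw⟩)).ge
    | succ i ih =>
      intro j hj
      obtain ⟨h1, h2, h3⟩ := ih (j + 1) (by omega)
      have e0 : hit g k (i + 1) (E, F) = round g k E F (hit g k i (E, F)) :=
        iterate_succ_apply' _ _ _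
      rw [e0]
      refine ⟨fun e he a b c => ?_, fun S hS => ?_, fun v hv => h3 v (round_sub v hv)⟩
      · have := h1 e he (round_sub _ a) (round_sub _ b) c
        have := round_deg he a b c
        omega
      · refine round_size hg hk (fun S hS => (hF S hS).1) hB _ E hS ?_
        rw [← pow_succ']
        exact h2 S hS
  obtain ⟨h1, h2, h3⟩ := key (2 * C) 0 rfl
  refine ⟨fun e he a b => ?_, fun S hS => ?_, fun v hv => List.mem_flatten.1 (h3 v hv)⟩
  · by_contra c
    have h4 := h1 e he a b c
    have h5 : 0 < deg E (hit g k (2 * C) (E, F)) e.1 :=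
      Finset.card_pos.2 ⟨e.2, by simp [b, he]⟩
    omega
  · obtain ⟨v, hv, h⟩ := List.countP_pos_iff.1 (h2 S hS)
    exact ⟨v, hv, of_decide_eq_true h⟩

/-! ### polynomial time -/

section
variable [Enc V] {α : Type} [Enc α]

@[fun_prop] theorem pt_mt {W : α → List V} {E : α → List (V × V)} (hW : PT W) (hE : PT E) :
    PT fun a => mt (W a) (E a) := by
  unfold mt
  refine PT.foldl_add' (f := fun a => mtStep (W a)) (g := fun _ e => sz e + 1) hE (by fun_prop)
    ?_ (by fun_prop) fun a x b => ?_
  · unfold mtStep touch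
    fun_prop
  · unfold mtStep
    split_ifs
    · rw [sz_cons]; omega
    · omega

@[fun_prop] theorem pt_lit {M : α → List (V × V)} {w : α → V} (hM : PT M) (hw : PT w) :
    PT fun a => lit (M a) (w a) := by
  unfold lit; fun_prop

@[fun_prop] theorem pt_lits {M : α → List (V × V)} {W S : α → List V} (hM : PT M) (hW : PT W)
    (hS : PT S) : PT fun a => lits (M a) (W a) (S a) := by
  have : PT (pick : List (V × Bool) → _) := by unfold pick; fun_prop
  unfold lits; fun_prop

@[fun_prop] theorem pt_clauses (k : ℕ) {M : α → List (V × V)} {F : α → List (List V)}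
    {W : α → List V} (hM : PT M) (hF : PT F) (hW : PT W) :
    PT fun a => clauses k (M a) (F a) (W a) := by
  unfold clauses chunks; fun_prop

theorem pt_hit (hg : PT g) (k R : ℕ) : PT (hit g k R) := by
  induction R with
  | zero => exact (PT.flatten (PT.snd PT.id)).of_eq fun _ => rfl
  | succ R ih =>
    have : PT fun x : List (V × V) × List (List V) => round g k x.1 x.2 (hit g k R x) := by
      unfold round; fun_prop
    exact this.of_eq fun x => (iterate_succ_apply' _ _ _).symm

end

/-! ### the constants -/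

theorem poly_le_pow (c e : ℕ) : ∃ i0, ∀ i, i0 ≤ i → c * (i + 1) ^ e ≤ 2 ^ i := by
  have h := tendsto_pow_const_div_const_pow_of_one_lt e (r := 2) (by norm_num)
  have h1 := h.eventually (gt_mem_nhds (show (0 : ℝ) < 1 / (2 * c + 1) by positivity))
  obtain ⟨i0, hi⟩ := Filter.eventually_atTop.1 h1
  refine ⟨i0, fun i hi0 => ?_⟩
  have h2 := hi (i + 1) (by omega)
  rw [div_lt_div_iff₀ (by positivity) (by positivity), one_mul, pow_succ] at h2
  have h3 : (0 : ℝ) ≤ ((i + 1 : ℕ) : ℝ) ^ e := by positivity
  have h4 : (c : ℝ) * ((i + 1 : ℕ) : ℝ) ^ e ≤ 2 ^ i := by nlinarith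
  exact_mod_cast h4

theorem consts (C a b c : ℕ) : ∃ i0, ∀ i, i0 ≤ i → ∃ k, 0 < k ∧
    4 * (4 * k * (a * b ^ i)) ^ 6 ≤ 2 ^ k ∧ c * (4 * k) ^ (2 * C) ≤ 2 ^ i := by
  obtain ⟨i1, h1⟩ := poly_le_pow (c * (4 * (6 * b + 1)) ^ (2 * C)) (2 * C)
  obtain ⟨i2, h2⟩ := poly_le_pow (4 * (4 * (6 * b + 1) * a) ^ 6) 6
  refine ⟨max i1 i2, fun i hi => ⟨(6 * b + 1) * (i + 1), by positivity, ?_, ?_⟩⟩
  · have h3 := h2 i (le_of_max_le_right hi)
    have h4 : b ^ i ≤ 2 ^ (b * i) := by
      rw [pow_mul]; exact Nat.pow_le_pow_left Nat.lt_two_pow_self.le i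
    calc 4 * (4 * ((6 * b + 1) * (i + 1)) * (a * b ^ i)) ^ 6
        = 4 * (4 * (6 * b + 1) * a) ^ 6 * (i + 1) ^ 6 * (b ^ i) ^ 6 := by ring
      _ ≤ 2 ^ i * (2 ^ (b * i)) ^ 6 := Nat.mul_le_mul h3 (Nat.pow_le_pow_left h4 6)
      _ = 2 ^ (i + b * i * 6) := by rw [← pow_mul, ← pow_add]
      _ ≤ 2 ^ ((6 * b + 1) * (i + 1)) := Nat.pow_le_pow_right (by omega) (by nlinarith)
  · refine le_trans (le_of_eq ?_) (h1 i (le_of_max_le_left hi))
    rw [← mul_assoc 4, mul_pow (4 * (6 * b + 1)), mul_assoc]

theorem ih_pow_of [Enc V] (hsat : ∀ k d : ℕ, 0 < k → 4 * d ^ 6 ≤ 2 ^ k →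
      ∃ g : List (List (V × Bool)) → List V, PT g ∧ Solves k d g) (C a b c : ℕ) :
    ∃ i0 : ℕ, ∀ i, i0 ≤ i → ∃ f : List (V × V) × List (List V) → List V, PT f ∧
      ∀ (E : List (V × V)) (F : List (List V)),
        (∀ v (T : Finset V), (∀ w ∈ T, (v, w) ∈ E ∨ (w, v) ∈ E) → T.card ≤ C) →
        (∀ S ∈ F, S.Nodup ∧ 2 ^ i ≤ c * S.length) →
        (∀ v, F.countP (fun S => decide (v ∈ S)) ≤ a * b ^ i) →
        (∀ e ∈ E, e.1 ∈ f (E, F) → e.2 ∈ f (E, F) → e.1 = e.2) ∧
          (∀ S ∈ F, ∃ v ∈ S, v ∈ f (E, F)) ∧ ∀ v ∈ f (E, F), ∃ S ∈ F, v ∈ S := by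
  obtain ⟨i0, h0⟩ := consts C a b c
  refine ⟨i0, fun i hi => ?_⟩
  obtain ⟨k, hk, h1, h2⟩ := h0 i hi
  obtain ⟨g, hg, hs⟩ := hsat k _ hk h1
  refine ⟨hit g k (2 * C), pt_hit hg k _, fun E F hC hF hB =>
    hit_spec hs hk hC (fun S hS => ⟨(hF S hS).1, ?_⟩) hB⟩
  have h3 := (hF S hS).2
  refine Nat.le_of_mul_le_mul_left (h2.trans h3) (Nat.pos_of_ne_zero ?_)
  rintro rfl
  have := Nat.two_pow_pos i
  omega

end Pool.Agent.Lib.MP_6b7ffe_lc.IH
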