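import Pool.Agent.Lib.MP_6b7ffe_lc.Orient

set_option autoImplicit false

namespace Pool.Agent.Lib.MP_6b7ffe_lc

open Function Pool.Agent.Lib.Complexity

/-- the edges, directed upwards -/
def oBase (A : Mat) : Arcs :=
  ((List.range A.length).flatMap fun u => (List.range A.length).map fun w => (u, w)).filter
    fun p => decide (p.1 < p.2) && adj A p.1 p.2

def oRev (D : Arcs) : Arcs := D.map fun p => (p.2, p.1)

/-- an orientation with at most three arcs out of and into each vertex -/
def oOri (A : Mat) : Arcs :=
  red A.length (List.replicate A.length 3)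
    (oRev (red A.length (List.replicate A.length 3) (oBase A)))

def oItems (A : Mat) : List Itm := (oOri A).map fun p => ((p.1, false), p.2)

/-- the colour of the dart from u to w -/
def ocol (A : Mat) (u w : ℕ) : Fin 3 :=
  if (u, w) ∈ oOri A then colOf (oItems A) ((u, false), w) + 1
  else colOf (oItems A) ((w, false), u) + 2

section
variable {α : Type} [Enc α] {A : α → Mat} {u w : α → ℕ}

@[fun_prop] theorem pt_oOri (hA : PT A) : PT fun x => oOri (A x) := by
  unfold oOri oRev oBase; fun_prop

@[fun_prop] theorem pt_oItems (hA : PT A) : PT fun x => oItems (A x) := by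
  unfold oItems; fun_prop

@[fun_prop] theorem pt_ocol (hA : PT A) (hu : PT u) (hw : PT w) :
    PT fun x => ocol (A x) (u x) (w x) := by
  have h1 := pt_oOri hA
  have h2 := pt_oItems hA
  have h3 : PT fun x => colOf (oItems (A x)) ((u x, false), w x) + 1 :=
    pt_fin_add (pt_colOf h2 (by fun_prop)) (PT.const _)
  have h4 : PT fun x => colOf (oItems (A x)) ((w x, false), u x) + 2 :=
    pt_fin_add (pt_colOf h2 (by fun_prop)) (PT.const _)
  have h5 : ∀ D : α → Arcs, PT D → PT fun x => decide ((u x, w x) ∈ D x) := fun D hD => by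
    fun_prop
  exact PT.ite (h5 _ h1) h3 h4

end

/-- number of arcs at v -/
def oTot (D : Arcs) (v : ℕ) : ℕ := D.countP fun p => decide (p.1 = v ∨ p.2 = v)

theorem outd_oRev (D : Arcs) (v : ℕ) : outd (oRev D) v = D.countP fun p => decide (p.2 = v) := by
  simp [outd, oRev, List.countP_map, Function.comp_def]

theorem oTot_eq {n : ℕ} {D : Arcs} (hw : Within n D) (v : ℕ) :
    oTot D v = outd D v + outd (oRev D) v := by
  rw [outd_oRev]
  unfold oTot outd
  induction D with
  | nil => simp
  | cons p D ih =>
    have h1 := (hw p (by simp)).2.2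
    have := ih fun q hq => hw q (by simp [hq])
    simp only [List.countP_cons, this, decide_eq_true_eq]
    split_ifs <;> omega

theorem oTot_nm {D D' : Arcs} (hp : (D'.map nm).Perm (D.map nm)) (v : ℕ) :
    oTot D' v = oTot D v :=
  countP_nm hp _ fun p => by
    refine decide_eq_decide.2 ?_
    simp only [nm]; omega

theorem nm_oRev (D : Arcs) : (oRev D).map nm = D.map nm := by
  simp only [oRev, List.map_map]
  exact List.map_congr_left fun p _ => nm_swap p

theorem within_oRev {n : ℕ} {D : Arcs} (hw : Within n D) : Within n (oRev D) := by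
  intro p hp
  obtain ⟨q, hq, rfl⟩ := List.mem_map.1 hp
  have := hw q hq
  exact ⟨this.2.1, this.1, this.2.2.symm⟩

theorem cap_three {n v : ℕ} (hv : v < n) : cap (List.replicate n 3) v = 3 := by
  simp [cap, List.getD_eq_getElem?_getD, hv]

theorem cap_three_le (n v : ℕ) : cap (List.replicate n 3) v ≤ 3 := by
  rcases lt_or_ge v n with h | h
  · exact (cap_three h).le
  · simp [cap, List.getD_eq_getElem?_getD, h]

theorem red_three {n : ℕ} {D : Arcs} (h0 : (D.map nm).Nodup) (hw : Within n D)
    (ht : ∀ v, oTot D v ≤ 6) (v : ℕ) : outd (red n (List.replicate n 3) D) v ≤ 3 := by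
  rcases (red_spec (List.replicate n 3) h0 hw).2.2.2.2 with h | ⟨S, hS, h⟩
  · exact (h v).trans (cap_three_le n v)
  · exfalso
    have e1 : ∑ v ∈ S, cap (List.replicate n 3) v = 3 * S.card := by
      rw [Finset.sum_congr rfl fun v hv => cap_three (Finset.mem_range.1 (hS hv))]
      simp [mul_comm]
    have e2 : ∑ v ∈ S, oTot D v ≤ 6 * S.card := by
      have := Finset.sum_le_card_nsmul S (oTot D) 6 fun v _ => ht v
      simpa [mul_comm] using this
    have e3 : ∑ v ∈ S, oTot D v = ∑ v ∈ S, outd D v + ∑ v ∈ S, outd (oRev D) v := by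
      rw [← Finset.sum_add_distrib]
      exact Finset.sum_congr rfl fun v _ => oTot_eq hw v
    rw [sum_outd, sum_outd] at e3
    have e4 : ins D S ≤ D.countP fun p => decide (p.1 ∈ S) :=
      List.countP_mono_left fun p _ h => by
        simp only [decide_eq_true_eq] at h ⊢; exact h.1
    have e5 : ins D S ≤ (oRev D).countP fun p => decide (p.1 ∈ S) := by
      rw [oRev, List.countP_map]
      exact List.countP_mono_left fun p _ h => by
        simp only [decide_eq_true_eq, Function.comp] at h ⊢; exact h.2
    omega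

variable {A : Mat}

theorem mem_oBase {p : ℕ × ℕ} :
    p ∈ oBase A ↔ p.1 < A.length ∧ p.2 < A.length ∧ p.1 < p.2 ∧ adj A p.1 p.2 = true := by
  obtain ⟨a, b⟩ := p
  simp [oBase, and_assoc]

theorem oBase_nodup : (oBase A).Nodup :=
  (List.Nodup.product List.nodup_range List.nodup_range).filter _

theorem nm_oBase : (oBase A).map nm = oBase A := by
  refine (List.map_congr_left fun p hp => ?_).trans (List.map_id' _)
  have := (mem_oBase.1 hp).2.2.1
  obtain ⟨a, b⟩ := p
  simp only [nm, Prod.mk.injEq] at this ⊢
  omega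

theorem within_oBase : Within A.length (oBase A) := fun _ hp =>
  have := mem_oBase.1 hp
  ⟨this.1, this.2.1, this.2.2.1.ne⟩

theorem oTot_oBase (hs : ∀ u v, u < A.length → v < A.length → adj A u v = adj A v u)
    (hd : ∀ v, v < A.length → ((List.range A.length).countP fun u => adj A v u) ≤ 6) (v : ℕ) :
    oTot (oBase A) v ≤ 6 := by
  rcases lt_or_ge v A.length with hv | hv
  · refine le_trans ?_ (hd v hv)
    unfold oTot
    rw [List.countP_eq_length_filter, List.countP_eq_length_filter,
      ← List.toFinset_card_of_nodup (oBase_nodup.filter _),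
      ← List.toFinset_card_of_nodup (List.nodup_range.filter _)]
    refine Finset.card_le_card_of_injOn (fun p => if p.1 = v then p.2 else p.1) ?_ ?_
    · rintro ⟨a, b⟩ hp
      simp only [Finset.mem_coe, List.mem_toFinset, List.mem_filter, mem_oBase, List.mem_range,
        decide_eq_true_eq] at hp ⊢
      obtain ⟨⟨h1, h2, h3, h4⟩, h5⟩ := hp
      by_cases e : a = v
      · rw [if_pos e, ← e]; exact ⟨h2, h4⟩
      · have e' : b = v := h5.resolve_left e
        rw [if_neg e, ← e', hs b a h2 h1]; exact ⟨h1, h4⟩
    · rintro ⟨a, b⟩ hp ⟨c, d⟩ hq e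
      simp only [Finset.mem_coe, List.mem_toFinset, List.mem_filter, mem_oBase,
        decide_eq_true_eq] at hp hq
      have h3 := hp.1.2.2.1
      have h4 := hq.1.2.2.1
      have h5 := hp.2
      have h6 := hq.2
      simp only [Prod.mk.injEq] at e ⊢
      split_ifs at e <;> omega
  · have : oTot (oBase A) v = 0 := by
      unfold oTot
      rw [List.countP_eq_zero]
      intro p hp
      have := mem_oBase.1 hp
      simp only [decide_eq_true_eq]
      omega
    omega

theorem oOri_spec (hs : ∀ u v, u < A.length → v < A.length → adj A u v = adj A v u)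
    (hd : ∀ v, v < A.length → ((List.range A.length).countP fun u => adj A v u) ≤ 6) :
    ((oOri A).map nm).Perm (oBase A) ∧ (∀ v, outd (oOri A) v ≤ 3) ∧
      ∀ v, outd (oRev (oOri A)) v ≤ 3 := by
  have n0 : ((oBase A).map nm).Nodup := by rw [nm_oBase]; exact oBase_nodup
  have t0 := oTot_oBase hs hd
  obtain ⟨p1, w1, -⟩ := red_spec (List.replicate A.length 3) n0 within_oBase
  have o1 := red_three n0 within_oBase t0
  set D1 := red A.length (List.replicate A.length 3) (oBase A) with hD1
  have n1 : ((oRev D1).map nm).Nodup := by rw [nm_oRev]; exact p1.nodup_iff.2 n0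
  have w1' := within_oRev w1
  have t1 : ∀ v, oTot (oRev D1) v = oTot (oBase A) v := fun v =>
    oTot_nm (by rw [nm_oRev]; exact p1) v
  obtain ⟨p2, w2, -, lo, -⟩ := red_spec (List.replicate A.length 3) n1 w1'
  have o2 := red_three n1 w1' fun v => (t1 v).trans_le (t0 v)
  refine ⟨?_, o2, fun v => ?_⟩
  · rw [nm_oRev] at p2
    have := p2.trans p1
    rwa [nm_oBase] at this
  · rcases lt_or_ge v A.length with hv | hv
    · have a1 := lo v
      rw [cap_three hv] at a1
      have a2 := oTot_eq w2 v
      have a3 := oTot_nm p2 v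
      have a4 := oTot_eq w1 v
      have a5 := oTot_nm p1 v
      have a6 := t1 v
      have a7 := t0 v
      have a8 := o1 v
      unfold oOri
      rw [← hD1]
      omega
    · have : outd (oRev (oOri A)) v = 0 := by
        rw [outd_oRev, List.countP_eq_zero]
        intro p hp
        have := (w2 p hp).2.1
        simp only [decide_eq_true_eq]
        omega
      omega

theorem oOri_iff (hs : ∀ u v, u < A.length → v < A.length → adj A u v = adj A v u)
    (hi : ∀ u, u < A.length → adj A u u = false)
    (hd : ∀ v, v < A.length → ((List.range A.length).countP fun u => adj A v u) ≤ 6) {u w : ℕ}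
    (hu : u < A.length) (hw : w < A.length) (h : adj A u w = true) :
    (w, u) ∈ oOri A ↔ (u, w) ∉ oOri A := by
  obtain ⟨p, -, -⟩ := oOri_spec hs hd
  have ne : u ≠ w := fun e => by rw [e, hi w hw] at h; exact absurd h (by simp)
  constructor
  · intro h1 h2
    have := List.inj_on_of_nodup_map (p.nodup_iff.2 oBase_nodup) h1 h2 (nm_swap (u, w))
    exact ne (Prod.mk.inj this).2
  · intro h2
    have m : nm (u, w) ∈ oBase A := by
      rw [mem_oBase]
      rcases lt_or_gt_of_ne ne with l | l
      · simp [nm, l.le, hu, hw, l, h]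
      · simp [nm, l.le, hu, hw, l, ← hs u w hu hw, h]
    obtain ⟨q, hq, e⟩ := List.mem_map.1 (p.mem_iff.2 m)
    rcases nm_eq e with rfl | rfl
    · exact absurd hq h2
    · exact hq

theorem ocol_spec (hs : ∀ u v, u < A.length → v < A.length → adj A u v = adj A v u)
    (hi : ∀ u, u < A.length → adj A u u = false)
    (hd : ∀ v, v < A.length → ((List.range A.length).countP fun u => adj A v u) ≤ 6) :
    (∀ u w, u < A.length → w < A.length → adj A u w = true → ocol A u w ≠ ocol A w u) ∧
    (∀ u w x, u < A.length → w < A.length → x < A.length → adj A u w = true → adj A u x = true →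
      ocol A u w = ocol A u x → ocol A w u = ocol A x u → w = x) := by
  obtain ⟨-, o1, o2⟩ := oOri_spec hs hd
  have l1 : ∀ x : ℕ × Bool, ((oItems A).filter fun p => decide (p.1 = x)).length ≤ 3 := fun x => by
    refine le_trans ?_ (o1 x.1)
    rw [← List.countP_eq_length_filter, oItems, List.countP_map]
    exact List.countP_mono_left fun p _ h => by
      simp only [decide_eq_true_eq, Function.comp] at h ⊢; rw [← h]
  have l2 : ∀ y : ℕ, ((oItems A).filter fun p => decide (p.2 = y)).length ≤ 3 := fun y => by
    refine le_trans (le_of_eq ?_) (o2 y)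
    rw [← List.countP_eq_length_filter, oItems, List.countP_map, outd_oRev]
    rfl
  have mi : ∀ {a b : ℕ}, (a, b) ∈ oOri A → ((a, false), b) ∈ oItems A := fun h =>
    List.mem_map.2 ⟨_, h, rfl⟩
  have f1 : ∀ c : Fin 3, c + 1 ≠ c + 2 := by decide
  have f2 : ∀ c d : Fin 3, c + 1 = d + 2 → c + 2 = d + 1 → False := by decide
  have f3 : ∀ c d : Fin 3, c + 1 = d + 1 → c = d := by decide
  have f4 : ∀ c d : Fin 3, c + 2 = d + 2 → c = d := by decide
  refine ⟨fun u w hu hw h => ?_, fun u w x hu hw hx h h' e1 e2 => ?_⟩
  · have k := oOri_iff hs hi hd hu hw h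
    unfold ocol
    by_cases c : (u, w) ∈ oOri A
    · rw [if_pos c, if_neg fun c' => k.1 c' c]; exact f1 _
    · rw [if_neg c, if_pos (k.2 c)]; exact (f1 _).symm
  · have k := oOri_iff hs hi hd hu hw h
    have k' := oOri_iff hs hi hd hu hx h'
    unfold ocol at e1 e2
    by_cases c : (u, w) ∈ oOri A <;> by_cases c' : (u, x) ∈ oOri A
    · rw [if_pos c, if_pos c'] at e1
      exact (Prod.mk.inj (colOf_proper l1 l2 (mi c) (mi c') (Or.inl rfl) (f3 _ _ e1))).2
    · rw [if_pos c, if_neg c'] at e1
      rw [if_neg fun a => k.1 a c, if_pos (k'.2 c')] at e2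
      exact (f2 _ _ e1 e2).elim
    · rw [if_neg c, if_pos c'] at e1
      rw [if_pos (k.2 c), if_neg fun a => k'.1 a c'] at e2
      exact (f2 _ _ e1.symm e2.symm).elim
    · rw [if_neg c, if_neg c'] at e1
      exact (Prod.mk.inj (Prod.mk.inj (colOf_proper l1 l2 (mi (k.2 c)) (mi (k'.2 c')) (Or.inr rfl)
        (f4 _ _ e1))).1).1

end Pool.Agent.Lib.MP_6b7ffe_lc
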