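import Pool.Agent.Lib.MP_6b7ffe_lc.LS.Base
import Pool.Agent.Lib.MP_6b7ffe_lc.LS.OCol

set_option autoImplicit false

namespace Pool.Agent.Lib.MP_6b7ffe_lc.LS

open Function Pool.Agent.Lib.Complexity

/-- the matrix of the colours of the darts -/
def ocMat (A : Mat) : Prt :=
  (List.range A.length).map fun u => (List.range A.length).map fun w => ocol A u w

theorem oc_pt : PT ocMat := by
  have h : PT fun p : (Mat × ℕ) × ℕ => ocol p.1.1 p.1.2 p.2 := by fun_prop
  exact PT.map (by fun_prop) (PT.map (f := fun (p : Mat × ℕ) w => ocol p.1 p.2 w) (by fun_prop) h)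

theorem oc_prt {A : Mat} {u w : ℕ} (hu : u < A.length) (hw : w < A.length) :
    prt (ocMat A) u w = ocol A u w := by
  simp [prt, ocMat, hu, hw]

theorem oc_pack : ∃ c : Mat → Prt, PT c ∧ ∀ A : Mat, Gr A →
    (∀ u w, adj A u w = true → prt (c A) u w ≠ prt (c A) w u) ∧
    ∀ u w w', adj A u w = true → adj A u w' = true → prt (c A) u w = prt (c A) u w' →
      prt (c A) w u = prt (c A) w' u → w = w' := by
  refine ⟨ocMat, oc_pt, fun A G => ?_⟩
  obtain ⟨h1, h2⟩ := ocol_spec (A := A) (fun u v _ _ => G.symm u v) (fun u _ => G.irr u)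
    fun v _ => by rw [List.countP_eq_length_filter]; exact G.deg v
  refine ⟨fun u w h => ?_, fun u w w' h h' => ?_⟩
  · obtain ⟨a, b⟩ := G.rng _ _ h
    rw [oc_prt a b, oc_prt b a]
    exact h1 u w a b h
  · obtain ⟨a, b⟩ := G.rng _ _ h
    obtain ⟨-, c⟩ := G.rng _ _ h'
    rw [oc_prt a b, oc_prt b a, oc_prt a c, oc_prt c a]
    exact h2 u w w' a b c h h'

end Pool.Agent.Lib.MP_6b7ffe_lc.LS
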