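import Pool.Agent.Lib.MP_6b7ffe_lc.LS.RR
import Pool.Agent.Lib.MP_6b7ffe_lc.LS.Defs

set_option autoImplicit false

namespace Pool.Agent.Lib.MP_6b7ffe_lc.LS

open Finset

open Classical in
theorem rrf_reg {n d : ℕ} (G : SimpleGraph (Fin n)) : Reg G d ↔ G.IsRegularOfDegree d := by
  refine forall_congr' fun v => ?_
  rw [← SimpleGraph.card_neighborFinset_eq_degree, ← Set.ncard_coe_finset,
    SimpleGraph.coe_neighborFinset]

open Classical in
theorem rr_share (d K : ℕ) : ∃ C : ℕ, ∀ n : ℕ,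
    n * {G : SimpleGraph (Fin n) | Reg G d ∧ ¬ LocSparse G (3/2) K}.ncard ≤
      C * {G : SimpleGraph (Fin n) | Reg G d}.ncard := by
  obtain ⟨C, hC⟩ := rr_count d K
  refine ⟨C, fun n => ?_⟩
  have e0 : {G : SimpleGraph (Fin n) | Reg G d}.ncard =
      Nat.card {G : SimpleGraph (Fin n) // G.IsRegularOfDegree d} := by
    rw [← Nat.card_coe_set_eq]
    exact Nat.card_congr (Equiv.subtypeEquivRight fun G => rrf_reg G)
  rw [e0]
  refine le_trans (Nat.mul_le_mul_left n ?_) (hC n)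
  rw [← Nat.card_coe_set_eq]
  refine Nat.card_le_card_of_injective (fun G => ⟨G.1, (rrf_reg _).1 G.2.1, ?_⟩) fun G H e => ?_
  · by_contra hb
    refine G.2.2 fun T hT hK => ?_
    have e : {e | e ∈ G.1.edgeSet ∧ ∀ v ∈ e, v ∈ T} =
        ((G.1.edgeFinset.filter fun e => ∀ v ∈ e, v ∈ T : Finset (Sym2 (Fin n))) : Set _) := by
      ext e; simp
    rw [e, Set.ncard_coe_finset]
    exact rr_sparse G.1 T hT _ (fun e he => ⟨SimpleGraph.mem_edgeFinset.1 (mem_filter.1 he).1,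
      (mem_filter.1 he).2⟩) (not_lt.1 fun h => hb ⟨T, hK, h⟩)
  · exact Subtype.ext (congrArg (fun x => x.1) e)

theorem rr (K : ℕ) (ε : ℝ) (hε : 0 < ε) : ∃ n0 : ℕ, ∀ n ≥ n0, (({G : SimpleGraph (Fin n) | Reg G 6 ∧ ¬ LocSparse G (3/2) K}.ncard : ℕ) : ℝ) ≤ ε * (({G : SimpleGraph (Fin n) | Reg G 6}.ncard : ℕ) : ℝ) := by
  obtain ⟨C, hC⟩ := rr_share 6 K
  obtain ⟨m, hm⟩ := exists_nat_ge ((C : ℝ) / ε)
  refine ⟨m + 1, fun n hn => ?_⟩
  have h1 := hC n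
  generalize {G : SimpleGraph (Fin n) | Reg G 6 ∧ ¬ LocSparse G (3/2) K}.ncard = b at h1 ⊢
  generalize {G : SimpleGraph (Fin n) | Reg G 6}.ncard = r at h1 ⊢
  have k1 : (n : ℝ) * b ≤ C * r := by exact_mod_cast h1
  have k2 : (m : ℝ) + 1 ≤ n := by exact_mod_cast hn
  have k0 : (0 : ℝ) ≤ m := Nat.cast_nonneg m
  have k3 : (C : ℝ) ≤ ε * n := by
    rw [div_le_iff₀ hε] at hm
    nlinarith
  have k4 : (0 : ℝ) ≤ r := Nat.cast_nonneg r
  refine le_of_mul_le_mul_left (a := (n : ℝ)) ?_ (by linarith)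
  nlinarith [mul_le_mul_of_nonneg_right k3 k4]

/-- the set of 6-regular graphs on n vertices is not empty for n at least 7 -/
theorem rr_pos (n : ℕ) (hn : 7 ≤ n) : 0 < {G : SimpleGraph (Fin n) | Reg G 6}.ncard := by
  obtain ⟨m, rfl⟩ : ∃ m, n = m + 7 := ⟨n - 7, by omega⟩
  obtain ⟨G, hG⟩ := rr_exists m
  exact (Set.ncard_pos (Set.toFinite _)).2 ⟨G, (rrf_reg G).2 hG⟩

end Pool.Agent.Lib.MP_6b7ffe_lc.LS
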