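import Pool.Agent.Lib.MP_6b7ffe_lc.LS.Asm
import Pool.Agent.Lib.MP_6b7ffe_lc.LS.IH
import Pool.Agent.Lib.MP_6b7ffe_lc.LS.OC
import Pool.Agent.Lib.MP_6b7ffe_lc.LS.Geo
import Pool.Agent.Lib.MP_6b7ffe_lc.LS.Brid
import Pool.Agent.Lib.MP_6b7ffe_lc.LS.RRF

set_option autoImplicit false

namespace Pool.Agent.Lib.MP_6b7ffe_lc.LS

open Function Pool.Agent.Lib.Complexity

theorem main_mat (q : ℕ) (hq : 1 ≤ q) : ∃ (K : ℕ) (f : Mat → Out), PT f ∧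
    ∀ A : Mat, Gr A → SP A q K → ∀ (n : ℕ) (G : SimpleGraph (Fin n)), A.length = n →
      (∀ u v : Fin n, G.Adj u v ↔ adj A u v = true) → Draws (f A) G := by
  obtain ⟨c, pc, hc⟩ := oc_pack
  obtain ⟨g, pg, hg⟩ := geo_pack
  obtain ⟨i, hi⟩ := ih_pow (V := ℕ) (7 ^ (8 * q)) 3 (7 ^ (4 * q - 1) ^ 2) 1
  obtain ⟨h1, p1, s1⟩ := hi i le_rfl
  set r := i * (4 * q - 1) ^ 2 with hr
  obtain ⟨j, hj⟩ := ih_pow (V := ℕ × Fin 3 × Bool) 6 (6 * 7 ^ (r + 1)) (7 ^ (4 * q - 1) ^ 2)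
    (7 ^ (r + 1))
  obtain ⟨h2, p2, s2⟩ := hj j le_rfl
  set R := j * (4 * q - 1) ^ 2 + r with hR
  obtain ⟨L, hL⟩ : ∃ L : Mat → List ℕ,
    L = fun A => sinks A (h1 (e1 A (8 * q), f1 A (c A) r)) := ⟨_, rfl⟩
  have pL : PT L := by rw [hL]; fun_prop
  obtain ⟨H, hH⟩ : ∃ H : Mat → Typ, H = fun A => h2 (e2 A.length, f2 A (c A) (L A) R) := ⟨_, rfl⟩
  have pH : PT H := by rw [hH]; fun_prop
  refine ⟨7 ^ (R + 1), fun A => g (A, typs (L A) (H A), xm A (c A) (L A) (H A),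
    recm A (c A) (L A) (H A)), by fun_prop, fun A G S n Γ hn hΓ => ?_⟩
  have O : OC A (c A) := ⟨(hc A G).1, (hc A G).2⟩
  have eL : L A = sinks A (h1 (e1 A (8 * q), f1 A (c A) r)) := by rw [hL]
  have lt : ∀ b ∈ L A, b < A.length := fun b hb => by rw [eL] at hb; exact (mem_sinks.1 hb).1
  have nd : (L A).Nodup := by rw [eL]; exact sinks_nodup
  obtain ⟨a1, a2⟩ := ph1 G O hq S (Nat.pow_le_pow_right (by omega) (by omega)) s1 eL
  obtain ⟨b1, b2⟩ := asm (H := H A) G O hq S le_rfl a1 fun a s v hv hvL =>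
    ph2 G O hq S (Nat.pow_le_pow_right (by omega) (by omega)) nd lt a1 a2 s2 (by rw [hH]) a s hv hvL
  refine hg A _ _ _ G (by rwa [typs_fst]) (fun t ht => lt _ ?_) ?_ (by rwa [typs_fst])
    (by rwa [typs_fst]) n Γ hn hΓ
  · rw [← typs_fst (L := L A) (H := H A)]; exact List.mem_map_of_mem ht
  · rw [typs_fst]; exact a1.mono (by omega)

theorem LocSparse.mono {n K : ℕ} {G : SimpleGraph (Fin n)} {a b : ℝ} (h : LocSparse G a K)
    (hab : a ≤ b) : LocSparse G b K := fun T hT hK => by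
  refine (h T hT hK).trans (mul_le_mul_of_nonneg_right hab ?_)
  have : (1 : ℝ) ≤ T.card := by exact_mod_cast hT.card_pos
  linarith

theorem main (a : ℝ) (ha : a < 2) : ∃ (K : ℕ) (f : Mat → Out), N68a2faeb.IsPolyTime f ∧
    (∀ (n : ℕ) (G : SimpleGraph (Fin n)), DegLe G 6 → LocSparse G a K → Draws (f (adjMat G)) G) ∧
    ∀ ε : ℝ, 0 < ε → ∃ n0 : ℕ, ∀ n ≥ n0,
      (({G : SimpleGraph (Fin n) | Reg G 6 ∧ ¬ Draws (f (adjMat G)) G}.ncard : ℕ) : ℝ) ≤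
        ε * (({G : SimpleGraph (Fin n) | Reg G 6}.ncard : ℕ) : ℝ) := by
  obtain ⟨q, hq, hb⟩ := brid (max a (3 / 2)) (max_lt ha (by norm_num))
  obtain ⟨K, f, pf, hf⟩ := main_mat q hq
  have key : ∀ (n : ℕ) (G : SimpleGraph (Fin n)), DegLe G 6 → LocSparse G (max a (3 / 2)) K →
      Draws (f (adjMat G)) G := fun n G h1 h2 =>
    hf _ (hb K n G h1 h2).1 (hb K n G h1 h2).2 n G (adjMat_length G) (adj_adjMat G)
  refine ⟨K, f, poly_of pf, fun n G h1 h2 => key n G h1 (h2.mono (le_max_left _ _)),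
    fun ε hε => ?_⟩
  obtain ⟨n0, h0⟩ := rr K ε hε
  refine ⟨n0, fun n hn => le_trans ?_ (h0 n hn)⟩
  refine Nat.cast_le.2 (Set.ncard_le_ncard (fun G hG => ⟨hG.1, fun h => hG.2 ?_⟩) (Set.toFinite _))
  exact key n G (fun v => (hG.1 v).le) (h.mono (le_max_right _ _))

end Pool.Agent.Lib.MP_6b7ffe_lc.LS
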