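import Pool.Agent.Lib.MP_6b7ffe_lc.LS.Rec
import Pool.Agent.Lib.MP_6b7ffe_lc.LS.Fan
import Pool.Agent.Lib.MP_6b7ffe_lc.LS.Grow

/-! The three vertex orders of the core. -/

set_option autoImplicit false

namespace Pool.Agent.Lib.MP_6b7ffe_lc.LS

open Function Pool.Agent.Lib.Complexity

/-- the list of arcs of a matrix -/
def oxArcs (D : Mat) : Arcs := (List.range D.length).flatMap fun u => (nb D u).map fun w => (u, w)

def oxPos (A : Mat) (c : Prt) (L : List ℕ) (H : Typ) (a : Fin 3) (v : ℕ) : ℕ :=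
  fanPos (List.range A.length) (oxArcs (arc1 A c L H a)) (exits A c L H a false)
    (exits A c L H a true) v

def ordX (A : Mat) (c : Prt) (L : List ℕ) (H : Typ) : List (List ℕ) :=
  [(List.range A.length).map (oxPos A c L H 0), (List.range A.length).map (oxPos A c L H 1),
    (List.range A.length).map (oxPos A c L H 2)]

section
variable {A D : Mat} {c : Prt} {L : List ℕ} {H : Typ} {a : Fin 3} {u v w q K R : ℕ}

theorem mem_oxArcs {p : ℕ × ℕ} :
    p ∈ oxArcs D ↔ p.1 < D.length ∧ p.2 < D.length ∧ adj D p.1 p.2 = true := by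
  obtain ⟨u, w⟩ := p
  simp [oxArcs, mem_nb]

theorem oxArcs_nodup : (oxArcs D).Nodup := by
  refine List.nodup_flatMap.2 ⟨fun u _ => nb_nodup.map fun _ _ e => (Prod.mk.inj e).2, ?_⟩
  refine List.nodup_range.imp fun h => List.disjoint_left.2 fun p h1 h2 => h ?_
  obtain ⟨_, -, rfl⟩ := List.mem_map.1 h1
  obtain ⟨_, -, e⟩ := List.mem_map.1 h2
  exact (Prod.mk.inj e).1.symm

theorem ox_mem (G : Gr A) (sub : Sub D A) : (u, w) ∈ oxArcs D ↔ adj D u w = true := by
  rw [mem_oxArcs, sub.len]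
  exact ⟨fun h => h.2.2, fun h => ⟨(G.rng _ _ (sub.sub _ _ h)).1, (G.rng _ _ (sub.sub _ _ h)).2, h⟩⟩

theorem ox_in (G : Gr A) (sub : Sub D A) (z : ℕ) :
    ((oxArcs D).countP fun p => decide (p.2 = z)) ≤ 6 := by
  rw [List.countP_eq_length_filter, ← List.length_map Prod.fst]
  refine le_trans (length_le_of_sub ((oxArcs_nodup.filter _).map_on fun p hp r hr e => ?_)
    fun x hx => ?_) (G.deg z)
  · exact Prod.ext e ((of_decide_eq_true (List.mem_filter.1 hp).2).trans
      (of_decide_eq_true (List.mem_filter.1 hr).2).symm)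
  · obtain ⟨p, hp, rfl⟩ := List.mem_map.1 hx
    obtain ⟨h1, h2⟩ := List.mem_filter.1 hp
    have h3 := sub.sub _ _ (mem_oxArcs.1 h1).2.2
    rw [of_decide_eq_true h2, G.symm] at h3
    exact List.mem_filter.2 ⟨List.mem_range.2 (G.rng _ _ h3).2, h3⟩

theorem ox_near (G : Gr A) (sub : Sub D A) {X : List ℕ} {x : ℕ} (h : x ∈ ball D v R)
    (hx : x ∈ X) : Near (fun a b => (a, b) ∈ oxArcs D) (· ∈ X) R v := by
  have key : ∀ j i x, x ∈ ball D v j → Near (fun a b => (a, b) ∈ oxArcs D) (· ∈ X) i x →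
      Near (fun a b => (a, b) ∈ oxArcs D) (· ∈ X) (i + j) v := fun j => by
    induction j with
    | zero => exact fun i x h1 h2 => (mem_ball_zero.1 h1).2 ▸ h2
    | succ j ih =>
      intro i x h1 h2
      obtain ⟨-, h3 | ⟨y, h3, h4⟩⟩ := mem_ball_succ.1 h1
      · exact (ih i x h3 h2).mono (fun _ _ h => h) (fun _ h => h) (by omega)
      · exact (ih (i + 1) y h3 (.inr ⟨x, (ox_mem G sub).2 h4, h2⟩)).mono (fun _ _ h => h)
          (fun _ h => h) (by omega)
  simpa using key R 0 x h hx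

theorem crdX_ordX (hv : v < A.length) : crdX (ordX A c L H) a v = oxPos A c L H a v := by
  fin_cases a <;> simp [crdX, ordX, hv]

theorem oxPos_spec (G : Gr A) (O : OC A c) (hq : 1 ≤ q) (S : SP A q K) (hL : Sep A 3 L)
    (hK : 7 ^ R < K)
    (hx : ∀ s, ∀ v < A.length, ∃ x ∈ ball (arc1 A c L H a) v R, x ∈ exits A c L H a s) :
    (∀ v < A.length, oxPos A c L H a v < A.length) ∧
    (∀ u < A.length, ∀ v < A.length, oxPos A c L H a u = oxPos A c L H a v → u = v) ∧
    ∀ v < A.length, (v ∈ exits A c L H a false ∨ ∃ x, adj (arc1 A c L H a) v x = true ∧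
        oxPos A c L H a x < oxPos A c L H a v) ∧
      (v ∈ exits A c L H a true ∨ ∃ x, adj (arc1 A c L H a) v x = true ∧
        oxPos A c L H a v < oxPos A c L H a x) := by
  have sub : Sub (arc1 A c L H a) A := sub_arc1 G O hL
  have h := fanPos_spec (Q := List.range A.length) (D := oxArcs (arc1 A c L H a))
    (Xm := exits A c L H a false) (Xp := exits A c L H a true) R K 6
    (fun p hp _ => by
      have h1 := sub.sub _ _ (mem_oxArcs.1 hp).2.2
      exact ⟨List.mem_range.2 (G.rng _ _ h1).2, G.ne h1⟩)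
    (ox_in G sub) hK
    (fun v hv => by
      obtain ⟨x, h1, h2⟩ := hx false v (List.mem_range.1 hv)
      exact ox_near G sub h1 h2)
    (fun v hv => by
      obtain ⟨x, h1, h2⟩ := hx true v (List.mem_range.1 hv)
      exact ox_near G sub h1 h2)
    fun T z h1 h2 h3 h4 => by
      obtain ⟨x, h5, w, h6, h7⟩ := fan_small G hq S sub T z h1 h2 h3 fun x hx =>
        two_of_not_exit (List.mem_range.1 (h4 x hx).1) (h4 x hx).2.1 (h4 x hx).2.2
      exact ⟨(x, w), (ox_mem G sub).2 h6, h5, h7⟩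
  simpa only [oxPos, List.mem_range, List.length_range, ox_mem G sub] using h

theorem ox_card (G : Gr A) (s : Finset ℕ) (h : ∀ x ∈ s, adj (arc1 A c L H a) u x = true) :
    s.card ≤ (nb (arc1 A c L H a) u).length :=
  (Finset.card_le_card fun x hx => List.mem_toFinset.2 (mem_nb.2
    ⟨(G.rng _ _ ((adj_arc1 G).1 (h x hx)).1.1).2.trans_eq arc1_length.symm, h x hx⟩)).trans
    (List.toFinset_card_le _)

theorem ordX_spec (G : Gr A) (O : OC A c) (hq : 1 ≤ q) (S : SP A q K) (hL : Sep A 3 L)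
    (hK : 7 ^ R < K)
    (hx : ∀ a s, ∀ v < A.length, ∃ x ∈ ball (arc1 A c L H a) v R, x ∈ exits A c L H a s) :
    GP (cor A L) (ordX A c L H) (recm A c L H) ∧
    ∀ b ∈ L, ∀ u w, adj A u b = true → adj (cor A L) u w = true →
      prt (recm A c L H) u w = (tyOf H b).1 →
      if (tyOf H b).2 = true then
        crdX (ordX A c L H) (tyOf H b).1 w < crdX (ordX A c L H) (tyOf H b).1 u
      else crdX (ordX A c L H) (tyOf H b).1 u < crdX (ordX A c L H) (tyOf H b).1 w := by
  have P := fun a => oxPos_spec G O hq S hL hK (hx a)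
  have C := gr_cor (L := L) G
  have a1 : ∀ {u w a}, adj (cor A L) u w = true → prt (recm A c L H) u w = a →
      adj (arc1 A c L H a) u w = true := fun h e => (adj_arcs C).2 ⟨h, e⟩
  refine ⟨⟨C.symm, C.irr, C.rng, fun i v hv => ?_, fun i u hu v hv e => ?_, fun u v h => ?_,
    fun u v v' h h' hne e => ?_⟩, fun b hb u w h1 h2 e => ?_⟩
  · rw [cor_length] at hv ⊢
    rw [crdX_ordX hv]
    exact (P i).1 v hv
  · rw [cor_length] at hu hv
    rw [crdX_ordX hu, crdX_ordX hv] at e
    exact (P i).2.1 u hu v hv e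
  · have h1 := ((adj_cor G).1 h).1
    rw [prt_recm (G.rng _ _ h1).1 (G.rng _ _ h1).2, prt_recm (G.rng _ _ h1).2 (G.rng _ _ h1).1]
    exact rec1_ne G O hL h1
  · obtain ⟨h1, h2, -⟩ := (adj_cor G).1 h
    have h3 := ((adj_cor G).1 h').1
    have b1 := a1 h rfl
    have b2 := a1 h' e.symm
    generalize prt (recm A c L H) u v = a at b1 b2 ⊢
    rw [crdX_ordX (G.rng _ _ h1).1, crdX_ordX (G.rng _ _ h1).2, crdX_ordX (G.rng _ _ h3).2]
    have c2 : ({v, v'} : Finset ℕ).card = 2 := Finset.card_pair hne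
    have h4 := ox_card G {v, v'} (u := u) (c := c) (L := L) (H := H) (a := a) (by simp [b1, b2])
    have h5 := nb_arc1_le (L := L) (H := H) (a := a) (u := u) G O
    have h6 : ∀ s, u ∉ exits A c L H a s := fun s h => by
      rcases (mem_exits.1 h).2 with h | h | h
      · exact h2 h
      · omega
      · have : ray A L H a u = 1 := if_pos ⟨h.1, congrArg Prod.fst h.2⟩
        omega
    have h7 : ∀ x, adj (arc1 A c L H a) u x = true → x = v ∨ x = v' := fun x hx => by
      by_contra hn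
      have := ox_card G (insert x {v, v'}) (u := u) (c := c) (L := L) (H := H) (a := a)
        (by simp [b1, b2, hx])
      rw [Finset.card_insert_of_notMem (by simpa using hn)] at this
      omega
    obtain ⟨h8, h9⟩ := (P a).2.2 u (G.rng _ _ h1).1
    obtain ⟨x, x1, x2⟩ := h8.resolve_left (h6 _)
    obtain ⟨y, y1, y2⟩ := h9.resolve_left (h6 _)
    rcases h7 x x1 with rfl | rfl <;> rcases h7 y y1 with rfl | rfl <;> omega
  · obtain ⟨h3, h4, -⟩ := (adj_cor G).1 h2
    have b1 := a1 h2 e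
    have t : tch A L u = true := tch_iff.2 ⟨b, hb, h1⟩
    have sk := snk_eq G (hL.mono (by omega)) hb h1
    rcases hty : tyOf H b with ⟨a, s⟩
    rw [hty] at b1
    dsimp only at b1 ⊢
    rw [crdX_ordX (G.rng _ _ h3).1, crdX_ordX (G.rng _ _ h3).2]
    have r1 : ray A L H a u = 1 := if_pos ⟨t, by rw [sk, hty]⟩
    have h5 := nb_arc1_le (L := L) (H := H) (a := a) (u := u) G O
    have h6 := ox_card G {w} (u := u) (c := c) (L := L) (H := H) (a := a) (by simp [b1])
    rw [Finset.card_singleton] at h6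
    have h7 : u ∉ exits A c L H a (!s) := fun h => by
      rcases (mem_exits.1 h).2 with h | h | h
      · exact h4 h
      · omega
      · have := congrArg Prod.snd ((sk ▸ hty).symm.trans h.2)
        simp at this
    have h8 : ∀ x, adj (arc1 A c L H a) u x = true → x = w := fun x hx => by
      by_contra hn
      have := ox_card G {x, w} (u := u) (c := c) (L := L) (H := H) (a := a) (by simp [b1, hx])
      rw [Finset.card_pair hn] at this
      omega
    obtain ⟨h9, h10⟩ := (P a).2.2 u (G.rng _ _ h3).1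
    cases s
    · obtain ⟨x, x1, x2⟩ := h10.resolve_left h7
      simpa [h8 x x1] using x2
    · obtain ⟨x, x1, x2⟩ := h9.resolve_left h7
      simpa [h8 x x1] using x2

end

section
variable {α : Type} [Enc α] {A : α → Mat} {c : α → Prt} {v : α → ℕ} {L : α → List ℕ}
  {H : α → Typ} {a : α → Fin 3}

@[fun_prop] theorem pt_oxArcs (hA : PT A) : PT fun x => oxArcs (A x) := by
  unfold oxArcs; fun_prop

@[fun_prop] theorem pt_oxPos (hA : PT A) (hc : PT c) (hL : PT L) (hH : PT H) (ha : PT a)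
    (hv : PT v) : PT fun x => oxPos (A x) (c x) (L x) (H x) (a x) (v x) := by
  unfold oxPos; fun_prop

@[fun_prop] theorem pt_ordX (hA : PT A) (hc : PT c) (hL : PT L) (hH : PT H) :
    PT fun x => ordX (A x) (c x) (L x) (H x) := by
  unfold ordX; fun_prop

end

end Pool.Agent.Lib.MP_6b7ffe_lc.LS
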