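import Pool.Agent.Lib.MP_6b7ffe_lc.LS.Rec
import Pool.Agent.Lib.MP_6b7ffe_lc.LS.Grow

set_option autoImplicit false

namespace Pool.Agent.Lib.MP_6b7ffe_lc.LS

open Function Pool.Agent.Lib.Complexity

/-- `f` finds independent hitting sets -/
def Hits {V : Type} [DecidableEq V] (C a b c i : ℕ)
    (f : List (V × V) × List (List V) → List V) : Prop :=
  ∀ (E : List (V × V)) (F : List (List V)),
    (∀ v (T : Finset V), (∀ w ∈ T, (v, w) ∈ E ∨ (w, v) ∈ E) → T.card ≤ C) →
    (∀ S ∈ F, S.Nodup ∧ 2 ^ i ≤ c * S.length) →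
    (∀ v, F.countP (fun S => decide (v ∈ S)) ≤ a * b ^ i) →
    (∀ e ∈ E, e.1 ∈ f (E, F) → e.2 ∈ f (E, F) → e.1 = e.2) ∧
      (∀ S ∈ F, ∃ v ∈ S, v ∈ f (E, F)) ∧ ∀ v ∈ f (E, F), ∃ S ∈ F, v ∈ S

def good (A D : Mat) (L : List ℕ) (r : ℕ) : List ℕ :=
  (List.range A.length).filter fun v =>
    decide (v ∉ L) && (ball D v r).all fun u => !stop A D L u

def e1 (A : Mat) (r : ℕ) : List (ℕ × ℕ) :=
  (pairs A.length).filter fun p => decide (p.2 ∈ ball A p.1 r)

def f1 (A : Mat) (c : Prt) (r : ℕ) : List (List ℕ) :=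
  ([0, 1, 2] : List (Fin 3)).flatMap fun a =>
    (good A (arcs A c a) [] r).map fun v => ball (arcs A c a) v r

def sinks (A : Mat) (l : List ℕ) : List ℕ := (List.range A.length).filter fun v => decide (v ∈ l)

def tys : List (Fin 3 × Bool) :=
  [(0, false), (0, true), (1, false), (1, true), (2, false), (2, true)]

def e2 (n : ℕ) : List ((ℕ × Fin 3 × Bool) × (ℕ × Fin 3 × Bool)) :=
  (List.range n).flatMap fun b => tys.flatMap fun t => tys.map fun t' => ((b, t), (b, t'))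

def near (A : Mat) (L B : List ℕ) : List ℕ := L.filter fun b => B.any fun u => adj A u b

def f2 (A : Mat) (c : Prt) (L : List ℕ) (r : ℕ) : List Typ :=
  tys.flatMap fun t => (good A (arc0 A c L t.1) L r).map fun v =>
    (near A L (ball (arc0 A c L t.1) v r)).map fun b => (b, t)

section
variable {A D : Mat} {c : Prt} {L : List ℕ} {q K i r v : ℕ}

theorem mem_good : v ∈ good A D L r ↔
    v < A.length ∧ v ∉ L ∧ ∀ u ∈ ball D v r, stop A D L u = false := by
  simp [good]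

theorem mem_sinks {l : List ℕ} : v ∈ sinks A l ↔ v < A.length ∧ v ∈ l := by simp [sinks]

theorem sinks_nodup {l : List ℕ} : (sinks A l).Nodup := List.nodup_range.filter _

theorem mem_tys : ∀ t : Fin 3 × Bool, t ∈ tys := by decide

theorem mem_near {B : List ℕ} : v ∈ near A L B ↔ v ∈ L ∧ ∃ u ∈ B, adj A u v = true := by
  simp [near]

theorem countP_flatMap_le {β γ : Type} (l : List β) (g : β → List γ) (p : γ → Bool) (m : ℕ)
    (h : ∀ x ∈ l, (g x).countP p ≤ m) : (l.flatMap g).countP p ≤ l.length * m := by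
  induction l with
  | nil => simp
  | cons a l ih =>
    have := h a (by simp)
    have := ih fun x hx => h x (by simp [hx])
    simp only [List.flatMap_cons, List.countP_append, List.length_cons, Nat.succ_mul]; omega

theorem countP_good_le {γ : Type} (G : Gr A) (g : ℕ → γ) (p : γ → Bool) (w j : ℕ)
    (h : ∀ v, p (g v) = true → w ∈ ball A v j) :
    ((good A D L r).map g).countP p ≤ 7 ^ j := by
  rw [List.countP_map, List.countP_eq_length_filter]
  refine (length_le_of_sub (l' := ball A w j) ((List.nodup_range.filter _).filter _)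
    fun x hx => ?_).trans (ball_card G)
  exact ball_symm G (h x (List.mem_filter.1 hx).2)

theorem card_le_of_sub {T : Finset ℕ} {l : List ℕ} (h : ∀ x ∈ T, x ∈ l) : T.card ≤ l.length :=
  (Finset.card_le_card fun x hx => List.mem_toFinset.2 (h x hx)).trans (List.toFinset_card_le l)

theorem core_ball (G : Gr A) {a : Fin 3} {x : ℕ} (hv : v ∉ L)
    (h : x ∈ ball (arc0 A c L a) v r) : x ∉ L :=
  ball_ind (p := fun x => x ∉ L) hv (fun _ _ _ _ _ _ _ e => ((adj_arc0 G).1 e).1.2.2) h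

theorem ph1 (G : Gr A) (O : OC A c) (hq : 1 ≤ q) (S : SP A q K)
    (hK : 7 ^ (i * (4 * q - 1) ^ 2 + 1) ≤ K) {f : List (ℕ × ℕ) × List (List ℕ) → List ℕ}
    (hf : Hits (7 ^ (8 * q)) 3 (7 ^ (4 * q - 1) ^ 2) 1 i f)
    (hL : L = sinks A (f (e1 A (8 * q), f1 A c (i * (4 * q - 1) ^ 2)))) :
    Sep A (8 * q) L ∧ ∀ a v, v < A.length → v ∉ L →
      ∃ x ∈ ball (arc0 A c L a) v (i * (4 * q - 1) ^ 2),
        stop A (arc0 A c L a) L x = true ∨ tch A L x = true := by
  set r := i * (4 * q - 1) ^ 2 with hr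
  obtain ⟨h1, h2, -⟩ := hf (e1 A (8 * q)) (f1 A c r) (fun v T hT => by
      refine (card_le_of_sub (l := ball A v (8 * q)) fun x hx => ?_).trans (ball_card G)
      rcases hT x hx with h | h
      · simpa using (List.mem_filter.1 h).2
      · exact ball_symm G (by simpa using (List.mem_filter.1 h).2))
    (fun X hX => by
      obtain ⟨a, -, hX⟩ := List.mem_flatMap.1 hX
      obtain ⟨v, hv, rfl⟩ := List.mem_map.1 hX
      obtain ⟨v1, v2, v3⟩ := mem_good.1 hv
      refine ⟨ball_nodup, ?_⟩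
      rw [one_mul]
      exact grow G hq S (sub_arcs G O) (fun b hb => by simp at hb) (fun _ _ _ => by simp) v1 v2 hK v3)
    (fun w => by
      rw [← pow_mul, mul_comm _ i]
      refine countP_flatMap_le _ _ _ _ fun a _ => countP_good_le G _ _ w r fun v hv => ?_
      exact ball_of_sub arcs_length (sub_arcs G O).sub (by simpa using hv))
  refine ⟨fun b hb b' hb' e => ?_, fun a v hv hvL => ?_⟩
  · rw [hL, mem_sinks] at hb hb'
    exact (h1 (b, b') (List.mem_filter.2 ⟨mem_pairs.2 ⟨hb.1, hb'.1⟩, by simpa using e⟩)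
      hb.2 hb'.2).symm
  by_contra hc
  have hc : ∀ x ∈ ball (arc0 A c L a) v r,
      stop A (arc0 A c L a) L x = false ∧ tch A L x = false := fun x hx => by
    constructor <;> rw [Bool.eq_false_iff] <;> intro e
    · exact hc ⟨x, hx, .inl e⟩
    · exact hc ⟨x, hx, .inr e⟩
  have sub : ∀ j ≤ r, ∀ x ∈ ball (arcs A c a) v j, x ∈ ball (arc0 A c L a) v j := by
    intro j
    induction j with
    | zero => intro _ x hx; rw [mem_ball_zero] at *; simpa using hx
    | succ j ih =>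
      intro hj x hx
      obtain ⟨x1, x2 | ⟨y, y1, y2⟩⟩ := mem_ball_succ.1 hx
      · exact ball_mono (ih (by omega) x x2) (by omega)
      · have y3 := ih (by omega) y y1
        have y4 := (hc y (ball_mono y3 (by omega))).2
        obtain ⟨z1, z2⟩ := (adj_arcs G).1 y2
        refine ball_arc y3 (by simpa using x1) ((adj_arc0 G).2
          ⟨⟨z1, core_ball G hvL y3, fun e => ?_⟩, z2, .inl y4⟩)
        rw [tch_iff.2 ⟨x, e, z1⟩] at y4; cases y4
  have gd : v ∈ good A (arcs A c a) [] r := mem_good.2 ⟨hv, by simp, fun u hu => by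
    obtain ⟨u1, u2⟩ := hc u (sub r le_rfl u hu)
    have := length_le_of_sub (l' := nb (arcs A c a) u) (nb_nodup (D := arc0 A c L a) (u := u))
      fun w hw => by
        obtain ⟨w1, w2, -⟩ := (adj_arc0 G).1 (mem_nb.1 hw).2
        exact mem_nb.2 ⟨by simpa using (G.rng _ _ w1.1).2, (adj_arcs G).2 ⟨w1.1, w2⟩⟩
    simp only [stop, u2, decide_eq_false_iff_not, Bool.false_eq_true, if_false] at u1 ⊢
    omega⟩
  obtain ⟨b, b1, b2⟩ := h2 (ball (arcs A c a) v r) (List.mem_flatMap.2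
    ⟨a, by fin_cases a <;> simp, List.mem_map.2 ⟨v, gd, rfl⟩⟩)
  refine core_ball G hvL (sub r le_rfl b b1) ?_
  rw [hL, mem_sinks]
  exact ⟨by simpa using ball_lt b1, b2⟩

theorem mem_e2 {n : ℕ} {p p' : ℕ × Fin 3 × Bool} : (p, p') ∈ e2 n ↔ p.1 < n ∧ p'.1 = p.1 := by
  obtain ⟨b, t⟩ := p
  obtain ⟨b', t'⟩ := p'
  simp only [e2, List.mem_flatMap, List.mem_map, List.mem_range, Prod.mk.injEq]
  constructor
  · rintro ⟨x, h, y, -, z, -, ⟨rfl, -⟩, rfl, -⟩; exact ⟨h, rfl⟩
  · rintro ⟨h, rfl⟩; exact ⟨b', h, t, mem_tys t, t', mem_tys t', ⟨rfl, rfl⟩, rfl, rfl⟩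

theorem ph2 (G : Gr A) (O : OC A c) (hq : 1 ≤ q) (S : SP A q K)
    (hK : 7 ^ (i * (4 * q - 1) ^ 2 + 1) ≤ K) (nd : L.Nodup) (lt : ∀ b ∈ L, b < A.length)
    (hS : Sep A (8 * q) L) (h1 : ∀ a v, v < A.length → v ∉ L → ∃ x ∈ ball (arc0 A c L a) v r,
      stop A (arc0 A c L a) L x = true ∨ tch A L x = true)
    {f : List ((ℕ × Fin 3 × Bool) × (ℕ × Fin 3 × Bool)) × List Typ → Typ}
    (hf : Hits 6 (6 * 7 ^ (r + 1)) (7 ^ (4 * q - 1) ^ 2) (7 ^ (r + 1)) i f) {H : Typ}
    (hH : H = f (e2 A.length, f2 A c L (i * (4 * q - 1) ^ 2 + r))) (a : Fin 3) (s : Bool)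
    (hv : v < A.length) (hvL : v ∉ L) :
    ∃ x ∈ ball (arc0 A c L a) v (i * (4 * q - 1) ^ 2 + r), stop A (arc0 A c L a) L x = true ∨
      ∃ b ∈ L, adj A x b = true ∧ tyOf H b = (a, s) := by
  set r' := i * (4 * q - 1) ^ 2 with hr
  obtain ⟨k1, k2, k3⟩ := hf (e2 A.length) (f2 A c L (r' + r)) (fun v T hT => by
      refine le_trans (Finset.card_le_card (t := (tys.map fun t => (v.1, t)).toFinset)
        fun x hx => ?_) ((List.toFinset_card_le _).trans (by simp [tys]))
      have : x.1 = v.1 := (hT x hx).elim (fun h => (mem_e2.1 h).2) fun h => (mem_e2.1 h).2.symm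
      exact List.mem_toFinset.2 (List.mem_map.2 ⟨x.2, mem_tys _, by rw [← this]⟩))
    (fun X hX => by
      obtain ⟨t, -, hX⟩ := List.mem_flatMap.1 hX
      obtain ⟨v, hv, rfl⟩ := List.mem_map.1 hX
      obtain ⟨v1, v2, v3⟩ := mem_good.1 hv
      refine ⟨(nd.filter _).map fun x y e => congrArg Prod.fst e, ?_⟩
      have g := grow G hq S (sub_arc0 (a := t.1) G O) hS
        (fun _ _ e => ((adj_arc0 G).1 e).1.2.2) v1 v2 hK
        fun u hu => v3 u (ball_mono hu (by omega))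
      have g2 := length_le_of_sub
        (l' := (near A L (ball (arc0 A c L t.1) v (r' + r))).flatMap fun b => ball A b (r + 1))
        (ball_nodup (D := arc0 A c L t.1) (v := v) (j := r')) fun x hx => by
          obtain ⟨u, u1, u2⟩ := h1 t.1 x (by simpa using ball_lt hx) (core_ball G v2 hx)
          have u3 := ball_trans hx u1
          obtain ⟨b, b1, b2⟩ := tch_iff.1 (u2.resolve_left (by rw [v3 u u3]; simp))
          exact List.mem_flatMap.2 ⟨b, mem_near.2 ⟨b1, u, u3, b2⟩, ball_symm G (ball_arc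
            (ball_of_sub arc0_length (sub_arc0 G O).sub u1) (G.rng _ _ b2).2 b2)⟩
      have g3 := length_flatMap_le (near A L (ball (arc0 A c L t.1) v (r' + r)))
        (fun b => ball A b (r + 1)) _ fun b _ => ball_card G
      rw [List.length_map, mul_comm]
      exact g.trans (g2.trans g3))
    (fun w => by
      rw [← pow_mul, mul_comm _ i, mul_assoc, ← pow_add]
      refine countP_flatMap_le _ _ _ _ fun t _ => countP_good_le G _ _ w.1 _ fun v hv => ?_
      simp only [decide_eq_true_eq] at hv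
      obtain ⟨b, b1, rfl⟩ := List.mem_map.1 hv
      obtain ⟨-, u, u1, u2⟩ := mem_near.1 b1
      exact ball_mono (ball_arc (ball_of_sub arc0_length (sub_arc0 G O).sub u1)
        (G.rng _ _ u2).2 u2) (by omega))
  rw [← hH] at k1 k2 k3
  have un : ∀ p ∈ H, ∀ p' ∈ H, p.1 = p'.1 → p = p' := fun p hp p' hp' e => by
    obtain ⟨X, hX, h⟩ := k3 p hp
    obtain ⟨t, -, hX⟩ := List.mem_flatMap.1 hX
    obtain ⟨v, -, rfl⟩ := List.mem_map.1 hX
    obtain ⟨b, b1, rfl⟩ := List.mem_map.1 h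
    exact k1 (_, p') (mem_e2.2 ⟨lt b (mem_near.1 b1).1, e.symm⟩) hp hp'
  by_cases gd : v ∈ good A (arc0 A c L a) L (r' + r)
  · obtain ⟨p, p1, p2⟩ := k2 _ (List.mem_flatMap.2 ⟨(a, s), mem_tys _,
      List.mem_map.2 ⟨v, gd, rfl⟩⟩)
    obtain ⟨b, b1, rfl⟩ := List.mem_map.1 p1
    obtain ⟨b2, u, u1, u2⟩ := mem_near.1 b1
    exact ⟨u, u1, .inr ⟨b, b2, u2, tyOf_eq p2 un⟩⟩
  · by_contra hc
    refine gd (mem_good.2 ⟨hv, hvL, fun u hu => ?_⟩)
    rw [Bool.eq_false_iff]
    exact fun e => hc ⟨u, hu, .inl e⟩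

end

section
variable {α : Type} [Enc α] {A D : α → Mat} {c : α → Prt} {r : α → ℕ} {L B : α → List ℕ}

@[fun_prop] theorem pt_good (hA : PT A) (hD : PT D) (hL : PT L) (hr : PT r) :
    PT fun x => good (A x) (D x) (L x) (r x) := by
  unfold good; fun_prop

@[fun_prop] theorem pt_e1 (hA : PT A) (hr : PT r) : PT fun x => e1 (A x) (r x) := by
  unfold e1; fun_prop

@[fun_prop] theorem pt_f1 (hA : PT A) (hc : PT c) (hr : PT r) :
    PT fun x => f1 (A x) (c x) (r x) := by
  unfold f1; fun_prop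

@[fun_prop] theorem pt_sinks (hA : PT A) (hL : PT L) : PT fun x => sinks (A x) (L x) := by
  unfold sinks; fun_prop

@[fun_prop] theorem pt_e2 (hr : PT r) : PT fun x => e2 (r x) := by
  unfold e2; fun_prop

@[fun_prop] theorem pt_near (hA : PT A) (hL : PT L) (hB : PT B) :
    PT fun x => near (A x) (L x) (B x) := by
  unfold near; fun_prop

@[fun_prop] theorem pt_f2 (hA : PT A) (hc : PT c) (hL : PT L) (hr : PT r) :
    PT fun x => f2 (A x) (c x) (L x) (r x) := by
  unfold f2; fun_prop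

end

end Pool.Agent.Lib.MP_6b7ffe_lc.LS
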