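import Mathlib

set_option autoImplicit false

namespace Pool.Agent.Lib.MP_6b7ffe_lc

open Finset

section RR
open Classical

variable {V : Type} [Fintype V] [DecidableEq V]

/-- neighbours as a filter -/
noncomputable def rrN (G : SimpleGraph V) (a : V) : Finset V := univ.filter (G.Adj a)

omit [DecidableEq V] in
theorem mem_rrN {G : SimpleGraph V} {a b : V} : b ∈ rrN G a ↔ G.Adj a b := by simp [rrN]

/-- replace the edges uv, xy by ux, vy -/
def rrSw (G : SimpleGraph V) (u v x y : V) : SimpleGraph V where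
  Adj a b := a ≠ b ∧ ((G.Adj a b ∧ s(a, b) ≠ s(u, v) ∧ s(a, b) ≠ s(x, y)) ∨ s(a, b) = s(u, x) ∨
    s(a, b) = s(v, y))
  symm := ⟨fun a b h => by
    refine ⟨h.1.symm, ?_⟩
    rw [Sym2.eq_swap (a := b)]
    rcases h.2 with h | h
    · exact Or.inl ⟨h.1.symm, h.2⟩
    · exact Or.inr h⟩
  loopless := ⟨fun a h => h.1 rfl⟩

/-- admissible switch -/
structure RROk (G : SimpleGraph V) (u v x y : V) : Prop where
  uv : G.Adj u v
  xy : G.Adj x y
  xu : x ≠ u
  xv : x ≠ v
  yu : y ≠ u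
  yv : y ≠ v
  ux : ¬ G.Adj u x
  vy : ¬ G.Adj v y

omit [Fintype V] in
theorem rr_card_swap {N : Finset V} {p q : V} (hp : p ∈ N) (hq : q ∉ N) :
    #(insert q (N.erase p)) = #N := by
  rw [card_insert_of_notMem (fun h => hq (mem_of_mem_erase h)), card_erase_add_one hp]

theorem rrSw_card {G : SimpleGraph V} {u v x y : V} (h : RROk G u v x y) (a : V) :
    #(rrN (rrSw G u v x y) a) = #(rrN G a) := by
  obtain ⟨uv, xy, xu, xv, yu, yv, ux, vy⟩ := h
  have n1 := uv.ne
  have n2 := xy.ne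
  have irr : ∀ b, ¬ G.Adj b b := fun b => G.irrefl
  by_cases h1 : a = u
  · subst h1
    rw [← rr_card_swap (mem_rrN.2 uv) (q := x) (fun h => ux (mem_rrN.1 h))]
    congr 1; ext b
    simp only [mem_rrN, mem_insert, mem_erase, rrSw, ne_eq, Sym2.eq_iff]
    grind
  by_cases h2 : a = v
  · subst h2
    rw [← rr_card_swap (mem_rrN.2 uv.symm) (q := y) (fun h => vy (mem_rrN.1 h))]
    congr 1; ext b
    simp only [mem_rrN, mem_insert, mem_erase, rrSw, ne_eq, Sym2.eq_iff]
    grind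
  by_cases h3 : a = x
  · subst h3
    rw [← rr_card_swap (mem_rrN.2 xy) (q := u) (fun h => ux (mem_rrN.1 h).symm)]
    congr 1; ext b
    simp only [mem_rrN, mem_insert, mem_erase, rrSw, ne_eq, Sym2.eq_iff]
    grind
  by_cases h4 : a = y
  · subst h4
    rw [← rr_card_swap (mem_rrN.2 xy.symm) (q := v) (fun h => vy (mem_rrN.1 h).symm)]
    congr 1; ext b
    simp only [mem_rrN, mem_insert, mem_erase, rrSw, ne_eq, Sym2.eq_iff]
    grind
  congr 1; ext b
  simp only [mem_rrN, rrSw, ne_eq, Sym2.eq_iff]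
  grind

omit [Fintype V] [DecidableEq V] in
theorem rrSw_le {G H : SimpleGraph V} {u v x y : V} (h : RROk G u v x y) (k : RROk H u v x y)
    (e : rrSw G u v x y = rrSw H u v x y) {a b : V} (hab : G.Adj a b) : H.Adj a b := by
  by_cases h1 : s(a, b) = s(u, v)
  · exact (SimpleGraph.adj_congr_of_sym2 H h1).2 k.uv
  by_cases h2 : s(a, b) = s(x, y)
  · exact (SimpleGraph.adj_congr_of_sym2 H h2).2 k.xy
  have h3 : (rrSw G u v x y).Adj a b := ⟨hab.ne, Or.inl ⟨hab, h1, h2⟩⟩
  rw [e] at h3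
  rcases h3.2 with h4 | h4 | h4
  · exact h4.1
  · exact absurd ((SimpleGraph.adj_congr_of_sym2 G h4).1 hab) h.ux
  · exact absurd ((SimpleGraph.adj_congr_of_sym2 G h4).1 hab) h.vy

/-- regular graphs containing the pairs of S -/
noncomputable def rrC (d : ℕ) (S : Finset (V × V)) : Finset (SimpleGraph V) :=
  univ.filter fun G => (∀ a, #(rrN G a) = d) ∧ ∀ p ∈ S, G.Adj p.1 p.2

theorem mem_rrC {d : ℕ} {S : Finset (V × V)} {G : SimpleGraph V} :
    G ∈ rrC d S ↔ (∀ a, #(rrN G a) = d) ∧ ∀ p ∈ S, G.Adj p.1 p.2 := by simp [rrC]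

theorem rr_darts {d : ℕ} {G : SimpleGraph V} (hG : ∀ a, #(rrN G a) = d) (X : Finset V) :
    #(univ.filter fun p : V × V => p.1 ∈ X ∧ G.Adj p.1 p.2) = #X * d := by
  have : (univ.filter fun p : V × V => p.1 ∈ X ∧ G.Adj p.1 p.2) =
      (X.sigma (rrN G)).map ⟨fun q => (q.1, q.2), fun a b h => by
        obtain ⟨a1, a2⟩ := a; obtain ⟨b1, b2⟩ := b
        simp only [Prod.mk.injEq] at h
        obtain ⟨rfl, rfl⟩ := h; rfl⟩ := by
    ext ⟨a, b⟩
    simp only [mem_filter, mem_univ, true_and, mem_map, mem_sigma, mem_rrN]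
    constructor
    · intro h; exact ⟨⟨a, b⟩, h, rfl⟩
    · rintro ⟨q, h, e⟩
      have e' : (q.1, q.2) = (a, b) := e
      obtain ⟨rfl, rfl⟩ := Prod.mk.inj e'
      exact h
  rw [this, card_map, card_sigma]
  simp [hG]

/-- the admissible switches that keep S -/
noncomputable def rrGood (G : SimpleGraph V) (S : Finset (V × V)) (u v : V) : Finset (V × V) :=
  univ.filter fun p => RROk G u v p.1 p.2 ∧ p ∉ S ∧ p.swap ∉ S

theorem rrGood_card {d : ℕ} {G : SimpleGraph V} (hG : ∀ a, #(rrN G a) = d) (S : Finset (V × V))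
    {u v : V} (huv : G.Adj u v) :
    Fintype.card V * d ≤ #(rrGood G S u v) + (2 * ((d + 2) * d) + 2 * #S) := by
  have h0 := rr_darts hG univ
  rw [card_univ] at h0
  have c3 : ∀ w : V, #(insert u (insert v (rrN G w))) ≤ d + 2 := fun w => by
    have := card_insert_le u (insert v (rrN G w))
    have := card_insert_le v (rrN G w)
    have := hG w
    omega
  have h1 := rr_darts hG (insert u (insert v (rrN G u)))
  have h2 := rr_darts hG (insert u (insert v (rrN G v)))
  set A := univ.filter fun p : V × V => p.1 ∈ insert u (insert v (rrN G u)) ∧ G.Adj p.1 p.2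
    with hA
  set B := univ.filter fun p : V × V => p.1 ∈ insert u (insert v (rrN G v)) ∧ G.Adj p.1 p.2
    with hB
  have sub : (univ.filter fun p : V × V => p.1 ∈ (univ : Finset V) ∧ G.Adj p.1 p.2) ⊆
      rrGood G S u v ∪ (A ∪ B.image Prod.swap ∪ (S ∪ S.image Prod.swap)) := by
    rintro ⟨x, y⟩ hp
    have hxy : G.Adj x y := (mem_filter.1 hp).2.2
    by_contra hc
    simp only [mem_union, not_or] at hc
    obtain ⟨g, ⟨a, b⟩, s1, s2⟩ := hc
    apply g
    have a' : x ∉ insert u (insert v (rrN G u)) := fun h => a (mem_filter.2 ⟨mem_univ _, h, hxy⟩)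
    have b' : y ∉ insert u (insert v (rrN G v)) := fun h =>
      b (mem_image.2 ⟨(y, x), mem_filter.2 ⟨mem_univ _, h, hxy.symm⟩, rfl⟩)
    simp only [mem_insert, mem_rrN, not_or] at a' b'
    exact mem_filter.2 ⟨mem_univ _, ⟨huv, hxy, a'.1, a'.2.1, b'.1, b'.2.1, a'.2.2, b'.2.2⟩, s1,
      fun h => s2 (mem_image.2 ⟨(y, x), h, rfl⟩)⟩
  have k0 := card_le_card sub
  have k1 := card_union_le (rrGood G S u v) (A ∪ B.image Prod.swap ∪ (S ∪ S.image Prod.swap))
  have k2 := card_union_le (A ∪ B.image Prod.swap) (S ∪ S.image Prod.swap)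
  have k3 := card_union_le A (B.image Prod.swap)
  have k4 := card_union_le S (S.image Prod.swap)
  have k5 : #(B.image Prod.swap) ≤ #B := card_image_le
  have k6 : #(S.image Prod.swap) ≤ #S := card_image_le
  have k7 := Nat.mul_le_mul_right d (c3 u)
  have k8 := Nat.mul_le_mul_right d (c3 v)
  omega

theorem rr_switch (d : ℕ) (S : Finset (V × V)) {u v : V} (h1 : (u, v) ∉ S) (h2 : (v, u) ∉ S) :
    #(rrC d (insert (u, v) S)) * (Fintype.card V * d) ≤
      #(rrC d S) * (d * d) + #(rrC d (insert (u, v) S)) * (2 * ((d + 2) * d) + 2 * #S) := by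
  set A := rrC d (insert (u, v) S) with hA
  have k1 : #A * (Fintype.card V * d) ≤
      ∑ G ∈ A, (#(rrGood G S u v) + (2 * ((d + 2) * d) + 2 * #S)) := by
    rw [← smul_eq_mul, ← sum_const]
    refine sum_le_sum fun G hG => ?_
    have := mem_rrC.1 hG
    exact rrGood_card this.1 S (this.2 (u, v) (mem_insert_self _ _))
  rw [sum_add_distrib, sum_const, smul_eq_mul, ← card_sigma] at k1
  refine k1.trans (Nat.add_le_add_right ?_ _)
  have k2 : #((rrC d S).sigma fun G => rrN G u ×ˢ rrN G v) = #(rrC d S) * (d * d) := by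
    rw [card_sigma, ← smul_eq_mul, ← sum_const]
    refine sum_congr rfl fun G hG => ?_
    rw [card_product, (mem_rrC.1 hG).1, (mem_rrC.1 hG).1]
  rw [← k2]
  refine card_le_card_of_injOn (fun q => ⟨rrSw q.1 u v q.2.1 q.2.2, q.2⟩) ?_ ?_
  · rintro ⟨G, x, y⟩ hq
    obtain ⟨hG, hp⟩ := mem_sigma.1 (mem_coe.1 hq)
    obtain ⟨hok, s1, s2⟩ := (mem_filter.1 hp).2
    obtain ⟨r1, r2⟩ := mem_rrC.1 hG
    refine mem_coe.2 (mem_sigma.2 ⟨mem_rrC.2 ⟨fun a => (rrSw_card hok a).trans (r1 a), ?_⟩, ?_⟩)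
    · rintro ⟨a, b⟩ hp
      have hab : G.Adj a b := r2 (a, b) (mem_insert_of_mem hp)
      refine ⟨hab.ne, Or.inl ⟨hab, fun e => ?_, fun e => ?_⟩⟩
      · have e' : s(a, b) = s(u, v) := e
        rcases Sym2.eq_iff.1 e' with ⟨e1, e2⟩ | ⟨e1, e2⟩
        · exact h1 (e1 ▸ e2 ▸ hp)
        · exact h2 (e1 ▸ e2 ▸ hp)
      · have e' : s(a, b) = s(x, y) := e
        have s1' : (x, y) ∉ S := s1
        have s2' : (y, x) ∉ S := s2
        rcases Sym2.eq_iff.1 e' with ⟨e1, e2⟩ | ⟨e1, e2⟩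
        · exact s1' (e1 ▸ e2 ▸ hp)
        · exact s2' (e1 ▸ e2 ▸ hp)
    · exact mem_product.2 ⟨mem_rrN.2 ⟨hok.xu.symm, Or.inr (Or.inl rfl)⟩,
        mem_rrN.2 ⟨hok.yv.symm, Or.inr (Or.inr rfl)⟩⟩
  · rintro ⟨G, x, y⟩ hq ⟨H, x', y'⟩ hr e
    obtain ⟨-, hp⟩ := mem_sigma.1 (mem_coe.1 hq)
    obtain ⟨-, hp'⟩ := mem_sigma.1 (mem_coe.1 hr)
    have ok := (mem_filter.1 hp).2.1
    have ok' := (mem_filter.1 hp').2.1
    simp only [Sigma.mk.injEq, heq_eq_eq, Prod.mk.injEq] at e
    obtain ⟨e, rfl, rfl⟩ := e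
    have : G = H := by
      ext a b
      exact ⟨rrSw_le ok ok' e, rrSw_le ok' ok e.symm⟩
    subst this
    rfl

/-- the constant of one switching step -/
def rrK (d m : ℕ) : ℕ := 2 * (d * d) + 2 * (2 * ((d + 2) * d) + 2 * m) + 1

theorem rr_step (d m : ℕ) (S : Finset (V × V)) (hm : #S ≤ m) {u v : V} (h1 : (u, v) ∉ S)
    (h2 : (v, u) ∉ S) :
    Fintype.card V * #(rrC d (insert (u, v) S)) ≤ rrK d m * #(rrC d S) := by
  have k := rr_switch d S h1 h2
  have le : #(rrC d (insert (u, v) S)) ≤ #(rrC d S) := card_le_card fun G hG =>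
    mem_rrC.2 ⟨(mem_rrC.1 hG).1, fun p hp => (mem_rrC.1 hG).2 p (mem_insert_of_mem hp)⟩
  rcases Nat.eq_zero_or_pos d with rfl | hd
  · have : rrC 0 (insert (u, v) S) = ∅ := by
      refine eq_empty_of_forall_notMem fun G hG => ?_
      obtain ⟨r1, r2⟩ := mem_rrC.1 hG
      have := card_eq_zero.1 (r1 u)
      have h3 := mem_rrN.2 (r2 (u, v) (mem_insert_self _ _))
      simp [this] at h3
    simp [this]
  set n := Fintype.card V
  set a := #(rrC d (insert (u, v) S))
  set b := #(rrC d S)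
  set c := 2 * ((d + 2) * d) + 2 * m with hc
  have k' : a * n ≤ b * (d * d) + a * c := by
    have e1 : a * n ≤ a * (n * d) := Nat.mul_le_mul_left _ (Nat.le_mul_of_pos_right _ hd)
    have e2 : a * (2 * ((d + 2) * d) + 2 * #S) ≤ a * c := Nat.mul_le_mul_left _ (by omega)
    omega
  unfold rrK
  rw [← hc]
  rcases le_total n (2 * c) with h | h
  · nlinarith [Nat.mul_le_mul h le, Nat.zero_le (d * d * b)]
  · nlinarith [Nat.mul_le_mul_left a h, Nat.zero_le (c * b)]

theorem rr_pow {n : ℕ} (d m : ℕ) (S : Finset (Fin n × Fin n)) (hm : #S ≤ m)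
    (hS : ∀ p ∈ S, p.1 < p.2) : n ^ #S * #(rrC d S) ≤ rrK d m ^ #S * #(rrC (V := Fin n) d ∅) := by
  induction S using Finset.induction_on with
  | empty => simp
  | insert p S hp ih =>
    obtain ⟨u, v⟩ := p
    rw [card_insert_of_notMem hp] at hm ⊢
    have ih' := ih (by omega) fun q hq => hS q (mem_insert_of_mem hq)
    have st := rr_step d m S (by omega) hp fun h =>
      lt_asymm (hS (u, v) (mem_insert_self _ _)) (hS (v, u) (mem_insert_of_mem h))
    rw [Fintype.card_fin] at st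
    calc n ^ (#S + 1) * #(rrC d (insert (u, v) S))
        = n ^ #S * (n * #(rrC d (insert (u, v) S))) := by ring
      _ ≤ n ^ #S * (rrK d m * #(rrC d S)) := Nat.mul_le_mul_left _ st
      _ = rrK d m * (n ^ #S * #(rrC d S)) := by ring
      _ ≤ rrK d m * (rrK d m ^ #S * #(rrC (V := Fin n) d ∅)) := Nat.mul_le_mul_left _ ih'
      _ = _ := by ring

/-- the candidate edge sets on T -/
noncomputable def rrP {n : ℕ} (T : Finset (Fin n)) : Finset (Finset (Fin n × Fin n)) :=
  powersetCard (#T + 1) ((T ×ˢ T).filter fun p => p.1 < p.2)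

theorem rr_level {n : ℕ} (d K t : ℕ) (ht : t ≤ K) :
    n * ∑ T ∈ powersetCard t (univ : Finset (Fin n)), ∑ S ∈ rrP T, #(rrC d S) ≤
      2 ^ (K * K) * rrK d (K + 1) ^ (K + 1) * #(rrC (V := Fin n) d ∅) := by
  rcases Nat.eq_zero_or_pos n with rfl | hn
  · simp
  refine Nat.le_of_mul_le_mul_left (c := n ^ t) ?_ (by positivity)
  set R := #(rrC (V := Fin n) d ∅)
  have hK : 1 ≤ rrK d (K + 1) := by unfold rrK; omega
  have each : ∀ T ∈ powersetCard t (univ : Finset (Fin n)),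
      n ^ (t + 1) * ∑ S ∈ rrP T, #(rrC d S) ≤ 2 ^ (K * K) * rrK d (K + 1) ^ (K + 1) * R := by
    intro T hT
    have hc : #T = t := (mem_powersetCard.1 hT).2
    have c1 : #(rrP T) ≤ 2 ^ (K * K) := by
      calc #(rrP T) ≤ #(powerset (T ×ˢ T)) := card_le_card fun S hS =>
            mem_powerset.2 ((mem_powersetCard.1 hS).1.trans (filter_subset _ _))
        _ = 2 ^ (t * t) := by rw [card_powerset, card_product, hc]
        _ ≤ 2 ^ (K * K) := Nat.pow_le_pow_right (by norm_num) (Nat.mul_le_mul ht ht)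
    rw [mul_sum]
    calc ∑ S ∈ rrP T, n ^ (t + 1) * #(rrC d S) ≤ ∑ S ∈ rrP T, rrK d (K + 1) ^ (K + 1) * R := by
          refine sum_le_sum fun S hS => ?_
          obtain ⟨s1, s2⟩ := mem_powersetCard.1 hS
          rw [hc] at s2
          have := rr_pow d (K + 1) S (by omega) fun p hp => (mem_filter.1 (s1 hp)).2
          rw [s2] at this
          exact this.trans (Nat.mul_le_mul_right _ (Nat.pow_le_pow_right hK (by omega)))
      _ = #(rrP T) * (rrK d (K + 1) ^ (K + 1) * R) := by rw [sum_const, smul_eq_mul]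
      _ ≤ 2 ^ (K * K) * (rrK d (K + 1) ^ (K + 1) * R) := Nat.mul_le_mul_right _ c1
      _ = _ := by ring
  calc n ^ t * (n * ∑ T ∈ powersetCard t (univ : Finset (Fin n)), ∑ S ∈ rrP T, #(rrC d S))
      = ∑ T ∈ powersetCard t (univ : Finset (Fin n)),
          n ^ (t + 1) * ∑ S ∈ rrP T, #(rrC d S) := by rw [← mul_sum]; ring
    _ ≤ ∑ _T ∈ powersetCard t (univ : Finset (Fin n)),
          2 ^ (K * K) * rrK d (K + 1) ^ (K + 1) * R := sum_le_sum each
    _ = n.choose t * (2 ^ (K * K) * rrK d (K + 1) ^ (K + 1) * R) := by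
          rw [sum_const, smul_eq_mul, card_powersetCard, card_univ, Fintype.card_fin]
    _ ≤ _ := Nat.mul_le_mul_right _ (Nat.choose_le_pow n t)

omit [DecidableEq V] in
theorem rr_reg_iff {d : ℕ} (G : SimpleGraph V) : G.IsRegularOfDegree d ↔ ∀ a, #(rrN G a) = d := by
  refine forall_congr' fun a => ?_
  rw [← SimpleGraph.card_neighborFinset_eq_degree]
  have : G.neighborFinset a = rrN G a := by ext b; simp [mem_rrN]
  rw [this]

/-- all but a share C / n of the d-regular graphs on n vertices have no small dense vertex set -/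
theorem rr_count (d K : ℕ) : ∃ C : ℕ, ∀ n : ℕ,
    n * Nat.card {G : SimpleGraph (Fin n) // G.IsRegularOfDegree d ∧ ∃ T : Finset (Fin n),
      T.card ≤ K ∧ T.card < (G.edgeFinset.filter fun e => ∀ v ∈ e, v ∈ T).card} ≤
    C * Nat.card {G : SimpleGraph (Fin n) // G.IsRegularOfDegree d} := by
  refine ⟨(K + 1) * (2 ^ (K * K) * rrK d (K + 1) ^ (K + 1)), fun n => ?_⟩
  have e0 : Nat.card {G : SimpleGraph (Fin n) // G.IsRegularOfDegree d} =
      #(rrC (V := Fin n) d ∅) := by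
    rw [Nat.card_eq_fintype_card, Fintype.card_subtype]
    congr 1; ext G
    simp [mem_rrC, rr_reg_iff]
  have e1 : Nat.card {G : SimpleGraph (Fin n) // G.IsRegularOfDegree d ∧ ∃ T : Finset (Fin n),
      T.card ≤ K ∧ T.card < (G.edgeFinset.filter fun e => ∀ v ∈ e, v ∈ T).card} ≤
      ∑ t ∈ range (K + 1), ∑ T ∈ powersetCard t (univ : Finset (Fin n)),
        ∑ S ∈ rrP T, #(rrC d S) := by
    rw [Nat.card_eq_fintype_card, Fintype.card_subtype]
    refine le_trans (card_le_card (t := (range (K + 1)).biUnion fun t =>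
      (powersetCard t (univ : Finset (Fin n))).biUnion fun T => (rrP T).biUnion fun S => rrC d S)
      fun G hG => ?_) (card_biUnion_le.trans (sum_le_sum fun t _ =>
        card_biUnion_le.trans (sum_le_sum fun T _ => card_biUnion_le)))
    obtain ⟨hreg, T, hK, hT⟩ := (mem_filter.1 hG).2
    have hle : #(G.edgeFinset.filter fun e => ∀ v ∈ e, v ∈ T) ≤
        #((T ×ˢ T).filter fun p => p.1 < p.2 ∧ G.Adj p.1 p.2) := by
      refine card_le_card_of_surjOn (fun p => s(p.1, p.2)) fun e he => ?_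
      obtain ⟨he1, he2⟩ := mem_filter.1 (mem_coe.1 he)
      induction e using Sym2.ind with
      | h a b =>
        have hab : G.Adj a b := by simpa using he1
        have ha : a ∈ T := he2 a (by simp)
        have hb : b ∈ T := he2 b (by simp)
        rcases lt_or_gt_of_ne hab.ne with h | h
        · exact ⟨(a, b), mem_coe.2 (mem_filter.2 ⟨mem_product.2 ⟨ha, hb⟩, h, hab⟩), rfl⟩
        · exact ⟨(b, a), mem_coe.2 (mem_filter.2 ⟨mem_product.2 ⟨hb, ha⟩, h, hab.symm⟩),
            Sym2.eq_swap⟩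
    obtain ⟨S, s1, s2⟩ := exists_subset_card_eq (n := #T + 1) (Nat.succ_le_of_lt (hT.trans_le hle))
    refine mem_biUnion.2 ⟨#T, mem_range.2 (by omega), mem_biUnion.2 ⟨T,
      mem_powersetCard.2 ⟨subset_univ _, rfl⟩, mem_biUnion.2 ⟨S, mem_powersetCard.2 ⟨fun p hp => ?_,
        s2⟩, mem_rrC.2 ⟨(rr_reg_iff G).1 hreg, fun p hp => (mem_filter.1 (s1 hp)).2.2⟩⟩⟩⟩
    exact mem_filter.2 ⟨(mem_filter.1 (s1 hp)).1, (mem_filter.1 (s1 hp)).2.1⟩
  rw [e0]
  refine (Nat.mul_le_mul_left n e1).trans ?_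
  rw [mul_sum]
  refine (sum_le_sum fun t ht => rr_level d K t (by have := mem_range.1 ht; omega)).trans ?_
  rw [sum_const, smul_eq_mul, card_range]
  exact le_of_eq (by ring)

omit [Fintype V] in
/-- at most |T| edges inside a nonempty T means at most 3/2 (|T| - 1) edges -/
theorem rr_sparse (G : SimpleGraph V) (T : Finset V) (hT : T.Nonempty) (E : Finset (Sym2 V))
    (hE : ∀ e ∈ E, e ∈ G.edgeSet ∧ ∀ v ∈ e, v ∈ T) (h : E.card ≤ T.card) :
    (E.card : ℝ) ≤ 3 / 2 * ((T.card : ℝ) - 1) := by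
  have h2 : E.card ≤ T.card.choose 2 := by
    rw [← Sym2.card_image_offDiag]
    refine card_le_card fun e he => ?_
    obtain ⟨he1, he2⟩ := hE e he
    induction e using Sym2.ind with
    | h a b =>
      have hab : G.Adj a b := by simpa using he1
      exact mem_image.2 ⟨(a, b), mem_offDiag.2 ⟨he2 a (by simp), he2 b (by simp), hab.ne⟩, rfl⟩
  have h1 := hT.card_pos
  generalize E.card = e at h h2
  generalize T.card = t at h h1 h2
  have h3 : 2 * e + 3 ≤ 3 * t := by
    obtain rfl | rfl | h4 : t = 1 ∨ t = 2 ∨ 3 ≤ t := by omega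
    · simp at h2; omega
    · simp at h2; omega
    · omega
  have h4 : (2 * e + 3 : ℝ) ≤ 3 * t := by exact_mod_cast h3
  linarith

/-- 6-regular graphs exist on at least 7 vertices -/
theorem rr_exists (m : ℕ) : ∃ G : SimpleGraph (Fin (m + 7)), G.IsRegularOfDegree 6 := by
  have inj : ∀ a b : ℤ, |a - b| ≤ 6 → (a : ZMod (m + 7)) = (b : ZMod (m + 7)) → a = b := by
    intro a b h e
    have h1 := (ZMod.intCast_eq_intCast_iff_dvd_sub b a (m + 7)).1 e.symm
    have := Int.eq_zero_of_abs_lt_dvd h1 (by push_cast; omega)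
    omega
  let G : SimpleGraph (ZMod (m + 7)) :=
    { Adj := fun a b => ∃ k ∈ (Icc (-3 : ℤ) 3).erase 0, b = a + (k : ZMod (m + 7))
      symm := ⟨fun a b ⟨k, hk, e⟩ => ⟨-k, by simp only [mem_erase, mem_Icc] at hk ⊢; omega, by
        rw [e]; push_cast; ring⟩⟩
      loopless := ⟨fun a ⟨k, hk, e⟩ => by
        simp only [mem_erase, mem_Icc] at hk
        refine hk.1 (inj k 0 (abs_le.2 (by omega)) ?_)
        rw [Int.cast_zero]
        exact (add_eq_left.1 e.symm)⟩ }
  have hG : ∀ a, #(rrN G a) = 6 := by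
    intro a
    have : rrN G a = ((Icc (-3 : ℤ) 3).erase 0).image fun k : ℤ => a + (k : ZMod (m + 7)) := by
      ext b
      rw [mem_rrN, mem_image]
      exact ⟨fun ⟨k, hk, e⟩ => ⟨k, hk, e.symm⟩, fun ⟨k, hk, e⟩ => ⟨k, hk, e.symm⟩⟩
    rw [this, card_image_of_injOn]
    · rfl
    · intro k hk l hl e
      simp only [coe_erase, coe_Icc, Set.mem_sdiff, Set.mem_Icc] at hk hl
      exact inj k l (abs_le.2 (by omega)) (add_left_cancel e)
  refine ⟨G, (rr_reg_iff (V := Fin (m + 7)) G).2 fun a => ?_⟩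
  rw [← hG a]
  refine congrArg Finset.card (Finset.ext fun b => ?_)
  exact (mem_rrN (V := Fin (m + 7))).trans (mem_rrN (V := ZMod (m + 7))).symm

/-- a property that follows from local sparsity holds for a share tending to 1 of the
6-regular graphs -/
theorem rr_tendsto (K : ℕ) (Q : ∀ n : ℕ, SimpleGraph (Fin n) → Prop)
    (hQ : ∀ (n : ℕ) (G : SimpleGraph (Fin n)), G.IsRegularOfDegree 6 →
      (∀ T : Finset (Fin n), T.Nonempty → T.card ≤ K →
        ((G.edgeFinset.filter fun e => ∀ v ∈ e, v ∈ T).card : ℝ) ≤ 3 / 2 * ((T.card : ℝ) - 1)) →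
      Q n G) :
    Filter.Tendsto (fun n : ℕ =>
      (Nat.card {G : SimpleGraph (Fin n) // G.IsRegularOfDegree 6 ∧ Q n G} : ℝ) /
        (Nat.card {G : SimpleGraph (Fin n) // G.IsRegularOfDegree 6} : ℝ))
      Filter.atTop (nhds 1) := by
  obtain ⟨C, hC⟩ := rr_count 6 K
  have t0 : Filter.Tendsto (fun n : ℕ => 1 - (C : ℝ) / n) Filter.atTop (nhds 1) := by
    simpa using (tendsto_const_div_atTop_nhds_zero_nat (C : ℝ)).const_sub 1
  refine tendsto_of_tendsto_of_tendsto_of_le_of_le' t0 tendsto_const_nhds ?_ ?_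
  · filter_upwards [Filter.eventually_ge_atTop 7] with n hn
    obtain ⟨m, rfl⟩ : ∃ m, n = m + 7 := ⟨n - 7, by omega⟩
    have h1 := hC (m + 7)
    have pos : 0 < Nat.card {G : SimpleGraph (Fin (m + 7)) // G.IsRegularOfDegree 6} := by
      obtain ⟨G, hG⟩ := rr_exists m
      have : Nonempty {G : SimpleGraph (Fin (m + 7)) // G.IsRegularOfDegree 6} := ⟨⟨G, hG⟩⟩
      exact Nat.card_pos
    have split : Nat.card {G : SimpleGraph (Fin (m + 7)) // G.IsRegularOfDegree 6} ≤
        Nat.card {G : SimpleGraph (Fin (m + 7)) // G.IsRegularOfDegree 6 ∧ Q _ G} +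
        Nat.card {G : SimpleGraph (Fin (m + 7)) // G.IsRegularOfDegree 6 ∧
          ∃ T : Finset (Fin (m + 7)), T.card ≤ K ∧
            T.card < (G.edgeFinset.filter fun e => ∀ v ∈ e, v ∈ T).card} := by
      simp only [Nat.card_eq_fintype_card, Fintype.card_subtype]
      refine le_trans (card_le_card fun G hG => ?_) (card_union_le _ _)
      have hr := (mem_filter.1 hG).2
      by_cases hb : ∃ T : Finset (Fin (m + 7)), T.card ≤ K ∧
          T.card < (G.edgeFinset.filter fun e => ∀ v ∈ e, v ∈ T).card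
      · exact mem_union_right _ (mem_filter.2 ⟨mem_univ _, hr, hb⟩)
      · refine mem_union_left _ (mem_filter.2 ⟨mem_univ _, hr, hQ _ G hr fun T hT hK => ?_⟩)
        exact rr_sparse G T hT _ (fun e he => ⟨SimpleGraph.mem_edgeFinset.1 (mem_filter.1 he).1,
          (mem_filter.1 he).2⟩) (not_lt.1 fun h => hb ⟨T, hK, h⟩)
    generalize Nat.card {G : SimpleGraph (Fin (m + 7)) // G.IsRegularOfDegree 6} = r at *
    generalize Nat.card {G : SimpleGraph (Fin (m + 7)) // G.IsRegularOfDegree 6 ∧ Q _ G} = g at *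
    generalize Nat.card {G : SimpleGraph (Fin (m + 7)) // G.IsRegularOfDegree 6 ∧
          ∃ T : Finset (Fin (m + 7)), T.card ≤ K ∧
            T.card < (G.edgeFinset.filter fun e => ∀ v ∈ e, v ∈ T).card} = b at *
    have pr : (0 : ℝ) < r := by exact_mod_cast pos
    have pn : (0 : ℝ) < ((m + 7 : ℕ) : ℝ) := by positivity
    have k1 : (((m + 7 : ℕ) : ℝ)) * b ≤ C * r := by exact_mod_cast h1
    have k2 : (r : ℝ) ≤ g + b := by exact_mod_cast split
    have k3 : (b : ℝ) ≤ C / ((m + 7 : ℕ) : ℝ) * r := by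
      rw [div_mul_eq_mul_div, le_div_iff₀ pn]; linarith
    rw [le_div_iff₀ pr]
    linarith
  · refine Filter.Eventually.of_forall fun n => div_le_one_of_le₀ ?_ (Nat.cast_nonneg _)
    refine Nat.cast_le.2 (Nat.card_le_card_of_injective (fun G => ⟨G.1, G.2.1⟩) fun G H e => ?_)
    exact Subtype.ext (congrArg (fun x => x.1) e)

end RR

end Pool.Agent.Lib.MP_6b7ffe_lc
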