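import Pool.Agent.Lib.MP_6b7ffe_lc.LS.Base

set_option autoImplicit false

namespace Pool.Agent.Lib.MP_6b7ffe_lc.LS

open Function Pool.Agent.Lib.Complexity

structure OC (A : Mat) (c : Prt) : Prop where
  ne : ∀ u w, adj A u w = true → prt c u w ≠ prt c w u
  inj : ∀ u w w', adj A u w = true → adj A u w' = true → prt c u w = prt c u w' →
    prt c w u = prt c w' u → w = w'

def arcs (A : Mat) (c : Prt) (a : Fin 3) : Mat :=
  mk A.length fun u w => adj A u w && decide (prt c u w = a)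

def snk (A : Mat) (L : List ℕ) (u : ℕ) : ℕ := (L.find? (adj A u)).getD 0

def arc0 (A : Mat) (c : Prt) (L : List ℕ) (a : Fin 3) : Mat :=
  mk A.length fun u w => adj (cor A L) u w && decide (prt c u w = a) &&
    decide (tch A L u = false ∨ prt c u (snk A L u) = a ∨ prt c w u = prt c u (snk A L u))

def tyOf (H : Typ) (b : ℕ) : Fin 3 × Bool :=
  ((H.find? fun t => decide (t.1 = b)).map fun t => t.2).getD (0, true)

def rec1 (A : Mat) (c : Prt) (L : List ℕ) (H : Typ) (u w : ℕ) : Fin 3 :=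
  if tch A L u = true ∧ prt c u w = (tyOf H (snk A L u)).1 ∧ prt c w u ≠ prt c u (snk A L u)
  then prt c u (snk A L u) else prt c u w

def recm (A : Mat) (c : Prt) (L : List ℕ) (H : Typ) : Prt :=
  (List.range A.length).map fun u => (List.range A.length).map (rec1 A c L H u)

def arc1 (A : Mat) (c : Prt) (L : List ℕ) (H : Typ) (a : Fin 3) : Mat :=
  arcs (cor A L) (recm A c L H) a

def ray (A : Mat) (L : List ℕ) (H : Typ) (a : Fin 3) (u : ℕ) : ℕ :=
  if tch A L u = true ∧ (tyOf H (snk A L u)).1 = a then 1 else 0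

def exits (A : Mat) (c : Prt) (L : List ℕ) (H : Typ) (a : Fin 3) (s : Bool) : List ℕ :=
  (List.range A.length).filter fun u => decide (u ∈ L ∨
    (nb (arc1 A c L H a) u).length + ray A L H a u < 2 ∨
    (tch A L u = true ∧ tyOf H (snk A L u) = (a, s)))

section
variable {A : Mat} {c : Prt} {L : List ℕ} {H : Typ} {a : Fin 3} {u w b : ℕ}

@[simp] theorem arcs_length : (arcs A c a).length = A.length := mk_length
@[simp] theorem arc0_length : (arc0 A c L a).length = A.length := mk_length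
@[simp] theorem arc1_length : (arc1 A c L H a).length = A.length := by simp [arc1]

theorem adj_arcs (G : Gr A) : adj (arcs A c a) u w = true ↔ adj A u w = true ∧ prt c u w = a := by
  rw [arcs, adj_mk]
  simp only [Bool.and_eq_true, decide_eq_true_eq]
  exact ⟨fun h => h.2.2, fun h => ⟨(G.rng _ _ h.1).1, (G.rng _ _ h.1).2, h⟩⟩

theorem gr_cor (G : Gr A) : Gr (cor A L) := by
  refine ⟨fun u v => ?_, fun u => ?_, fun u v h => ?_, fun v => ?_⟩
  · rw [Bool.eq_iff_iff, adj_cor G, adj_cor G, G.symm]; tauto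
  · rw [Bool.eq_false_iff]; intro h
    exact G.ne ((adj_cor G).1 h).1 rfl
  · simpa using G.rng _ _ ((adj_cor G).1 h).1
  · refine le_trans (length_le_of_sub (List.nodup_range.filter _) fun x hx => ?_) (G.deg v)
    obtain ⟨h1, h2⟩ := List.mem_filter.1 hx
    exact List.mem_filter.2 ⟨by simpa using h1, ((adj_cor G).1 h2).1⟩

theorem adj_arc0 (G : Gr A) : adj (arc0 A c L a) u w = true ↔
    (adj A u w = true ∧ u ∉ L ∧ w ∉ L) ∧ prt c u w = a ∧
      (tch A L u = false ∨ prt c u (snk A L u) = a ∨ prt c w u = prt c u (snk A L u)) := by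
  rw [arc0, adj_mk]
  simp only [Bool.and_eq_true, decide_eq_true_eq, adj_cor G]
  exact ⟨fun h => ⟨h.2.2.1.1, h.2.2.1.2, h.2.2.2⟩,
    fun h => ⟨(G.rng _ _ h.1.1).1, (G.rng _ _ h.1.1).2, ⟨h.1, h.2.1⟩, h.2.2⟩⟩

theorem prt_recm (hu : u < A.length) (hw : w < A.length) :
    prt (recm A c L H) u w = rec1 A c L H u w := by
  simp [prt, recm, hu, hw]

theorem adj_arc1 (G : Gr A) : adj (arc1 A c L H a) u w = true ↔
    (adj A u w = true ∧ u ∉ L ∧ w ∉ L) ∧ rec1 A c L H u w = a := by
  rw [arc1, adj_arcs (gr_cor G), adj_cor G]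
  refine and_congr_right fun h => ?_
  rw [prt_recm (G.rng _ _ h.1).1 (G.rng _ _ h.1).2]

theorem snk_spec (h : tch A L u = true) : snk A L u ∈ L ∧ adj A u (snk A L u) = true := by
  unfold snk
  rcases hf : L.find? (adj A u) with _ | x
  · obtain ⟨b, h1, h2⟩ := tch_iff.1 h
    exact absurd h2 (List.find?_eq_none.1 hf b h1)
  · exact ⟨List.mem_of_find?_eq_some hf, List.find?_some hf⟩

theorem snk_eq (G : Gr A) (S : Sep A 2 L) (hb : b ∈ L) (h : adj A u b = true) :
    snk A L u = b := by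
  obtain ⟨h1, h2⟩ := snk_spec (tch_iff.2 ⟨b, hb, h⟩)
  rw [G.symm] at h
  exact S b hb _ h1 (ball_arc (ball_one G h) (G.rng _ _ h2).2 h2)

theorem sub_arcs (G : Gr A) (O : OC A c) : Sub (arcs A c a) A := by
  refine ⟨arcs_length, fun u w h => ((adj_arcs G).1 h).1, fun u w h => ?_⟩
  rw [Bool.eq_false_iff]; intro h'
  obtain ⟨h1, h2⟩ := (adj_arcs G).1 h
  exact O.ne _ _ h1 (h2.trans ((adj_arcs G).1 h').2.symm)

theorem sub_arc0 (G : Gr A) (O : OC A c) : Sub (arc0 A c L a) A := by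
  refine ⟨arc0_length, fun u w h => ((adj_arc0 G).1 h).1.1, fun u w h => ?_⟩
  rw [Bool.eq_false_iff]; intro h'
  obtain ⟨h1, h2, -⟩ := (adj_arc0 G).1 h
  exact O.ne _ _ h1.1 (h2.trans ((adj_arc0 G).1 h').2.1.symm)

theorem rec1_ne (G : Gr A) (O : OC A c) (S : Sep A 3 L) (h : adj A u w = true) :
    rec1 A c L H u w ≠ rec1 A c L H w u := by
  have n := O.ne _ _ h
  unfold rec1
  split_ifs with h1 h2 h2
  · obtain ⟨a1, a2⟩ := snk_spec h1.1
    obtain ⟨b1, b2⟩ := snk_spec h2.1
    rw [G.symm] at a2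
    have := S _ a1 _ b1 (ball_arc (ball_arc (ball_one G a2) (G.rng _ _ h).2 h)
      (G.rng _ _ b2).2 b2)
    exact absurd (h1.2.1.trans (this ▸ h2.2.1.symm)) n
  · exact h1.2.2.symm
  · exact h2.2.2
  · exact n

theorem sub_arc1 (G : Gr A) (O : OC A c) (S : Sep A 3 L) : Sub (arc1 A c L H a) A := by
  refine ⟨arc1_length, fun u w h => ((adj_arc1 G).1 h).1.1, fun u w h => ?_⟩
  rw [Bool.eq_false_iff]; intro h'
  obtain ⟨h1, h2⟩ := (adj_arc1 G).1 h
  exact rec1_ne G O S h1.1 (h2.trans ((adj_arc1 G).1 h').2.symm)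

theorem arc0_arc1 (G : Gr A) (h : adj (arc0 A c L a) u w = true) :
    adj (arc1 A c L H a) u w = true := by
  obtain ⟨h1, h2, h3⟩ := (adj_arc0 G).1 h
  refine (adj_arc1 G).2 ⟨h1, ?_⟩
  unfold rec1
  split_ifs with h4
  · rcases h3 with h3 | h3 | h3
    · rw [h4.1] at h3; cases h3
    · exact h3
    · exact absurd h3 h4.2.2
  · exact h2

theorem len_le_card (O : OC A c) {l : List ℕ} (hl : l.Nodup) (s : Finset (Fin 3 × Fin 3))
    (h : ∀ w ∈ l, adj A u w = true ∧ (prt c u w, prt c w u) ∈ s) : l.length ≤ s.card := by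
  rw [← List.toFinset_card_of_nodup hl]
  refine Finset.card_le_card_of_injOn (fun w => (prt c u w, prt c w u))
    (fun w hw => (h w (List.mem_toFinset.1 hw)).2) fun w hw w' hw' e => ?_
  exact O.inj u w w' (h w (List.mem_toFinset.1 hw)).1 (h w' (List.mem_toFinset.1 hw')).1
    (congrArg Prod.fst e) (congrArg Prod.snd e)

/-- colour pairs of the darts that have colour `a` after the recolouring -/
def prs (I J J' a : Fin 3) : Finset (Fin 3 × Fin 3) :=
  Finset.univ.filter fun p => p.1 ≠ p.2 ∧ p ≠ (J, J') ∧ (if p.1 = I ∧ p.2 ≠ J then J else p.1) = a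

theorem prs_card : ∀ I J J' a : Fin 3, J ≠ J' →
    (prs I J J' a).card + (if I = a then 1 else 0) ≤ 2 ∧
    ((prs I J J' a).filter fun p => ¬ (p.1 = a ∧ (J = a ∨ p.2 = J))).card +
      (if I = a then 1 else 0) < 2 := by
  decide

theorem mem_prs (G : Gr A) (O : OC A c) (t : tch A L u = true)
    (h : w ∈ nb (arc1 A c L H a) u) : adj A u w = true ∧ (prt c u w, prt c w u) ∈
      prs (tyOf H (snk A L u)).1 (prt c u (snk A L u)) (prt c (snk A L u) u) a := by
  obtain ⟨h1, h2⟩ := (adj_arc1 G).1 (mem_nb.1 h).2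
  obtain ⟨s1, s2⟩ := snk_spec t
  refine ⟨h1.1, Finset.mem_filter.2 ⟨Finset.mem_univ _, O.ne _ _ h1.1, fun e => ?_, ?_⟩⟩
  · have := O.inj u w _ h1.1 s2 (congrArg Prod.fst e) (congrArg Prod.snd e)
    exact h1.2.2 (this ▸ s1)
  · simpa [rec1, t] using h2

theorem nb_arc1_le (G : Gr A) (O : OC A c) :
    (nb (arc1 A c L H a) u).length + ray A L H a u ≤ 2 := by
  unfold ray
  by_cases t : tch A L u = true
  · have h1 := len_le_card (u := u) O (nb_nodup (D := arc1 A c L H a) (u := u)) _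
      fun w hw => mem_prs G O t hw
    have h2 := (prs_card (tyOf H (snk A L u)).1 _ _ a (O.ne _ _ (snk_spec t).2)).1
    simp only [t, true_and]
    omega
  · have h1 := len_le_card (u := u) O (nb_nodup (D := arc1 A c L H a) (u := u))
      (Finset.univ.filter fun p => p.1 ≠ p.2 ∧ p.1 = a) fun w hw => by
        obtain ⟨h1, h2⟩ := (adj_arc1 G).1 (mem_nb.1 hw).2
        exact ⟨h1.1, Finset.mem_filter.2 ⟨Finset.mem_univ _, O.ne _ _ h1.1, by
          simpa [rec1, t] using h2⟩⟩
    have h2 : ∀ a : Fin 3,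
      (Finset.univ.filter fun p : Fin 3 × Fin 3 => p.1 ≠ p.2 ∧ p.1 = a).card ≤ 2 := by decide
    have := h2 a
    simp only [t, false_and, if_false, Bool.false_eq_true]
    omega

theorem wild_of_stop (G : Gr A) (O : OC A c) (h : stop A (arc0 A c L a) L u = true) :
    (nb (arc1 A c L H a) u).length + ray A L H a u < 2 := by
  unfold ray
  simp only [stop, decide_eq_true_eq] at h
  by_cases t : tch A L u = true
  · simp only [t, if_true] at h
    have h0 : nb (arc0 A c L a) u = [] := List.length_eq_zero_iff.1 (by omega)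
    have h1 := len_le_card (u := u) O (nb_nodup (D := arc1 A c L H a) (u := u))
      ((prs (tyOf H (snk A L u)).1 (prt c u (snk A L u)) (prt c (snk A L u) u) a).filter
        fun p => ¬ (p.1 = a ∧ (prt c u (snk A L u) = a ∨ p.2 = prt c u (snk A L u))))
      fun w hw => by
        obtain ⟨m1, m2⟩ := mem_prs G O t hw
        refine ⟨m1, Finset.mem_filter.2 ⟨m2, fun e => ?_⟩⟩
        have : w ∈ nb (arc0 A c L a) u := mem_nb.2 ⟨by simpa using (G.rng _ _ m1).2,
          (adj_arc0 G).2 ⟨((adj_arc1 G).1 (mem_nb.1 hw).2).1, e.1, .inr e.2⟩⟩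
        simp [h0] at this
    have h2 := (prs_card (tyOf H (snk A L u)).1 _ _ a (O.ne _ _ (snk_spec t).2)).2
    simp only [t, true_and]
    omega
  · have h1 := length_le_of_sub (l' := nb (arc0 A c L a) u)
      (nb_nodup (D := arc1 A c L H a) (u := u)) fun w hw => by
        obtain ⟨h1, h2⟩ := (adj_arc1 G).1 (mem_nb.1 hw).2
        exact mem_nb.2 ⟨by simpa using (G.rng _ _ h1.1).2, (adj_arc0 G).2 ⟨h1, by
          simpa [rec1, t] using h2, .inl (by simpa using t)⟩⟩
    simp only [t, false_and, if_false, Bool.false_eq_true] at h ⊢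
    omega

theorem mem_exits {s : Bool} : u ∈ exits A c L H a s ↔ u < A.length ∧ (u ∈ L ∨
    (nb (arc1 A c L H a) u).length + ray A L H a u < 2 ∨
    (tch A L u = true ∧ tyOf H (snk A L u) = (a, s))) := by
  simp only [exits, List.mem_filter, List.mem_range, decide_eq_true_eq]

theorem two_of_not_exit (hu : u < A.length) (h1 : u ∉ exits A c L H a false)
    (h2 : u ∉ exits A c L H a true) : 2 ≤ (nb (arc1 A c L H a) u).length := by
  rw [mem_exits] at h1 h2
  have : ray A L H a u = 0 := by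
    unfold ray
    rw [if_neg]
    rintro ⟨t, e⟩
    cases hs : (tyOf H (snk A L u)).2
    · exact h1 ⟨hu, .inr (.inr ⟨t, Prod.ext e hs⟩)⟩
    · exact h2 ⟨hu, .inr (.inr ⟨t, Prod.ext e hs⟩)⟩
  by_contra h
  exact h1 ⟨hu, .inr (.inl (by omega))⟩

theorem tyOf_eq {t : Fin 3 × Bool} (h : (b, t) ∈ H)
    (hu : ∀ p ∈ H, ∀ q ∈ H, p.1 = q.1 → p = q) : tyOf H b = t := by
  unfold tyOf
  rcases hf : H.find? fun t => decide (t.1 = b) with _ | x
  · simpa using List.find?_eq_none.1 hf _ h
  · have := hu x (List.mem_of_find?_eq_some hf) _ h (by simpa using List.find?_some hf)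
    rw [hf, this]; rfl

end

section
variable {α : Type} [Enc α] {A : α → Mat} {c : α → Prt} {u v : α → ℕ} {L : α → List ℕ}
  {H : α → Typ} {a : α → Fin 3} {s : α → Bool}

@[fun_prop] theorem pt_arcs (hA : PT A) (hc : PT c) (ha : PT a) :
    PT fun x => arcs (A x) (c x) (a x) := by
  unfold arcs; fun_prop

@[fun_prop] theorem pt_snk (hA : PT A) (hL : PT L) (hu : PT u) :
    PT fun x => snk (A x) (L x) (u x) := by
  unfold snk; fun_prop

@[fun_prop] theorem pt_arc0 (hA : PT A) (hc : PT c) (hL : PT L) (ha : PT a) :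
    PT fun x => arc0 (A x) (c x) (L x) (a x) := by
  unfold arc0; fun_prop

@[fun_prop] theorem pt_tyOf (hH : PT H) (hu : PT u) : PT fun x => tyOf (H x) (u x) := by
  unfold tyOf; fun_prop

@[fun_prop] theorem pt_recm (hA : PT A) (hc : PT c) (hL : PT L) (hH : PT H) :
    PT fun x => recm (A x) (c x) (L x) (H x) := by
  unfold recm rec1; fun_prop

@[fun_prop] theorem pt_arc1 (hA : PT A) (hc : PT c) (hL : PT L) (hH : PT H) (ha : PT a) :
    PT fun x => arc1 (A x) (c x) (L x) (H x) (a x) := by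
  unfold arc1; fun_prop

@[fun_prop] theorem pt_exits (hA : PT A) (hc : PT c) (hL : PT L) (hH : PT H) (ha : PT a)
    (hs : PT s) : PT fun x => exits (A x) (c x) (L x) (H x) (a x) (s x) := by
  unfold exits ray; fun_prop

end

end Pool.Agent.Lib.MP_6b7ffe_lc.LS
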