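import Pool.Agent.Lib.MP_6b7ffe_lc.LS.Base

set_option autoImplicit false

namespace Pool.Agent.Lib.MP_6b7ffe_lc.LS

open Function Pool.Agent.Lib.Complexity

/-- roles U, Z, +J, -J, +K, -K of six points with coordinates `y` (axis J) and `z` (axis K) -/
def okR (y z : ℕ → ℕ) (U Z yp ym zp zm : ℕ) : Prop :=
  y U < y yp ∧ y ym < y U ∧ z Z < z zp ∧ z zm < z Z ∧ (z U < z zm ∨ z zp < z U) ∧
    ∀ h ∈ [yp, ym], ∀ g ∈ [zp, zm],
      ¬ (btw (y g) (y h) (y U) = true ∧ btw (z h) (z g) (z Z) = true)

theorem roles_sort (y : ℕ → ℕ) (l : List ℕ) (hy : (l.map y).Nodup) :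
    ∃ m : List ℕ, m.Perm l ∧ m.Pairwise fun a b => y a < y b := by
  have p := List.mergeSort_perm l fun a b => decide (y a ≤ y b)
  have s := List.pairwise_mergeSort (le := fun a b => decide (y a ≤ y b))
    (fun a b c => by simp only [decide_eq_true_eq]; omega)
    (fun a b => by simp only [Bool.or_eq_true, decide_eq_true_eq]; omega) l
  have n := List.pairwise_map.1 ((p.map y).nodup_iff.2 hy)
  exact ⟨_, p, (s.and n).imp fun h => lt_of_le_of_ne (of_decide_eq_true h.1) h.2⟩

/-- The extreme points in `y` are the `J` heads, the other four are sorted by `z`. -/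
theorem roles (y z : ℕ → ℕ) (l : List ℕ) (hl : l.length = 6) (hy : (l.map y).Nodup)
    (hz : (l.map z).Nodup) :
    ∃ U Z yp ym zp zm, [U, Z, yp, ym, zp, zm].Perm l ∧ okR y z U Z yp ym zp zm := by
  obtain ⟨m, p, s⟩ := roles_sort y l hy
  have hm := p.length_eq.trans hl
  have nz := (p.map z).nodup_iff.2 hz
  match m, hm with
  | [a, b, c, d, e, f], _ =>
  obtain ⟨k, q, t⟩ := roles_sort z [b, c, d, e]
    (nz.sublist (List.Sublist.map _ (by simp)))
  have hk := q.length_eq
  have mid : ∀ x ∈ k, y a < y x ∧ y x < y f := fun x hx => by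
    have := q.subset hx
    simp only [List.pairwise_cons, List.mem_cons, List.not_mem_nil, or_false, forall_eq_or_imp,
      forall_eq] at s this
    rcases this with rfl | rfl | rfl | rfl <;> omega
  match k, hk with
  | [U, zm, Z, zp], _ =>
  simp only [List.pairwise_cons, List.mem_cons, List.not_mem_nil, or_false, forall_eq_or_imp,
    forall_eq] at t mid
  refine ⟨U, Z, f, a, zp, zm, .trans ?_ p, ?_⟩
  · have q2 : (a :: ([U, zm, Z, zp] ++ [f])).Perm (a :: ([b, c, d, e] ++ [f])) :=
      (q.append_right _).cons a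
    refine .trans (List.perm_iff_count.2 fun x => ?_) q2
    simp only [List.count_cons, List.cons_append, List.nil_append]
    omega
  · simp only [okR, btw, decide_eq_true_eq, List.mem_cons, List.not_mem_nil, or_false,
      forall_eq_or_imp, forall_eq]
    omega

theorem roles_step {A : Mat} {X : List (List ℕ)} {c : Prt} (H : GP A X c) {u : ℕ} {I : Fin 3}
    {s : Bool}
    (h : ∀ w, adj A u w = true → prt c u w = I →
      if s = true then crdX X I w < crdX X I u else crdX X I u < crdX X I w) :
    ∀ w, adj A u w = true → prt (ustep A X c) u w = I →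
      if s = true then crdX X I w < crdX X I u else crdX X I u < crdX X I w := by
  unfold ustep
  rcases hf : (trip A.length).find? (crs A X c) with _ | ⟨a, v, b⟩
  · exact h
  obtain ⟨h1, h2, -, -, -, h6, h7⟩ := crs_iff.1 (List.find?_some hf)
  simp only [btw, decide_eq_true_eq] at h6 h7
  intro w hw
  simp only [Option.elim]
  rw [prt_swp (H.rng _ _ hw).1 (H.rng _ _ hw).2]
  rw [H.symm] at h1 h2
  by_cases e1 : u = v ∧ w = a
  · obtain ⟨rfl, rfl⟩ := e1
    rw [if_pos ⟨rfl, rfl⟩]
    intro e
    have := h b h2 e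
    rw [e] at h6
    split_ifs at this ⊢ <;> omega
  rw [if_neg e1]
  by_cases e2 : u = v ∧ w = b
  · obtain ⟨rfl, rfl⟩ := e2
    rw [if_pos ⟨rfl, rfl⟩]
    intro e
    have := h a h1 e
    rw [e] at h7
    split_ifs at this ⊢ <;> omega
  rw [if_neg e2]
  exact h w hw

/-- The port swaps of `unc` keep a free ray. -/
theorem unc_ray {A : Mat} {X : List (List ℕ)} {c : Prt} (H : GP A X c) {u : ℕ} {I : Fin 3}
    {s : Bool}
    (h : ∀ w, adj A u w = true → prt c u w = I →
      if s = true then crdX X I w < crdX X I u else crdX X I u < crdX X I w) :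
    ∀ w, adj A u w = true → prt (unc A X c) u w = I →
      if s = true then crdX X I w < crdX X I u else crdX X I u < crdX X I w := by
  unfold unc
  induction A.length * (A.length * A.length) + 1 with
  | zero => exact h
  | succ k ih =>
    rw [iterate_succ_apply']
    exact roles_step (iter_spec H k).1 ih

end Pool.Agent.Lib.MP_6b7ffe_lc.LS
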