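import Pool.Agent.Lib.MP_6b7ffe_lc.LS.SatL
import Pool.Agent.Lib.Complexity.Bridge

/-! Deterministic solver for sparse clause sets: the algorithm and its running time. -/

set_option autoImplicit false

namespace Pool.Agent.Lib.MP_6b7ffe_lc.Sat

open Function Pool.Agent.Lib.Complexity

abbrev Cl (V : Type) := List (V × Bool)

section defs
variable {V : Type} [DecidableEq V] (k d : ℕ)

def vs (F : List (Cl V)) : List V := (F.flatMap fun c => c.map Prod.fst).dedup
def tr (σ L : Cl V) : Bool := L.any fun p => decide (p ∈ σ)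
def fl (σ L : Cl V) : ℕ := L.countP fun p => decide ((p.1, !p.2) ∈ σ)
def wt (σ L : Cl V) : ℤ := bif tr σ L then 0 else 2 ^ fl σ L
def pot (W : List (Cl V)) (σ : Cl V) : ℤ := (W.map (wt σ)).sum
def has (c : Cl V) (x : V) : Bool := decide (x ∈ c.map Prod.fst)
def dang (σ c : Cl V) : Bool := !tr σ c && decide (k ≤ fl σ c)
def frz (F : List (Cl V)) (σ : Cl V) (x : V) : Bool := F.any fun c => dang k σ c && has c x
def step (F W : List (Cl V)) (σ : Cl V) (x : V) : Cl V :=
  bif has σ x || frz k F σ x then σ else (x, decide (pot W ((x, true) :: σ) ≤ pot W σ)) :: σ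
def nb (F : List (Cl V)) (c : Cl V) : List (Cl V) := (F.filter (meets c)).take d
def nb3 (F : List (Cl V)) (c : Cl V) : List (Cl V) :=
  ((nb d F c).flatMap (nb d F)).flatMap (nb d F)
def ext (F : List (Cl V)) (Ws : List (List (Cl V))) : List (List (Cl V)) :=
  Ws.flatMap fun w => (nb3 d F (w.headD [])).map fun c => c :: w
def walks (F : List (Cl V)) (j : ℕ) : List (List (Cl V)) := (ext d F)^[j] (F.map fun c => [c])
def lg (F : List (Cl V)) : ℕ := F.length.bits.length
def wit (F : List (Cl V)) : List (Cl V) :=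
  ((walks d F (2 * lg F)).map fun w => w.dedup.flatten).filter fun L =>
    decide ((L.map Prod.fst).dedup.length = L.length)
def sig (F : List (Cl V)) : Cl V := (vs F).foldl (step k F (wit d F)) []
def rel (F : List (Cl V)) (σ : Cl V) (x y : V) : Bool :=
  !has σ x && !has σ y && F.any fun c => !tr σ c && has c x && has c y
def grow (F : List (Cl V)) (σ : Cl V) (U : List V) : List V :=
  (vs F).filter fun y => U.any fun x => rel F σ x y
def cmp (F : List (Cl V)) (σ : Cl V) (x : V) : List V := (grow F σ)^[(vs F).length + 1] [x]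
def subs (l : List V) : List (List V) := l.foldr (fun a r => r ++ r.map fun T => a :: T) [[]]
def ok (F : List (Cl V)) (σ : Cl V) (K T : List V) : Bool :=
  F.all fun c => tr σ c || !(K.any (has c)) ||
    c.any fun p => decide (p.1 ∈ K) && decide (decide (p.1 ∈ T) = p.2)
def best (F : List (Cl V)) (σ : Cl V) (K : List V) : List V :=
  ((subs (K.take (lg F * (d * (2 * k))))).find? (ok F σ K)).getD []
def out (F : List (Cl V)) (σ : Cl V) : List V :=
  (vs F).filter fun x => decide ((x, true) ∈ σ) ||
    (!has σ x && decide (x ∈ best k d F σ (cmp F σ x)))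

theorem nb_len (F : List (Cl V)) (c : Cl V) : (nb d F c).length ≤ d := List.length_take_le _ _

theorem len_flatMap_le {α β : Type} (l : List α) (f : α → List β) (B : ℕ)
    (h : ∀ a, (f a).length ≤ B) : (l.flatMap f).length ≤ l.length * B := by
  induction l with
  | nil => simp
  | cons a l ih =>
    have := h a
    simp only [List.flatMap_cons, List.length_append, List.length_cons, Nat.succ_mul]; omega

theorem nb3_len (F : List (Cl V)) (c : Cl V) : (nb3 d F c).length ≤ d ^ 3 := by
  refine (len_flatMap_le _ _ d (nb_len d F)).trans ?_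
  rw [pow_succ, pow_two]
  exact Nat.mul_le_mul_right d ((len_flatMap_le _ _ d (nb_len d F)).trans
    (Nat.mul_le_mul_right d (nb_len d F c)))

theorem nb_mem {F : List (Cl V)} {c e : Cl V} (h : e ∈ nb d F c) : e ∈ F :=
  List.mem_of_mem_filter (List.mem_of_mem_take h)

theorem walks_succ (F : List (Cl V)) (j : ℕ) : walks d F (j + 1) = ext d F (walks d F j) :=
  iterate_succ_apply' _ _ _

theorem walks_len (F : List (Cl V)) (j : ℕ) : (walks d F j).length ≤ F.length * (d ^ 3) ^ j := by
  induction j with
  | zero => simp [walks]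
  | succ j ih =>
    rw [walks_succ, pow_succ, ← mul_assoc]
    exact (len_flatMap_le _ _ (d ^ 3) fun w => by simpa using nb3_len d F _).trans
      (Nat.mul_le_mul_right _ ih)

theorem walks_mem (F : List (Cl V)) (j : ℕ) :
    ∀ w ∈ walks d F j, w.length = j + 1 ∧ ∀ c ∈ w, c ∈ F := by
  induction j with
  | zero =>
    intro w hw
    obtain ⟨c, hc, rfl⟩ := List.mem_map.1 hw
    simpa using hc
  | succ j ih =>
    intro w hw
    rw [walks_succ] at hw
    obtain ⟨w', h1, h2⟩ := List.mem_flatMap.1 hw
    obtain ⟨c, hc, rfl⟩ := List.mem_map.1 h2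
    obtain ⟨e, -, he⟩ := List.mem_flatMap.1 hc
    exact ⟨by simp [(ih w' h1).1], List.forall_mem_cons.2 ⟨nb_mem d he, (ih w' h1).2⟩⟩

omit [DecidableEq V] in
theorem lg_lt (F : List (Cl V)) : F.length < 2 ^ lg F := lt_two_pow_bits _

omit [DecidableEq V] in
theorem lg_le (F : List (Cl V)) : 2 ^ lg F ≤ 2 * F.length + 1 := by
  unfold lg
  rw [Nat.size_eq_bits_len]
  rcases h : F.length.size with _ | s
  · simp
  · have := Nat.lt_size.1 (show s < F.length.size by omega)
    rw [pow_succ]; omega

omit [DecidableEq V] in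
theorem subs_spec (l : List V) :
    (subs l).length = 2 ^ l.length ∧ ∀ T, T ∈ subs l ↔ T.Sublist l := by
  induction l with
  | nil => simp [subs]
  | cons a l ih =>
    have e : subs (a :: l) = subs l ++ (subs l).map fun T => a :: T := rfl
    refine ⟨by simp [e, ih.1, pow_succ]; omega, fun T => ?_⟩
    simp only [e, List.mem_append, List.mem_map, ih.2, List.sublist_cons_iff]
    exact or_congr_right ⟨fun ⟨r, h1, h2⟩ => ⟨r, h2.symm, h1⟩, fun ⟨r, h1, h2⟩ => ⟨r, h2, h1.symm⟩⟩

end defs

section pt
variable {α V : Type} [Enc α] [Enc V] [DecidableEq V] {k d : ℕ}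
  {F W : α → List (Cl V)} {σ c e : α → Cl V} {x y : α → V} {K T : α → List V}

@[fun_prop] theorem pt_dedup {β : Type} [Enc β] [DecidableEq β] {l : α → List β} (hl : PT l) :
    PT fun a => (l a).dedup :=
  (PT.foldr_add' (f := fun _ b x => if b ∈ x then x else b :: x) (g := fun _ b => sz b + 1) hl
    (PT.const []) (by fun_prop) (by fun_prop) fun a b x => by
      split_ifs
      · simp
      · simp; omega).of_eq fun a => by
    induction l a with
    | nil => rfl
    | cons b l ih =>
      rw [List.foldr_cons, ih]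
      split_ifs with h
      · rw [List.dedup_cons_of_mem' h]
      · rw [List.dedup_cons_of_notMem' h]

@[fun_prop] theorem pt_meets (hc : PT c) (he : PT e) : PT fun a => meets (c a) (e a) := by
  unfold meets; fun_prop
@[fun_prop] theorem pt_vs (hF : PT F) : PT fun a => vs (F a) := by unfold vs; fun_prop
@[fun_prop] theorem pt_tr (hσ : PT σ) (hc : PT c) : PT fun a => tr (σ a) (c a) := by
  unfold tr; fun_prop
@[fun_prop] theorem pt_fl (hσ : PT σ) (hc : PT c) : PT fun a => fl (σ a) (c a) := by
  unfold fl; fun_prop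
@[fun_prop] theorem pt_wt (hσ : PT σ) (hc : PT c) : PT fun a => wt (σ a) (c a) := by
  unfold wt; fun_prop
@[fun_prop] theorem pt_pot (hW : PT W) (hσ : PT σ) : PT fun a => pot (W a) (σ a) := by
  unfold pot; fun_prop
@[fun_prop] theorem pt_has (hc : PT c) (hx : PT x) : PT fun a => has (c a) (x a) := by
  unfold has; fun_prop
@[fun_prop] theorem pt_dang (hσ : PT σ) (hc : PT c) : PT fun a => dang k (σ a) (c a) := by
  unfold dang; fun_prop
@[fun_prop] theorem pt_frz (hF : PT F) (hσ : PT σ) (hx : PT x) :
    PT fun a => frz k (F a) (σ a) (x a) := by unfold frz; fun_prop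
@[fun_prop] theorem pt_step (hF : PT F) (hW : PT W) (hσ : PT σ) (hx : PT x) :
    PT fun a => step k (F a) (W a) (σ a) (x a) := by unfold step; fun_prop
@[fun_prop] theorem pt_nb (hF : PT F) (hc : PT c) : PT fun a => nb d (F a) (c a) := by
  unfold nb; fun_prop
@[fun_prop] theorem pt_nb3 (hF : PT F) (hc : PT c) : PT fun a => nb3 d (F a) (c a) := by
  unfold nb3; fun_prop
omit [DecidableEq V] in
@[fun_prop] theorem pt_lg (hF : PT F) : PT fun a => lg (F a) := (PTB.of_unary hF.length).length

omit [DecidableEq V] in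
theorem pb_two_pow (hF : PT F) (m : ℕ) : PB sz fun a => 2 ^ (lg (F a) * m) :=
  ((((PB.const 2).mul hF.length.pb_nat).add (PB.const 1)).pow m).mono fun a => by
    rw [pow_mul]; exact Nat.pow_le_pow_left (lg_le _) _

theorem pt_walks (hF : PT F) : PT fun a => walks d (F a) (2 * lg (F a)) := by
  have hl : PT fun a => 2 * lg (F a) := by fun_prop
  refine PT.iterate (step := fun a => ext d (F a)) hl (by fun_prop) (by unfold ext; fun_prop)
    (B := fun a => (F a).length * 2 ^ (lg (F a) * (6 * d)) *
      ((2 * lg (F a) + 1) * (sz (F a) + 1) + 1))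
    ((hF.length.pb_nat.mul (pb_two_pow hF _)).mul
      (((hl.pb_nat.add (PB.const 1)).mul (hF.pb.add (PB.const 1))).add (PB.const 1)))
    fun a i hi => ?_
  refine (sz_list_le (l := walks d (F a) i) fun w hw => ?_).trans (Nat.mul_le_mul_right _ ?_)
  · obtain ⟨h1, h2⟩ := walks_mem d _ _ w hw
    refine (sz_list_le fun c hc => (sz_lt_of_mem (h2 c hc)).le).trans (Nat.mul_le_mul_right _ ?_)
    omega
  · refine (walks_len d _ i).trans (Nat.mul_le_mul_left _ ?_)
    calc (d ^ 3) ^ i ≤ ((2 ^ d) ^ 3) ^ i :=
          Nat.pow_le_pow_left (Nat.pow_le_pow_left Nat.lt_two_pow_self.le _) _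
      _ = 2 ^ (d * 3 * i) := by rw [← pow_mul, ← pow_mul, mul_assoc]
      _ ≤ _ := Nat.pow_le_pow_right (by omega) (by nlinarith)

@[fun_prop] theorem pt_wit (hF : PT F) : PT fun a => wit d (F a) := by
  have := pt_walks (d := d) hF
  unfold wit; fun_prop

@[fun_prop] theorem pt_sig (hF : PT F) : PT fun a => sig k d (F a) := by
  unfold sig
  have h : PT fun p : (List (Cl V) × List (Cl V)) => (vs p.1).foldl (step k p.1 p.2) [] := by
    refine PT.foldl_add' (f := fun p : (List (Cl V) × List (Cl V)) => step k p.1 p.2)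
      (g := fun _ b => sz b + 3) (by fun_prop) (by fun_prop) (by fun_prop) (by fun_prop)
      fun a s b => ?_
    unfold step
    cases has s b || frz k a.1 s b
    · have := sz_bool (decide (pot a.2 ((b, true) :: s) ≤ pot a.2 s))
      simp only [cond_false, sz_cons, sz_pair]; omega
    · simp
  exact h.comp (hF.prodMk (pt_wit hF))

@[fun_prop] theorem pt_rel (hF : PT F) (hσ : PT σ) (hx : PT x) (hy : PT y) :
    PT fun a => rel (F a) (σ a) (x a) (y a) := by unfold rel; fun_prop

@[fun_prop] theorem pt_cmp (hF : PT F) (hσ : PT σ) (hx : PT x) :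
    PT fun a => cmp (F a) (σ a) (x a) := by
  refine PT.iterate (step := fun a => grow (F a) (σ a)) (by fun_prop) (by fun_prop)
    (by unfold grow; fun_prop) (B := fun a => sz (vs (F a)) + sz [x a])
    ((pt_vs hF).pb.add (PT.pb (by fun_prop))) fun a i _ => ?_
  cases i with
  | zero => simp
  | succ i =>
    rw [iterate_succ_apply']
    exact (sz_le_of_sublist List.filter_sublist).trans (Nat.le_add_right _ _)

omit [DecidableEq V] in
theorem pt_subs (hK : PT K) (hb : PB sz fun a => 2 ^ (K a).length) : PT fun a => subs (K a) := by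
  refine PT.foldr (f := fun _ (a : V) (r : List (List V)) => r ++ r.map fun T => a :: T) hK
    (PT.const [[]]) (by fun_prop)
    (hb.mul (hK.pb.add (PB.const 1))) fun a i => ?_
  obtain ⟨h1, h2⟩ := subs_spec ((K a).drop i)
  refine (sz_list_le (l := subs ((K a).drop i)) fun T hT => sz_le_of_sublist
    (((h2 T).1 hT).trans (List.drop_sublist _ _))).trans (Nat.mul_le_mul_right _ ?_)
  rw [h1]
  exact Nat.pow_le_pow_right (by omega) (by simp)

@[fun_prop] theorem pt_ok (hF : PT F) (hσ : PT σ) (hK : PT K) (hT : PT T) :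
    PT fun a => ok (F a) (σ a) (K a) (T a) := by unfold ok; fun_prop

@[fun_prop] theorem pt_best (hF : PT F) (hσ : PT σ) (hK : PT K) :
    PT fun a => best k d (F a) (σ a) (K a) := by
  have := pt_subs (K := fun a => (K a).take (lg (F a) * (d * (2 * k)))) (by fun_prop)
    ((pb_two_pow hF (d * (2 * k))).mono fun a =>
      Nat.pow_le_pow_right (by omega) (List.length_take_le _ _))
  unfold best; fun_prop

theorem pt_out (hF : PT F) (hσ : PT σ) : PT fun a => out k d (F a) (σ a) := by
  unfold out; fun_prop

end pt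

end Pool.Agent.Lib.MP_6b7ffe_lc.Sat
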