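import Mathlib

/-! A counting local lemma for clauses. -/

set_option autoImplicit false

namespace Pool.Agent.Lib.MP_6b7ffe_lc

open Finset

variable {V : Type} [DecidableEq V]

/-- two clauses share a variable -/
def meets (c e : List (V × Bool)) : Bool := c.any fun p => e.any fun q => decide (p.1 = q.1)

theorem meets_iff {c e : List (V × Bool)} :
    meets c e = true ↔ ∃ x, x ∈ c.map Prod.fst ∧ x ∈ e.map Prod.fst := by
  simp only [meets, List.any_eq_true, decide_eq_true_eq, List.mem_map]
  constructor
  · rintro ⟨p, hp, q, hq, h⟩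
    exact ⟨p.1, ⟨p, hp, rfl⟩, q, hq, h.symm⟩
  · rintro ⟨x, ⟨p, hp, rfl⟩, q, hq, h⟩
    exact ⟨p, hp, q, hq, h.symm⟩

theorem meets_symm {c e : List (V × Bool)} (h : meets c e = true) : meets e c = true := by
  obtain ⟨x, h1, h2⟩ := meets_iff.1 h
  exact meets_iff.2 ⟨x, h2, h1⟩

/-- the set `T` of true variables satisfies the clause -/
def SatBy (T : Finset V) (c : List (V × Bool)) : Prop := ∃ p ∈ c, decide (p.1 ∈ T) = p.2

instance (T : Finset V) (c : List (V × Bool)) : Decidable (SatBy T c) := by
  unfold SatBy; infer_instance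

theorem sat_half (U : Finset V) (x : V) (hx : x ∈ U) (b : Bool) (P : Finset V → Prop)
    [DecidablePred P] (hP : ∀ T, x ∉ T → (P T ↔ P (insert x T))) :
    2 * #(U.powerset.filter fun T => P T ∧ decide (x ∈ T) = b) = #(U.powerset.filter P) := by
  have h1 : #(U.powerset.filter fun T => P T ∧ x ∉ T) =
      #(U.powerset.filter fun T => P T ∧ x ∈ T) := by
    refine card_bij' (fun T _ => insert x T) (fun T _ => T.erase x) ?_ ?_ ?_ ?_
    · intro T hT
      simp only [mem_filter, mem_powerset] at hT ⊢
      exact ⟨insert_subset hx hT.1, (hP T hT.2.2).1 hT.2.1, mem_insert_self _ _⟩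
    · intro T hT
      simp only [mem_filter, mem_powerset] at hT ⊢
      refine ⟨(erase_subset _ _).trans hT.1, (hP _ (notMem_erase _ _)).2 ?_, notMem_erase _ _⟩
      rw [insert_erase hT.2.2]; exact hT.2.1
    · intro T hT
      simp only [mem_filter] at hT
      exact erase_insert hT.2.2
    · intro T hT
      simp only [mem_filter] at hT
      exact insert_erase hT.2.2
  have h2 := card_filter_add_card_filter_not (s := U.powerset.filter P) fun T => x ∈ T
  rw [filter_filter, filter_filter] at h2
  cases b
  · simp only [decide_eq_false_iff_not]; omega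
  · simp only [decide_eq_true_eq]; omega

theorem sat_indep (U : Finset V) (c : List (V × Bool)) (hc : (c.map Prod.fst).Nodup)
    (hU : ∀ p ∈ c, p.1 ∈ U) (P : Finset V → Prop) [DecidablePred P]
    (hP : ∀ p ∈ c, ∀ T, p.1 ∉ T → (P T ↔ P (insert p.1 T))) :
    2 ^ c.length * #(U.powerset.filter fun T => P T ∧ ¬ SatBy T c) = #(U.powerset.filter P) := by
  induction c with
  | nil => simp [SatBy]
  | cons p c ih =>
    rw [List.map_cons, List.nodup_cons] at hc
    rw [← ih hc.2 (fun q hq => hU q (by simp [hq])) (fun q hq => hP q (by simp [hq])),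
      ← sat_half U p.1 (hU p (by simp)) (!p.2) (fun T => P T ∧ ¬ SatBy T c), List.length_cons,
      pow_succ, mul_assoc]
    · congr 3
      refine filter_congr fun T _ => ?_
      have : decide (p.1 ∈ T) = !p.2 ↔ ¬ decide (p.1 ∈ T) = p.2 := by
        cases decide (p.1 ∈ T) <;> cases p.2 <;> simp
      rw [this]
      simp only [SatBy, List.mem_cons, exists_eq_or_imp, not_or]
      tauto
    · intro T hT
      refine and_congr (hP p (by simp) T hT) (not_congr (exists_congr fun q => ?_))
      refine and_congr_right fun hq => ?_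
      have : q.1 ≠ p.1 := fun e => hc.1 (e ▸ List.mem_map_of_mem hq)
      simp [this]

theorem sat_union (S : Finset (Finset V)) (E : List (List (V × Bool))) (B : ℕ) (m : ℕ)
    (h : ∀ e ∈ E, m * #(S.filter fun T => ¬ SatBy T e) ≤ B) :
    m * #S ≤ m * #(S.filter fun T => ∀ e ∈ E, SatBy T e) + E.length * B := by
  induction E with
  | nil => simp
  | cons e E ih =>
    have h1 := ih fun e' he => h e' (by simp [he])
    have h2 := h e (by simp)
    have h3 : #(S.filter fun T => ∀ e ∈ E, SatBy T e) ≤
        #(S.filter fun T => ∀ e' ∈ e :: E, SatBy T e') + #(S.filter fun T => ¬ SatBy T e) := by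
      refine le_trans (card_le_card fun T hT => ?_) (card_union_le _ _)
      simp only [mem_filter, mem_union, List.forall_mem_cons] at hT ⊢
      tauto
    have h4 := Nat.mul_le_mul_left m h3
    simp only [List.length_cons]
    nlinarith

theorem lll_cnf (k d : ℕ) (hd : 0 < d) (h : 4 * d ≤ 2 ^ k) (F : List (List (V × Bool)))
    (h1 : ∀ c ∈ F, k ≤ c.length ∧ (c.map Prod.fst).Nodup)
    (h2 : ∀ c ∈ F, F.countP (meets c) ≤ d) : ∃ T : Finset V, ∀ c ∈ F, SatBy T c := by
  set U := (F.flatMap fun c => c.map Prod.fst).toFinset with hU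
  have key : ∀ n, ∀ A : List (List (V × Bool)), A.length ≤ n → A.Sublist F → ∀ c ∈ F,
      2 ^ k * #(U.powerset.filter fun T => (∀ e ∈ A, SatBy T e) ∧ ¬ SatBy T c) ≤
        2 * #(U.powerset.filter fun T => ∀ e ∈ A, SatBy T e) := by
    intro n
    induction n using Nat.strong_induction_on with
    | _ n ih =>
    intro A hA hs c hc
    set C := A.filter fun e => !meets c e with hC
    set E := A.filter (meets c) with hE
    have a1 := sat_indep U c (h1 c hc).2
      (fun p hp => List.mem_toFinset.2 (List.mem_flatMap.2 ⟨c, hc, List.mem_map_of_mem hp⟩))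
      (fun T => ∀ e ∈ C, SatBy T e) fun p hp T _ => by
        refine forall₂_congr fun e he => exists_congr fun q => and_congr_right fun hq => ?_
        have : q.1 ≠ p.1 := fun h => by
          have := (List.mem_filter.1 he).2
          rw [meets_iff.2 ⟨q.1, h ▸ List.mem_map_of_mem hp, List.mem_map_of_mem hq⟩] at this
          simp at this
        simp [this]
    have a2 : #(U.powerset.filter fun T => (∀ e ∈ A, SatBy T e) ∧ ¬ SatBy T c) ≤
        #(U.powerset.filter fun T => (∀ e ∈ C, SatBy T e) ∧ ¬ SatBy T c) :=
      card_le_card fun T hT => by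
        simp only [mem_filter] at hT ⊢
        exact ⟨hT.1, fun e he => hT.2.1 e (List.mem_of_mem_filter he), hT.2.2⟩
    have a3 := Nat.mul_le_mul (Nat.pow_le_pow_right (n := 2) (by omega) (h1 c hc).1) a2
    rw [a1] at a3
    refine a3.trans ?_
    have a4 : E.length ≤ d := by
      rw [hE, ← List.countP_eq_length_filter]
      exact (hs.countP_le).trans (h2 c hc)
    have a5 : C.length + E.length = A.length := by
      have := List.length_eq_length_filter_add (l := A) (meets c)
      rw [this, add_comm]
    have a6 := sat_union (U.powerset.filter fun T => ∀ e ∈ C, SatBy T e) E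
      (2 * #(U.powerset.filter fun T => ∀ e ∈ C, SatBy T e)) (2 ^ k) fun e he => by
        have := List.length_pos_of_mem he
        rw [filter_filter]
        exact ih C.length (by omega) C le_rfl (List.filter_sublist.trans hs) e
          (hs.subset (List.mem_of_mem_filter he))
    have a7 : ((U.powerset.filter fun T => ∀ e ∈ C, SatBy T e).filter
        fun T => ∀ e ∈ E, SatBy T e) = U.powerset.filter fun T => ∀ e ∈ A, SatBy T e := by
      rw [filter_filter]
      refine filter_congr fun T _ => ⟨fun h e he => ?_, fun h =>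
        ⟨fun e he => h e (List.mem_of_mem_filter he), fun e he => h e (List.mem_of_mem_filter he)⟩⟩
      by_cases hm : meets c e = true
      · exact h.2 e (List.mem_filter.2 ⟨he, hm⟩)
      · exact h.1 e (List.mem_filter.2 ⟨he, by simpa using hm⟩)
    rw [a7] at a6
    generalize #(U.powerset.filter fun T => ∀ e ∈ C, SatBy T e) = x at *
    generalize #(U.powerset.filter fun T => ∀ e ∈ A, SatBy T e) = y at *
    have a8 : 2 ^ k * x ≤ 2 ^ k * (2 * y) := by
      have := Nat.mul_le_mul_right x ((Nat.mul_le_mul_left 4 a4).trans h)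
      nlinarith
    exact Nat.le_of_mul_le_mul_left a8 (by positivity)
  have pos : ∀ A : List (List (V × Bool)), A.Sublist F →
      0 < #(U.powerset.filter fun T => ∀ e ∈ A, SatBy T e) := by
    intro A
    induction A with
    | nil => intro _; simp
    | cons c A ih =>
      intro hs
      have b0 := (List.sublist_cons_self c A).trans hs
      have b1 := ih b0
      have b2 := key _ A le_rfl b0 c (hs.subset (by simp))
      have b3 := card_filter_add_card_filter_not
        (s := U.powerset.filter fun T => ∀ e ∈ A, SatBy T e) fun T => SatBy T c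
      rw [filter_filter, filter_filter] at b3
      have b4 : (U.powerset.filter fun T => ∀ e ∈ c :: A, SatBy T e) =
          U.powerset.filter fun T => (∀ e ∈ A, SatBy T e) ∧ SatBy T c :=
        filter_congr fun T _ => by rw [List.forall_mem_cons, and_comm]
      rw [b4]
      by_contra hz
      have := Nat.mul_le_mul_right
        #(U.powerset.filter fun T => (∀ e ∈ A, SatBy T e) ∧ ¬ SatBy T c) (show 4 ≤ 2 ^ k by omega)
      omega
  obtain ⟨T, hT⟩ := card_pos.1 (pos F (List.Sublist.refl _))
  exact ⟨T, (mem_filter.1 hT).2⟩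

end Pool.Agent.Lib.MP_6b7ffe_lc
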