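import Pool.Agent.Lib.MP_6b7ffe_lc.LS.SatD

/-! Phase one of the solver: the potential and the frozen variables. -/

set_option autoImplicit false

namespace Pool.Agent.Lib.MP_6b7ffe_lc.Sat

open Function

variable {V : Type} [DecidableEq V] {k d : ℕ} {F W : List (Cl V)} {σ L c : Cl V} {x y : V}

theorem has_iff : has c x = true ↔ x ∈ c.map Prod.fst := by simp only [has, decide_eq_true_eq]

theorem has_false : has c x = false ↔ ∀ p ∈ c, p.1 ≠ x := by
  simp only [has, decide_eq_false_iff_not, List.mem_map, not_exists, not_and, ne_eq]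

theorem meets_of {e : Cl V} (h : has c x = true) (h' : has e x = true) : meets c e = true :=
  meets_iff.2 ⟨x, has_iff.1 h, has_iff.1 h'⟩

theorem tr_cons_of (h : has L x = false) (b : Bool) : tr ((x, b) :: σ) L = tr σ L := by
  unfold tr
  rw [Bool.eq_iff_iff, List.any_eq_true, List.any_eq_true]
  refine exists_congr fun p => and_congr_right fun hp => ?_
  have : p ≠ (x, b) := fun e => has_false.1 h p hp (by rw [e])
  simp [this]

theorem fl_cons_of (h : has L x = false) (b : Bool) : fl ((x, b) :: σ) L = fl σ L := by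
  unfold fl
  refine List.countP_congr fun p hp => ?_
  simp [has_false.1 h p hp]

theorem tr_mono (p : V × Bool) (h : tr σ L = true) : tr (p :: σ) L = true := by
  simp only [tr, List.any_eq_true, decide_eq_true_eq] at h ⊢
  obtain ⟨q, h1, h2⟩ := h
  exact ⟨q, h1, List.mem_cons_of_mem _ h2⟩

theorem fl_cons_le (hL : (L.map Prod.fst).Nodup) (b : Bool) :
    fl ((x, b) :: σ) L ≤ fl σ L + 1 := by
  induction L with
  | nil => simp [fl]
  | cons p L ih =>
    rw [List.map_cons, List.nodup_cons] at hL
    by_cases h : p.1 = x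
    · have := fl_cons_of (σ := σ) (L := L) (x := x)
        (by simpa only [has, decide_eq_false_iff_not, ← h] using hL.1) b
      unfold fl at this ⊢
      rw [List.countP_cons, List.countP_cons, this]
      split_ifs <;> omega
    · have := ih hL.2
      unfold fl at this ⊢
      rw [List.countP_cons, List.countP_cons]
      simp only [List.mem_cons, Prod.mk.injEq, h, false_and, false_or] at this ⊢
      omega

theorem wt_cons (p : V × Bool) : wt σ (p :: L) =
    (if p ∈ σ then 0 else if (p.1, !p.2) ∈ σ then 2 else 1) * wt σ L := by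
  unfold wt tr fl
  rw [List.any_cons, List.countP_cons]
  by_cases h1 : p ∈ σ
  · simp [h1]
  · cases L.any fun p => decide (p ∈ σ)
    · by_cases h2 : (p.1, !p.2) ∈ σ <;> simp [h1, h2, pow_succ, mul_comm]
    · simp

theorem wt_mart (hx : has σ x = false) (hL : (L.map Prod.fst).Nodup) :
    wt ((x, true) :: σ) L + wt ((x, false) :: σ) L = 2 * wt σ L := by
  induction L with
  | nil => simp [wt, tr, fl]
  | cons p L ih =>
    rw [List.map_cons, List.nodup_cons] at hL
    simp only [wt_cons]
    obtain ⟨y, b⟩ := p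
    by_cases h : y = x
    · subst h
      have h0 : has L y = false := by simpa only [has, decide_eq_false_iff_not] using hL.1
      have h1 : ∀ b, (y, b) ∉ σ := fun b hb => has_false.1 hx _ hb rfl
      have h2 : ∀ b, wt ((y, b) :: σ) L = wt σ L := fun b => by
        unfold wt; rw [tr_cons_of h0, fl_cons_of h0]
      cases b <;> simp [h1, h2]
    · simp only [List.mem_cons, Prod.mk.injEq, h, false_and, false_or]
      rw [← mul_add, ih hL.2]; ring

theorem wt_nonneg : 0 ≤ wt σ L := by
  unfold wt; cases tr σ L <;> simp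

theorem pot_mart (hx : has σ x = false) (hW : ∀ L ∈ W, (L.map Prod.fst).Nodup) :
    pot W ((x, true) :: σ) + pot W ((x, false) :: σ) = 2 * pot W σ := by
  induction W with
  | nil => simp [pot]
  | cons L W ih =>
    have h1 := ih fun L hL => hW L (by simp [hL])
    have h2 := wt_mart hx (hW L (by simp))
    simp only [pot, List.map_cons, List.sum_cons] at h1 ⊢
    linarith

theorem pot_nil : pot W ([] : Cl V) = W.length := by
  induction W with
  | nil => simp [pot]
  | cons L W ih =>
    have : wt [] L = 1 := by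
      have : tr [] L = false := by simp [tr]
      simp [wt, this, fl]
    simp only [pot, List.map_cons, List.sum_cons, List.length_cons] at ih ⊢
    rw [ih, this]; push_cast; ring

structure Inv (k : ℕ) (F W : List (Cl V)) (σ : Cl V) : Prop where
  nd : (σ.map Prod.fst).Nodup
  pt : pot W σ ≤ W.length
  fl : ∀ c ∈ F, tr σ c = true ∨ fl σ c ≤ k

theorem step_spec (hF : ∀ c ∈ F, (c.map Prod.fst).Nodup) (hW : ∀ L ∈ W, (L.map Prod.fst).Nodup)
    (H : Inv k F W σ) (x : V) : Inv k F W (step k F W σ x) ∧
      ∀ y, (y = x ∨ (has σ y || frz k F σ y) = true) →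
        (has (step k F W σ x) y || frz k F (step k F W σ x) y) = true := by
  unfold step
  cases h : has σ x || frz k F σ x
  swap
  · refine ⟨H, fun y hy => ?_⟩
    rcases hy with rfl | hy
    · exact h
    · exact hy
  rw [Bool.or_eq_false_iff] at h
  simp only [cond_false]
  generalize hb : decide (pot W ((x, true) :: σ) ≤ pot W σ) = b
  have hz : ∀ c ∈ F, dang k σ c = true → has c x = false := fun c hc hd => by
    have := List.any_eq_false.1 h.2 c hc
    simpa [hd] using this
  refine ⟨⟨?_, le_trans ?_ H.pt, fun c hc => ?_⟩, fun y hy => ?_⟩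
  · rw [List.map_cons, List.nodup_cons]
    exact ⟨by simpa only [has, decide_eq_false_iff_not] using h.1, H.nd⟩
  · have := pot_mart h.1 hW
    cases b
    · have := of_decide_eq_false hb
      linarith
    · exact of_decide_eq_true hb
  · cases ht : tr σ c
    · right
      cases hc' : has c x
      · rw [fl_cons_of hc']
        simpa [ht] using H.fl c hc
      · have h1 := fl_cons_le (σ := σ) (x := x) (hF c hc) b
        by_contra h2
        have := hz c hc (by simp only [dang, ht, Bool.not_false, Bool.true_and, decide_eq_true_eq]; omega)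
        simp [hc'] at this
    · exact .inl (tr_mono _ ht)
  · rw [Bool.or_eq_true] at hy ⊢
    rcases hy with rfl | hy | hy
    · left; simp [has]
    · left; rw [has_iff] at hy ⊢; exact List.mem_cons_of_mem _ hy
    · right
      obtain ⟨c, hc, h1⟩ := List.any_eq_true.1 hy
      refine List.any_eq_true.2 ⟨c, hc, ?_⟩
      have := hz c hc (by rw [Bool.and_eq_true] at h1; exact h1.1)
      unfold dang at h1 ⊢
      rwa [tr_cons_of this, fl_cons_of this]

theorem fold_spec (hF : ∀ c ∈ F, (c.map Prod.fst).Nodup) (hW : ∀ L ∈ W, (L.map Prod.fst).Nodup)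
    (l : List V) : ∀ σ, Inv k F W σ → Inv k F W (l.foldl (step k F W) σ) ∧
      ∀ y, (y ∈ l ∨ (has σ y || frz k F σ y) = true) →
        (has (l.foldl (step k F W) σ) y || frz k F (l.foldl (step k F W) σ) y) = true := by
  induction l with
  | nil => intro σ H; exact ⟨H, fun y hy => by simpa using hy⟩
  | cons x l ih =>
    intro σ H
    obtain ⟨h1, h2⟩ := step_spec hF hW H x
    obtain ⟨h3, h4⟩ := ih _ h1
    refine ⟨h3, fun y hy => h4 y ?_⟩
    rcases hy with hy | hy
    · rcases List.mem_cons.1 hy with hy | hy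
      · exact .inr (h2 y (.inl hy))
      · exact .inl hy
    · exact .inr (h2 y (.inr hy))

theorem wit_nodup : ∀ L ∈ wit d F, (L.map Prod.fst).Nodup := fun L hL => by
  have h := of_decide_eq_true (List.mem_filter.1 hL).2
  exact List.dedup_eq_self.1 ((List.dedup_sublist _).eq_of_length (by simpa using h))

theorem sig_spec (hF : ∀ c ∈ F, (c.map Prod.fst).Nodup) : Inv k F (wit d F) (sig k d F) ∧
    ∀ y ∈ vs F, has (sig k d F) y = false →
      ∃ c ∈ F, dang k (sig k d F) c = true ∧ has c y = true := by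
  obtain ⟨h1, h2⟩ := fold_spec (k := k) hF (wit_nodup (d := d)) (vs F) []
    ⟨by simp, pot_nil.le, fun c _ => .inr (by simp [fl])⟩
  refine ⟨h1, fun y hy h => ?_⟩
  have := h2 y (.inl hy)
  change (has (sig k d F) y || frz k F (sig k d F) y) = true at this
  simpa [h, frz] using this

/-- distance at most three -/
def R3 (F : List (Cl V)) (a b : Cl V) : Prop :=
  ∃ c ∈ F, ∃ e ∈ F, meets a c = true ∧ meets c e = true ∧ meets e b = true

theorem R3.symm {a b : Cl V} (h : R3 F a b) : R3 F b a := by
  obtain ⟨c, hc, e, he, h1, h2, h3⟩ := h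
  exact ⟨e, he, c, hc, meets_symm h3, meets_symm h2, meets_symm h1⟩

theorem mem_nb (h2 : ∀ c ∈ F, F.countP (meets c) ≤ d) {e : Cl V} (hc : c ∈ F) (he : e ∈ F)
    (h : meets c e = true) : e ∈ nb d F c := by
  unfold nb
  rw [List.take_of_length_le (by rw [← List.countP_eq_length_filter]; exact h2 c hc)]
  exact List.mem_filter.2 ⟨he, h⟩

theorem mem_walks (h2 : ∀ c ∈ F, F.countP (meets c) ≤ d) (j : ℕ) : ∀ w : List (Cl V),
    w.IsChain (R3 F) → w.length = j + 1 → (∀ c ∈ w, c ∈ F) → w ∈ walks d F j := by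
  induction j with
  | zero =>
    intro w _ h hF
    obtain ⟨c, rfl⟩ := List.length_eq_one_iff.1 h
    exact List.mem_map.2 ⟨c, hF c (by simp), rfl⟩
  | succ j ih =>
    intro w hc h hF
    rcases w with _ | ⟨a, _ | ⟨b, w⟩⟩
    · simp at h
    · simp at h
    rw [List.isChain_cons_cons] at hc
    rw [walks_succ]
    refine List.mem_flatMap.2 ⟨b :: w, ih _ hc.2 (by simpa using h)
      fun c hc => hF c (List.mem_cons_of_mem _ hc), List.mem_map.2 ⟨a, ?_, rfl⟩⟩
    obtain ⟨c, hc, e, he, h1, h3, h4⟩ := hc.1.symm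
    exact List.mem_flatMap.2 ⟨e, List.mem_flatMap.2 ⟨c, mem_nb h2 (hF b (by simp)) hc h1,
      mem_nb h2 hc he h3⟩, mem_nb h2 he (hF a (by simp)) h4⟩

theorem flat_dang (S : List (Cl V)) (h : ∀ c ∈ S, dang k σ c = true) :
    tr σ S.flatten = false ∧ k * S.length ≤ fl σ S.flatten := by
  induction S with
  | nil => simp [tr]
  | cons c S ih =>
    obtain ⟨h1, h2⟩ := ih fun e he => h e (by simp [he])
    have h3 := h c (by simp)
    simp only [dang, Bool.and_eq_true, Bool.not_eq_true', decide_eq_true_eq] at h3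
    unfold tr fl at *
    rw [List.flatten_cons, List.any_append, List.countP_append, h1, h3.1, List.length_cons,
      Nat.mul_succ]
    exact ⟨rfl, by omega⟩

theorem no_walk (hk0 : 0 < k) (h : 4 * d ^ 6 ≤ 2 ^ k) (hF : ∀ c ∈ F, (c.map Prod.fst).Nodup)
    (h2 : ∀ c ∈ F, F.countP (meets c) ≤ d) (H : Inv k F (wit d F) σ) (w : List (Cl V))
    (hc : w.IsChain (R3 F)) (hl : w.length = 2 * lg F + 1)
    (hm : ∀ c ∈ w, c ∈ F ∧ dang k σ c = true)
    (hp : ∀ a ∈ w, ∀ b ∈ w, meets a b = true → a = b) (hk : w.toFinset.card = lg F + 1) :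
    False := by
  have a1 : (w.dedup.flatten.map Prod.fst).Nodup := by
    rw [List.map_flatten, List.nodup_flatten]
    refine ⟨fun l hl => ?_, ?_⟩
    · obtain ⟨c, hc, rfl⟩ := List.mem_map.1 hl
      exact hF c (hm c (List.mem_dedup.1 hc)).1
    · rw [List.pairwise_map]
      refine List.Pairwise.imp_of_mem (fun {a b} ha hb hne x h1 h2 => ?_) (List.nodup_dedup w)
      exact hne (hp a (List.mem_dedup.1 ha) b (List.mem_dedup.1 hb) (meets_iff.2 ⟨x, h1, h2⟩))
  have a2 : w.dedup.flatten ∈ wit d F := List.mem_filter.2 ⟨List.mem_map.2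
    ⟨w, mem_walks h2 _ w hc hl fun c hc => (hm c hc).1, rfl⟩,
      decide_eq_true (by rw [a1.dedup, List.length_map])⟩
  obtain ⟨a3, a4⟩ := flat_dang (k := k) (σ := σ) w.dedup fun c hc => (hm c (List.mem_dedup.1 hc)).2
  rw [← List.card_toFinset, hk] at a4
  have a5 : wt σ w.dedup.flatten ≤ pot (wit d F) σ :=
    List.single_le_sum (fun z hz => by
      obtain ⟨L, -, rfl⟩ := List.mem_map.1 hz
      exact wt_nonneg) _ (List.mem_map_of_mem a2)
  have a6 : (wit d F).length ≤ F.length * (d ^ 3) ^ (2 * lg F) :=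
    (List.length_filter_le _ _).trans (by simpa using walks_len d F _)
  have a7 : 2 ^ fl σ w.dedup.flatten ≤ (wit d F).length := by
    have := a5.trans H.pt
    simp only [wt, a3, cond_false] at this
    exact_mod_cast this
  have a8 := lg_lt F
  have a9 : 2 ^ lg F * (d ^ 3) ^ (2 * lg F) ≤ 2 ^ (k * lg F) := by
    rw [pow_mul, pow_mul, ← mul_pow]
    refine Nat.pow_le_pow_left ?_ _
    have : (d ^ 3) ^ 2 = d ^ 6 := by ring
    omega
  have b1 : F.length * (d ^ 3) ^ (2 * lg F) ≤ 2 ^ lg F * (d ^ 3) ^ (2 * lg F) :=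
    Nat.mul_le_mul_right _ a8.le
  have b2 := (Nat.pow_le_pow_iff_right (by omega : 1 < 2)).1 (a7.trans (a6.trans (b1.trans a9)))
  rw [Nat.mul_succ] at a4; omega

end Pool.Agent.Lib.MP_6b7ffe_lc.Sat
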